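import Mathlib

open Set Filter Topology

namespace Pool.Agent.W738.CP

/-- glue two functions at `x` -/
noncomputable def gl (x : ℝ) (f g : ℝ → ℝ) : ℝ → ℝ := fun t => if t < x then f t else g t

theorem gl_left {x : ℝ} {f g : ℝ → ℝ} {t : ℝ} (h : t < x) : gl x f g t = f t := by simp [gl, h]
theorem gl_right {x : ℝ} {f g : ℝ → ℝ} {t : ℝ} (h : x ≤ t) : gl x f g t = g t := by
  simp [gl, not_lt.mpr h]

theorem gl_deriv_ne {x : ℝ} {f g f' g' : ℝ → ℝ} {t : ℝ} (ht : t ≠ x)
    (hf : HasDerivAt f (f' t) t) (hg : HasDerivAt g (g' t) t) :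
    HasDerivAt (gl x f g) (gl x f' g' t) t := by
  rcases lt_or_gt_of_ne ht with h | h
  · rw [gl_left h]
    refine hf.congr_of_eventuallyEq ?_
    filter_upwards [Iio_mem_nhds h] with y hy
    exact gl_left hy
  · rw [gl_right h.le]
    refine hg.congr_of_eventuallyEq ?_
    filter_upwards [Ioi_mem_nhds h] with y hy
    exact gl_right (le_of_lt hy)

theorem gl_deriv {x : ℝ} {f g f' g' : ℝ → ℝ} (t : ℝ)
    (hf : HasDerivAt f (f' t) t) (hg : HasDerivAt g (g' t) t)
    (h0 : f x = g x) (h1 : f' x = g' x) :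
    HasDerivAt (gl x f g) (gl x f' g' t) t := by
  by_cases ht : t = x
  · subst ht
    rw [gl_right le_rfl]
    have hl : HasDerivWithinAt (gl t f g) (g' t) (Iic t) t := by
      rw [h1] at hf
      refine hf.hasDerivWithinAt.congr ?_ ?_
      · intro y hy
        rcases lt_or_eq_of_le (show y ≤ t from hy) with h | h
        · exact gl_left h
        · rw [h, gl_right le_rfl, h0]
      · rw [gl_right le_rfl, h0]
    have hr : HasDerivWithinAt (gl t f g) (g' t) (Ici t) t := by
      refine hg.hasDerivWithinAt.congr ?_ ?_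
      · intro y hy
        exact gl_right hy
      · exact gl_right le_rfl
    have := hl.union hr
    rw [Iic_union_Ici] at this
    exact hasDerivWithinAt_univ.mp this
  · exact gl_deriv_ne ht hf hg

theorem gl_continuous {x : ℝ} {f g : ℝ → ℝ} (hf : Continuous f) (hg : Continuous g)
    (h0 : f x = g x) : Continuous (gl x f g) := by
  unfold gl
  apply Continuous.if
  · intro a ha
    have : a ∈ frontier (Iio x) := ha
    rw [frontier_Iio] at this
    simp only [mem_singleton_iff] at this
    rw [this, h0]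
  · exact hf
  · exact hg

/-- the one dimensional potential: `1` on `[0,b]` -/
noncomputable def Q (b t : ℝ) : ℝ := if 0 ≤ t ∧ t ≤ b then 1 else 0

/-- Jost solution with its properties -/
structure Jost (b : ℝ) (k : ℕ) where
  χ : ℝ → ℝ
  χ' : ℝ → ℝ
  A : ℝ
  R : ℝ
  cont : Continuous χ'
  der : ∀ t, HasDerivAt χ (χ' t) t
  der2 : ∀ t, t ≠ 0 → t ≠ b → HasDerivAt χ' (((k : ℝ) ^ 2 + Q b t) * χ t) t
  pos : ∀ t, 0 < χ t
  right : ∀ t, b ≤ t → χ t = Real.exp (-(k * t))
  right' : ∀ t, b ≤ t → χ' t = -k * Real.exp (-(k * t))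
  left : ∀ t, t ≤ 0 → χ t = A * Real.exp (-(k * t)) + R * Real.exp (k * t)
  left' : ∀ t, t ≤ 0 → χ' t = -k * A * Real.exp (-(k * t)) + k * R * Real.exp (k * t)
  one_le_A : 1 ≤ A
  absR : |R| ≤ A
  upper : ∀ t, χ t ≤ A * Real.exp (-(k * t))
  lower : ∀ t, t ≤ 0 → A * Real.exp (-(k * t)) * (1 - Real.exp (2 * k * t)) ≤ χ t

section
variable (b : ℝ) (k : ℕ)

noncomputable def mu (k : ℕ) : ℝ := Real.sqrt ((k : ℝ) ^ 2 + 1)

theorem mu_sq : mu k ^ 2 = (k : ℝ) ^ 2 + 1 := Real.sq_sqrt (by positivity)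
theorem mu_pos : 0 < mu k := Real.sqrt_pos.mpr (by positivity)
theorem k_le_mu : (k : ℝ) ≤ mu k := Real.le_sqrt_of_sq_le (by linarith)

noncomputable def fr : ℝ → ℝ := fun t => Real.exp (-(k * t))
noncomputable def fr' : ℝ → ℝ := fun t => -k * Real.exp (-(k * t))
noncomputable def fr'' : ℝ → ℝ := fun t => (k : ℝ) ^ 2 * Real.exp (-(k * t))
noncomputable def fm : ℝ → ℝ := fun t =>
  Real.exp (-(k * b)) * (Real.cosh (mu k * (b - t)) + k / mu k * Real.sinh (mu k * (b - t)))
noncomputable def fm' : ℝ → ℝ := fun t =>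
  -Real.exp (-(k * b)) * (mu k * Real.sinh (mu k * (b - t)) + k * Real.cosh (mu k * (b - t)))
noncomputable def fm'' : ℝ → ℝ := fun t =>
  Real.exp (-(k * b)) * ((mu k) ^ 2 * Real.cosh (mu k * (b - t)) +
    k * mu k * Real.sinh (mu k * (b - t)))
noncomputable def cA : ℝ := (fm b k 0 - fm' b k 0 / k) / 2
noncomputable def cR : ℝ := (fm b k 0 + fm' b k 0 / k) / 2
noncomputable def fl : ℝ → ℝ := fun t => cA b k * Real.exp (-(k * t)) + cR b k * Real.exp (k * t)
noncomputable def fl' : ℝ → ℝ := fun t =>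
  -k * cA b k * Real.exp (-(k * t)) + k * cR b k * Real.exp (k * t)
noncomputable def fl'' : ℝ → ℝ := fun t =>
  (k : ℝ) ^ 2 * (cA b k * Real.exp (-(k * t)) + cR b k * Real.exp (k * t))

theorem hexpn (c t : ℝ) : HasDerivAt (fun t : ℝ => Real.exp (-(c * t))) (-c * Real.exp (-(c * t))) t := by
  have h : HasDerivAt (fun t : ℝ => -(c * t)) (-c) t := by
    have := ((hasDerivAt_id t).const_mul c).fun_neg
    simpa using this
  exact h.exp.congr_deriv (by ring)

theorem hexpp (c t : ℝ) : HasDerivAt (fun t : ℝ => Real.exp (c * t)) (c * Real.exp (c * t)) t := by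
  have h : HasDerivAt (fun t : ℝ => c * t) c t := by
    simpa using (hasDerivAt_id t).const_mul c
  exact h.exp.congr_deriv (by ring)

theorem fr_d (t : ℝ) : HasDerivAt (fr k) (fr' k t) t := hexpn k t
theorem fr_d2 (t : ℝ) : HasDerivAt (fr' k) (fr'' k t) t := by
  have := (hexpn k t).const_mul (-(k : ℝ))
  exact this.congr_deriv (by unfold fr''; ring)

theorem hch (c t : ℝ) : HasDerivAt (fun t : ℝ => Real.cosh (c * (b - t)))
    (-c * Real.sinh (c * (b - t))) t := by
  have h : HasDerivAt (fun t : ℝ => c * (b - t)) (-c) t := by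
    simpa using ((hasDerivAt_id t).const_sub b).const_mul c
  exact h.cosh.congr_deriv (by ring)

theorem hsh (c t : ℝ) : HasDerivAt (fun t : ℝ => Real.sinh (c * (b - t)))
    (-c * Real.cosh (c * (b - t))) t := by
  have h : HasDerivAt (fun t : ℝ => c * (b - t)) (-c) t := by
    simpa using ((hasDerivAt_id t).const_sub b).const_mul c
  exact h.sinh.congr_deriv (by ring)

theorem fm_d (t : ℝ) : HasDerivAt (fm b k) (fm' b k t) t := by
  have h := ((hch b (mu k) t).fun_add ((hsh b (mu k) t).const_mul (k / mu k))).const_mul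
    (Real.exp (-(k * b)))
  refine h.congr_deriv ?_
  have := (mu_pos k).ne'
  unfold fm'
  field_simp
  ring

theorem fm_d2 (t : ℝ) : HasDerivAt (fm' b k) (fm'' b k t) t := by
  have := (((hsh b (mu k) t).const_mul (mu k)).fun_add
    ((hch b (mu k) t).const_mul (k : ℝ))).const_mul (-Real.exp (-(k * b)))
  exact this.congr_deriv (by unfold fm''; ring)

theorem fl_d (t : ℝ) : HasDerivAt (fl b k) (fl' b k t) t := by
  have := ((hexpn k t).const_mul (cA b k)).fun_add ((hexpp k t).const_mul (cR b k))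
  exact this.congr_deriv (by unfold fl'; ring)

theorem fl_d2 (t : ℝ) : HasDerivAt (fl' b k) (fl'' b k t) t := by
  have := ((hexpn k t).const_mul (-k * cA b k)).fun_add ((hexpp k t).const_mul (k * cR b k))
  exact this.congr_deriv (by unfold fl''; ring)

theorem fm''_eq (t : ℝ) : fm'' b k t = ((k : ℝ) ^ 2 + 1) * fm b k t := by
  unfold fm'' fm
  have h := mu_sq k
  have := (mu_pos k).ne'
  rw [← h]
  field_simp

theorem m_r : fm b k b = fr k b := by simp [fm, fr]
theorem m_r' : fm' b k b = fr' k b := by simp [fm', fr']; ring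
theorem l_m (_hk : 1 ≤ k) : fl b k 0 = fm b k 0 := by
  simp only [fl, cA, cR, mul_zero, neg_zero, Real.exp_zero]; ring
theorem l_m' (hk : 1 ≤ k) : fl' b k 0 = fm' b k 0 := by
  have : (k : ℝ) ≠ 0 := by positivity
  simp [fl', cA, cR]; field_simp; ring

noncomputable def chi : ℝ → ℝ := gl b (gl 0 (fl b k) (fm b k)) (fr k)
noncomputable def chi' : ℝ → ℝ := gl b (gl 0 (fl' b k) (fm' b k)) (fr' k)

variable {b k}

theorem chi_der (hb : 0 < b) (hk : 1 ≤ k) (t : ℝ) : HasDerivAt (chi b k) (chi' b k t) t := by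
  refine gl_deriv t ?_ (fr_d k t) ?_ ?_
  · exact gl_deriv t (fl_d b k t) (fm_d b k t) (l_m b k hk) (l_m' b k hk)
  · rw [gl_right hb.le, m_r]
  · rw [gl_right hb.le, m_r']

theorem chi_cont (hb : 0 < b) (hk : 1 ≤ k) : Continuous (chi' b k) := by
  refine gl_continuous (gl_continuous ?_ ?_ (l_m' b k hk)) ?_ ?_
  · exact continuous_iff_continuousAt.mpr fun t => (fl_d2 b k t).continuousAt
  · exact continuous_iff_continuousAt.mpr fun t => (fm_d2 b k t).continuousAt
  · exact continuous_iff_continuousAt.mpr fun t => (fr_d2 k t).continuousAt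
  · rw [gl_right hb.le, m_r']

theorem chi_der2 (t : ℝ) (h0 : t ≠ 0) (h1 : t ≠ b) :
    HasDerivAt (chi' b k) (((k : ℝ) ^ 2 + Q b t) * chi b k t) t := by
  have h : HasDerivAt (chi' b k) (gl b (gl 0 (fl'' b k) (fm'' b k)) (fr'' k) t) t :=
    gl_deriv_ne h1 (gl_deriv_ne h0 (fl_d2 b k t) (fm_d2 b k t)) (fr_d2 k t)
  convert h using 1
  unfold chi Q
  rcases lt_or_gt_of_ne h1 with h | h
  · rw [gl_left h, gl_left h]
    rcases lt_or_gt_of_ne h0 with h' | h'
    · rw [gl_left h', gl_left h', if_neg (by intro hh; linarith [hh.1])]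
      simp [fl'', fl]
    · rw [gl_right h'.le, gl_right h'.le, if_pos ⟨h'.le, h.le⟩, fm''_eq]
  · rw [gl_right h.le, gl_right h.le, if_neg (by intro hh; linarith [hh.2])]
    simp [fr'', fr]

theorem fm_bound (t : ℝ) (ht : t ≤ b) : 0 < fm b k t ∧
    fm b k t ≤ Real.exp (-(k * b)) * Real.exp (mu k * (b - t)) := by
  have hm := mu_pos k
  have hkm := k_le_mu k
  have h1 : 0 ≤ Real.sinh (mu k * (b - t)) := Real.sinh_nonneg_iff.mpr (by
    apply mul_nonneg hm.le; linarith)
  have h2 : 0 < Real.cosh (mu k * (b - t)) := Real.cosh_pos _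
  have h3 : (k : ℝ) / mu k ≤ 1 := by rw [div_le_one hm]; exact hkm
  have h4 : 0 ≤ (k : ℝ) / mu k := by positivity
  constructor
  · unfold fm
    positivity
  · unfold fm
    apply mul_le_mul_of_nonneg_left _ (Real.exp_pos _).le
    rw [← Real.cosh_add_sinh]
    nlinarith

theorem cA_eq (hk : 1 ≤ k) : cA b k = Real.exp (-(k * b)) *
    (2 * Real.cosh (mu k * b) + (k / mu k + mu k / k) * Real.sinh (mu k * b)) / 2 := by
  have : (k : ℝ) ≠ 0 := by positivity
  have := (mu_pos k).ne'
  unfold cA fm fm'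
  simp only [sub_zero]
  field_simp
  ring

theorem cR_eq (hk : 1 ≤ k) : cR b k = Real.exp (-(k * b)) *
    ((k / mu k - mu k / k) * Real.sinh (mu k * b)) / 2 := by
  have : (k : ℝ) ≠ 0 := by positivity
  have := (mu_pos k).ne'
  unfold cR fm fm'
  simp only [sub_zero]
  field_simp
  ring

theorem cA_ge (hb : 0 < b) (hk : 1 ≤ k) :
    Real.exp (-(k * b)) * Real.exp (mu k * b) ≤ cA b k := by
  have hm := mu_pos k
  have hk0 : (0 : ℝ) < k := by exact_mod_cast hk
  rw [cA_eq hk]
  have h1 : 0 ≤ Real.sinh (mu k * b) := Real.sinh_nonneg_iff.mpr (by positivity)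
  have h2 : 2 ≤ (k : ℝ) / mu k + mu k / k := by
    rw [div_add_div _ _ hm.ne' hk0.ne', le_div_iff₀ (by positivity)]
    nlinarith [sq_nonneg ((k : ℝ) - mu k)]
  rw [mul_div_assoc]
  apply mul_le_mul_of_nonneg_left _ (Real.exp_pos _).le
  rw [← Real.cosh_add_sinh]
  nlinarith

theorem cR_nonpos (hb : 0 < b) (hk : 1 ≤ k) : cR b k ≤ 0 := by
  have hm := mu_pos k
  have hk0 : (0 : ℝ) < k := by exact_mod_cast hk
  have hkm := k_le_mu k
  rw [cR_eq hk]
  have h1 : 0 ≤ Real.sinh (mu k * b) := Real.sinh_nonneg_iff.mpr (by positivity)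
  have h2 : (k : ℝ) / mu k - mu k / k ≤ 0 := by
    rw [div_sub_div _ _ hm.ne' hk0.ne']
    apply div_nonpos_of_nonpos_of_nonneg
    · nlinarith
    · positivity
  have h3 : ((k : ℝ) / mu k - mu k / k) * Real.sinh (mu k * b) ≤ 0 :=
    mul_nonpos_of_nonpos_of_nonneg h2 h1
  have := mul_nonpos_of_nonneg_of_nonpos (Real.exp_pos (-(k * b))).le h3
  linarith

theorem cAR_pos (hb : 0 < b) (hk : 1 ≤ k) : 0 < cA b k + cR b k := by
  have h : cA b k + cR b k = fm b k 0 := by unfold cA cR; ring
  rw [h]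
  exact (fm_bound 0 hb.le).1

/-- existence of the Jost solution -/
noncomputable def jost (hb : 0 < b) (hk : 1 ≤ k) : Jost b k where
  χ := chi b k
  χ' := chi' b k
  A := cA b k
  R := cR b k
  cont := chi_cont hb hk
  der := chi_der hb hk
  der2 := fun t h0 h1 => chi_der2 t h0 h1
  pos := by
    intro t
    unfold chi
    rcases lt_or_ge t b with h | h
    · rw [gl_left h]
      rcases lt_or_ge t 0 with h' | h'
      · rw [gl_left h']
        unfold fl
        have h1 := cAR_pos hb hk
        have h2 := cR_nonpos hb hk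
        have hk0 : (0 : ℝ) < k := by exact_mod_cast hk
        have h3 : Real.exp (k * t) ≤ Real.exp (-(k * t)) := Real.exp_le_exp.mpr (by nlinarith)
        have h4 := Real.exp_pos (-(k * t))
        nlinarith
      · rw [gl_right h']
        exact (fm_bound t h.le).1
    · rw [gl_right h]
      exact Real.exp_pos _
  right := by
    intro t h
    unfold chi
    rw [gl_right h]; rfl
  right' := by
    intro t h
    unfold chi'
    rw [gl_right h]; rfl
  left := by
    intro t h
    unfold chi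
    rw [gl_left (by linarith)]
    rcases lt_or_eq_of_le h with h' | h'
    · rw [gl_left h']; rfl
    · rw [h', gl_right le_rfl, ← l_m b k hk]; rfl
  left' := by
    intro t h
    unfold chi'
    rw [gl_left (by linarith)]
    rcases lt_or_eq_of_le h with h' | h'
    · rw [gl_left h']; rfl
    · rw [h', gl_right le_rfl, ← l_m' b k hk]; rfl
  one_le_A := by
    refine le_trans ?_ (cA_ge hb hk)
    rw [← Real.exp_add]
    apply Real.one_le_exp
    have := k_le_mu k
    nlinarith
  absR := by
    rw [abs_of_nonpos (cR_nonpos hb hk)]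
    linarith [cAR_pos hb hk]
  upper := by
    intro t
    have hA := cA_ge hb hk
    have hkm := k_le_mu k
    unfold chi
    rcases lt_or_ge t b with h | h
    · rw [gl_left h]
      rcases lt_or_ge t 0 with h' | h'
      · rw [gl_left h']
        unfold fl
        have h2 := cR_nonpos hb hk
        nlinarith [Real.exp_pos (k * t)]
      · rw [gl_right h']
        refine (fm_bound t h.le).2.trans ?_
        refine le_trans ?_ (mul_le_mul_of_nonneg_right hA (Real.exp_pos _).le)
        rw [← Real.exp_add, ← Real.exp_add, ← Real.exp_add]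
        apply Real.exp_le_exp.mpr
        nlinarith
    · rw [gl_right h]
      unfold fr
      have : 1 ≤ cA b k := by
        refine le_trans ?_ hA
        rw [← Real.exp_add]
        apply Real.one_le_exp
        nlinarith
      nlinarith [Real.exp_pos (-(k * t))]
  lower := by
    intro t h
    have h5 : chi b k t = fl b k t := by
      unfold chi
      rw [gl_left (by linarith)]
      rcases lt_or_eq_of_le h with h' | h'
      · rw [gl_left h']
      · rw [h', gl_right le_rfl, ← l_m b k hk]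
    rw [h5]
    unfold fl
    have h1 := cAR_pos hb hk
    have h2 : Real.exp (-(k * t)) * Real.exp (2 * k * t) = Real.exp (k * t) := by
      rw [← Real.exp_add]; ring_nf
    have h3 : cA b k * Real.exp (-(k * t)) * (1 - Real.exp (2 * k * t)) =
        cA b k * Real.exp (-(k * t)) - cA b k * Real.exp (k * t) := by
      rw [← h2]; ring
    rw [h3]
    nlinarith [Real.exp_pos (k * t)]

end

end Pool.Agent.W738.CP
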