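import Mathlib
import Pool.Agent.W738.CP.Jost

open Set Filter Topology

namespace Pool.Agent.W738.CP

/-- a pair of one dimensional potentials `P`, `S` with Jost solutions `x`, `y` which have the
same transmission coefficient -/
structure Pair (b : ℝ) (k : ℕ) (P S : ℝ → ℝ) where
  x : ℝ → ℝ
  x' : ℝ → ℝ
  y : ℝ → ℝ
  y' : ℝ → ℝ
  A : ℝ
  W : ℝ
  cx : Continuous x'
  cy : Continuous y'
  dx : ∀ t, HasDerivAt x (x' t) t
  dy : ∀ t, HasDerivAt y (y' t) t
  dx2 : ∀ t, t ≠ -b → t ≠ 0 → t ≠ b → HasDerivAt x' (((k : ℝ) ^ 2 + P t) * x t) t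
  dy2 : ∀ t, t ≠ -b → t ≠ 0 → t ≠ b → HasDerivAt y' (((k : ℝ) ^ 2 + S t) * y t) t
  pos : ∀ t, 0 < x t
  right : ∀ t, b ≤ t → x t = Real.exp (-(k * t))
  right' : ∀ t, b ≤ t → x' t = -k * Real.exp (-(k * t))
  eqr : ∀ t, b ≤ t → y t = x t
  eqr' : ∀ t, b ≤ t → y' t = x' t
  left : ∀ t, t ≤ -b → y t - x t = W * Real.exp (k * t)
  left' : ∀ t, t ≤ -b → y' t - x' t = k * (W * Real.exp (k * t))
  hA : 1 ≤ A
  hW : |W| ≤ A * Real.exp (2 * k * b)
  upper : ∀ t, x t ≤ A * Real.exp (-(k * t))
  bd : ∀ t, |y t - x t| ≤ A * Real.exp (-(k * t))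
  lower : ∀ t, t ≤ -b → A * Real.exp (-(k * t)) * (1 - Real.exp (2 * k * (t + b))) ≤ x t

/-- the translated potential, `1` on `[-b,0]` -/
noncomputable def Q2 (b t : ℝ) : ℝ := Q b (t + b)

theorem Q_cont {b t : ℝ} (h0 : t ≠ 0) (h1 : t ≠ b) : ContinuousAt (Q b) t := by
  by_cases h : 0 ≤ t ∧ t ≤ b
  · have h2 : 0 < t := lt_of_le_of_ne h.1 (Ne.symm h0)
    have h3 : t < b := lt_of_le_of_ne h.2 h1
    have : Q b =ᶠ[𝓝 t] fun _ => 1 := by
      filter_upwards [Ioo_mem_nhds h2 h3] with y hy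
      simp [Q, hy.1.le, hy.2.le]
    exact (continuousAt_const).congr this.symm
  · have : Q b =ᶠ[𝓝 t] fun _ => 0 := by
      rcases not_and_or.mp h with h2 | h2
      · filter_upwards [Iio_mem_nhds (lt_of_not_ge h2)] with y hy
        simp only [Q]
        rw [if_neg]
        intro hh
        exact absurd hh.1 (not_le.mpr hy)
      · filter_upwards [Ioi_mem_nhds (lt_of_not_ge h2)] with y hy
        simp only [Q]
        rw [if_neg]
        intro hh
        exact absurd hh.2 (not_le.mpr hy)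
    exact (continuousAt_const).congr this.symm

theorem Q_meas (b : ℝ) : Measurable (Q b) := by
  unfold Q
  refine Measurable.ite ?_ measurable_const measurable_const
  exact measurableSet_Icc (a := (0 : ℝ)) (b := b)

theorem Q_nonneg (b t : ℝ) : 0 ≤ Q b t := by unfold Q; split_ifs <;> norm_num
theorem Q_le (b t : ℝ) : Q b t ≤ 1 := by unfold Q; split_ifs <;> norm_num

section
variable {b : ℝ} {k : ℕ}

noncomputable def y2 (χ : ℝ → ℝ) (b : ℝ) (k : ℕ) : ℝ → ℝ := fun t =>
  Real.exp (k * b) * χ (t + b)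

theorem abs_sub_le_of_pos {p q M : ℝ} (hp : 0 < p) (hq : 0 < q) (h1 : p ≤ M) (h2 : q ≤ M) :
    |p - q| ≤ M := by
  rw [abs_le]; constructor <;> linarith

theorem shift_d {f : ℝ → ℝ} {f' t b : ℝ} (h : HasDerivAt f f' (t + b)) (c : ℝ) :
    HasDerivAt (fun t => c * f (t + b)) (c * f') t := by
  exact (h.comp_add_const t b).const_mul c

theorem y2_upper (j : Jost b k) (t : ℝ) :
    y2 j.χ b k t ≤ j.A * Real.exp (-(k * t)) := by
  unfold y2
  calc Real.exp (k * b) * j.χ (t + b) ≤ Real.exp (k * b) * (j.A * Real.exp (-(k * (t + b)))) :=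
        mul_le_mul_of_nonneg_left (j.upper _) (Real.exp_pos _).le
    _ = j.A * Real.exp (-(k * t)) := by
        rw [mul_left_comm, ← Real.exp_add]; ring_nf

theorem y2_pos (j : Jost b k) (t : ℝ) : 0 < y2 j.χ b k t := by
  unfold y2; have := j.pos (t + b); positivity

theorem diff_left (j : Jost b k) (hb : 0 < b) {t : ℝ} (ht : t ≤ -b) :
    y2 j.χ b k t - j.χ t = (j.R * (Real.exp (2 * k * b) - 1)) * Real.exp (k * t) := by
  unfold y2
  rw [j.left (t + b) (by linarith), j.left t (by linarith)]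
  have h1 : Real.exp (k * b) * Real.exp (-(k * (t + b))) = Real.exp (-(k * t)) := by
    rw [← Real.exp_add]; ring_nf
  have h2 : Real.exp (k * b) * Real.exp (k * (t + b)) = Real.exp (2 * k * b) * Real.exp (k * t) := by
    rw [← Real.exp_add, ← Real.exp_add]; ring_nf
  linear_combination j.A * h1 + j.R * h2

theorem diff_left' (j : Jost b k) (hb : 0 < b) {t : ℝ} (ht : t ≤ -b) :
    y2 j.χ' b k t - j.χ' t = k * ((j.R * (Real.exp (2 * k * b) - 1)) * Real.exp (k * t)) := by
  unfold y2
  rw [j.left' (t + b) (by linarith), j.left' t (by linarith)]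
  have h1 : Real.exp (k * b) * Real.exp (-(k * (t + b))) = Real.exp (-(k * t)) := by
    rw [← Real.exp_add]; ring_nf
  have h2 : Real.exp (k * b) * Real.exp (k * (t + b)) = Real.exp (2 * k * b) * Real.exp (k * t) := by
    rw [← Real.exp_add, ← Real.exp_add]; ring_nf
  linear_combination (-k * j.A) * h1 + (k * j.R) * h2

theorem diff_right (j : Jost b k) (hb : 0 < b) {t : ℝ} (ht : b ≤ t) :
    y2 j.χ b k t = j.χ t := by
  unfold y2
  rw [j.right (t + b) (by linarith), j.right t ht, ← Real.exp_add]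
  ring_nf

theorem diff_right' (j : Jost b k) (hb : 0 < b) {t : ℝ} (ht : b ≤ t) :
    y2 j.χ' b k t = j.χ' t := by
  unfold y2
  rw [j.right' (t + b) (by linarith), j.right' t ht]
  have h1 : Real.exp (k * b) * Real.exp (-(k * (t + b))) = Real.exp (-(k * t)) := by
    rw [← Real.exp_add]; ring_nf
  linear_combination (-k : ℝ) * h1

theorem hW0 (j : Jost b k) (hb : 0 < b) :
    |j.R * (Real.exp (2 * k * b) - 1)| ≤ j.A * Real.exp (2 * k * b) := by
  rw [abs_mul]
  have h1 : (1 : ℝ) ≤ Real.exp (2 * k * b) := Real.one_le_exp (by positivity)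
  have h0 : 0 ≤ Real.exp (2 * k * b) - 1 := by linarith
  rw [abs_of_nonneg h0]
  have h2 := j.absR
  have h3 := abs_nonneg j.R
  have h4 := j.one_le_A
  calc |j.R| * (Real.exp (2 * k * b) - 1) ≤ j.A * (Real.exp (2 * k * b) - 1) :=
        mul_le_mul_of_nonneg_right h2 h0
    _ ≤ j.A * Real.exp (2 * k * b) := by nlinarith

theorem y2_lower (j : Jost b k) {t : ℝ} (ht : t ≤ -b) :
    j.A * Real.exp (-(k * t)) * (1 - Real.exp (2 * k * (t + b))) ≤ y2 j.χ b k t := by
  unfold y2
  have h := j.lower (t + b) (by linarith)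
  have h1 : Real.exp (k * b) * Real.exp (-(k * (t + b))) = Real.exp (-(k * t)) := by
    rw [← Real.exp_add]; ring_nf
  calc j.A * Real.exp (-(k * t)) * (1 - Real.exp (2 * k * (t + b)))
      = Real.exp (k * b) * (j.A * Real.exp (-(k * (t + b))) * (1 - Real.exp (2 * k * (t + b)))) := by
        rw [← h1]; ring
    _ ≤ _ := mul_le_mul_of_nonneg_left h (Real.exp_pos _).le

theorem chi_lower (j : Jost b k) (hb : 0 < b) {t : ℝ} (ht : t ≤ -b) :
    j.A * Real.exp (-(k * t)) * (1 - Real.exp (2 * k * (t + b))) ≤ j.χ t := by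
  refine le_trans ?_ (j.lower t (by linarith))
  apply mul_le_mul_of_nonneg_left
  · have : Real.exp (2 * k * t) ≤ Real.exp (2 * k * (t + b)) := by
      apply Real.exp_le_exp.mpr
      have : (0 : ℝ) ≤ k := by positivity
      nlinarith
    linarith
  · have := j.one_le_A
    positivity

/-- the pair `Q b`, `Q2 b` -/
noncomputable def pair12 (hb : 0 < b) (hk : 1 ≤ k) : Pair b k (Q b) (Q2 b) where
  x := (jost hb hk).χ
  x' := (jost hb hk).χ'
  y := y2 (jost hb hk).χ b k
  y' := y2 (jost hb hk).χ' b k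
  A := (jost hb hk).A
  W := (jost hb hk).R * (Real.exp (2 * k * b) - 1)
  cx := (jost hb hk).cont
  cy := by
    unfold y2
    exact continuous_const.mul ((jost hb hk).cont.comp (by fun_prop))
  dx := (jost hb hk).der
  dy := fun t => shift_d ((jost hb hk).der (t + b)) _
  dx2 := fun t _ h0 h1 => (jost hb hk).der2 t h0 h1
  dy2 := fun t h0 h1 _ => by
    have := shift_d ((jost hb hk).der2 (t + b) (fun h => h0 (by linarith)) (fun h => h1 (by linarith)))
      (Real.exp (k * b))
    exact this.congr_deriv (by unfold y2 Q2; ring)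
  pos := (jost hb hk).pos
  right := (jost hb hk).right
  right' := (jost hb hk).right'
  eqr := fun t ht => diff_right _ hb ht
  eqr' := fun t ht => diff_right' _ hb ht
  left := fun t ht => diff_left _ hb ht
  left' := fun t ht => diff_left' _ hb ht
  hA := (jost hb hk).one_le_A
  hW := hW0 _ hb
  upper := (jost hb hk).upper
  bd := fun t => abs_sub_le_of_pos (y2_pos _ t) ((jost hb hk).pos t) (y2_upper _ t)
    ((jost hb hk).upper t)
  lower := fun t ht => chi_lower _ hb ht

/-- the reversed pair -/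
noncomputable def pair21 (hb : 0 < b) (hk : 1 ≤ k) : Pair b k (Q2 b) (Q b) where
  x := y2 (jost hb hk).χ b k
  x' := y2 (jost hb hk).χ' b k
  y := (jost hb hk).χ
  y' := (jost hb hk).χ'
  A := (jost hb hk).A
  W := -((jost hb hk).R * (Real.exp (2 * k * b) - 1))
  cx := (pair12 hb hk).cy
  cy := (pair12 hb hk).cx
  dx := (pair12 hb hk).dy
  dy := (pair12 hb hk).dx
  dx2 := (pair12 hb hk).dy2
  dy2 := (pair12 hb hk).dx2
  pos := fun t => y2_pos _ t
  right := fun t ht => (diff_right _ hb ht).trans ((jost hb hk).right t ht)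
  right' := fun t ht => (diff_right' _ hb ht).trans ((jost hb hk).right' t ht)
  eqr := fun t ht => (diff_right _ hb ht).symm
  eqr' := fun t ht => (diff_right' _ hb ht).symm
  left := fun t ht => by
    have := diff_left (jost hb hk) hb ht
    linarith
  left' := fun t ht => by
    have := diff_left' (jost hb hk) hb ht
    linarith
  hA := (jost hb hk).one_le_A
  hW := by rw [abs_neg]; exact hW0 _ hb
  upper := fun t => y2_upper _ t
  bd := fun t => abs_sub_le_of_pos ((jost hb hk).pos t) (y2_pos _ t) ((jost hb hk).upper t)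
    (y2_upper _ t)
  lower := fun t ht => y2_lower _ ht

end

end Pool.Agent.W738.CP
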