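import Mathlib

open MeasureTheory Set Filter Topology InnerProductSpace Laplacian
open scoped ContDiff

namespace Pool.Agent.W738.CP

/-- conformal map of the strip `ℝ × (0,π)` (coordinates `t`, `s`) onto the unit disc -/
noncomputable def Z (t s : ℝ) : ℂ :=
  (Complex.exp (t + s * Complex.I) - Complex.I) / (Complex.exp (t + s * Complex.I) + Complex.I)

/-- squared modulus of the derivative of `Z` -/
noncomputable def J (t s : ℝ) : ℝ :=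
  4 * Real.exp t ^ 2 / (Real.exp t ^ 2 + 2 * Real.exp t * Real.sin s + 1) ^ 2

/-- change of variables from the disc to the strip -/
def S_CV : Prop :=
  ∀ F : ℂ → ℂ,
    (∫ z in Metric.ball (0 : ℂ) 1, F z =
      ∫ p in (univ ×ˢ Ioo 0 Real.pi : Set (ℝ × ℝ)), (J p.1 p.2 : ℂ) * F (Z p.1 p.2)) ∧
    (IntegrableOn F (Metric.ball (0 : ℂ) 1) ↔
      IntegrableOn (fun p : ℝ × ℝ => (J p.1 p.2 : ℂ) * F (Z p.1 p.2)) (univ ×ˢ Ioo 0 Real.pi))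

/-- null sets are transported by `Z` (for a.e. statements) -/
def S_CVae : Prop :=
  ∀ P : ℂ → Prop,
    (∀ᵐ z ∂(volume.restrict (Metric.ball (0 : ℂ) 1)), P z) →
    ∀ᵐ p ∂(volume.restrict (univ ×ˢ Ioo 0 Real.pi : Set (ℝ × ℝ))), P (Z p.1 p.2)

/-- the chain rule for the Laplacian, with bounds up to the boundary -/
def S_Lap : Prop :=
  ∀ ψ : ℂ → ℝ, ContDiff ℝ ∞ ψ →
    ∃ Pt Ps Ptt Pss : ℝ → ℝ → ℝ,
      (∀ t s, 0 ≤ s → s ≤ Real.pi →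
        HasDerivAt (fun τ => ψ (Z τ s)) (Pt t s) t ∧
        HasDerivAt (fun τ => Pt τ s) (Ptt t s) t ∧
        HasDerivAt (fun σ => ψ (Z t σ)) (Ps t s) s ∧
        HasDerivAt (fun σ => Ps t σ) (Pss t s) s ∧
        Ptt t s + Pss t s = J t s * (Δ ψ) (Z t s)) ∧
      ContinuousOn (fun p : ℝ × ℝ => Pt p.1 p.2) (univ ×ˢ Icc 0 Real.pi) ∧
      ContinuousOn (fun p : ℝ × ℝ => Ps p.1 p.2) (univ ×ˢ Icc 0 Real.pi) ∧
      ContinuousOn (fun p : ℝ × ℝ => Ptt p.1 p.2) (univ ×ˢ Icc 0 Real.pi) ∧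
      ContinuousOn (fun p : ℝ × ℝ => Pss p.1 p.2) (univ ×ˢ Icc 0 Real.pi) ∧
      ∃ M : ℝ, ∀ t s, 0 ≤ s → s ≤ Real.pi →
        |ψ (Z t s)| ≤ M ∧ |Pt t s| ≤ M ∧ |Ps t s| ≤ M ∧ |Ptt t s| ≤ M ∧ |Pss t s| ≤ M

/-- separated test functions are smooth on the whole plane -/
def S_Test : Prop :=
  ∀ (k : ℕ) (η : ℝ → ℝ) (α : ℝ), ContDiff ℝ ∞ η → HasCompactSupport η → tsupport η ⊆ Ioi α →
    ∃ ψ : ℂ → ℝ, ContDiff ℝ ∞ ψ ∧
      (∀ t s : ℝ, 0 ≤ s → s ≤ Real.pi → ψ (Z t s) = η t * Real.sin (k * s)) ∧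
      (∀ z ∈ Metric.sphere (0 : ℂ) 1, ψ z = 0) ∧
      (∀ z ∈ Metric.sphere (0 : ℂ) 1, z.re ≤ Real.tanh α → ∀ᶠ y in 𝓝 z, ψ y = 0)

/-- a weak solution of `c'' = g c` with bounded measurable `g` is a `W^{2,∞}` solution -/
def S_Weak : Prop :=
  ∀ (a : ℝ) (g : ℝ → ℝ) (c : ℝ → ℂ), Measurable g → (∃ M : ℝ, ∀ t, |g t| ≤ M) →
    LocallyIntegrableOn c (Ioi a) →
    (∀ η : ℝ → ℝ, ContDiff ℝ ∞ η → HasCompactSupport η → tsupport η ⊆ Ioi a →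
      ∫ t in Ioi a, ((deriv (deriv η) t - g t * η t : ℝ) : ℂ) * c t = 0) →
    ∃ C C' : ℝ → ℂ, (∀ᵐ t ∂(volume.restrict (Ioi a)), c t = C t) ∧
      (∀ t, a < t → HasDerivAt C (C' t) t) ∧
      (∀ s t, a < s → a < t → C' t - C' s = ∫ τ in s..t, (g τ : ℂ) * C τ)

/-- completeness of the sine system on `(0,π)` -/
def S_Sine : Prop :=
  ∀ f : ℝ → ℂ, MemLp f 2 (volume.restrict (Ioo 0 Real.pi)) →
    (∀ k : ℕ, 1 ≤ k → ∫ s in Ioo 0 Real.pi, f s * (Real.sin (k * s) : ℂ) = 0) →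
    ∀ᵐ s ∂(volume.restrict (Ioo 0 Real.pi)), f s = 0

end Pool.Agent.W738.CP
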