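import Mathlib
import Pool.Agent.W738.CP.Stms
import Pool.Agent.W738.CP.Pair

open MeasureTheory Set Filter Topology

namespace Pool.Agent.W738.CP

/-- the explicit potential: `4/|1-z²|²` between the two hyperbolic circles `t = 0` and `t = b` -/
noncomputable def pot (c : ℝ) (z : ℂ) : ℝ :=
  if ‖1 - z‖ ≤ ‖1 + z‖ ∧ (1 - c) * ‖1 + z‖ ^ 2 ≤ (1 + c) * ‖1 - z‖ ^ 2 then
    4 / ‖1 - z ^ 2‖ ^ 2 else 0

noncomputable def om (t s : ℝ) : ℂ := Complex.exp (t + s * Complex.I)

theorem om_re (t s : ℝ) : (om t s).re = Real.exp t * Real.cos s := by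
  simp [om, Complex.exp_re]
theorem om_im (t s : ℝ) : (om t s).im = Real.exp t * Real.sin s := by
  simp [om, Complex.exp_im]
theorem om_norm (t s : ℝ) : ‖om t s‖ = Real.exp t := by
  simp [om, Complex.norm_exp]

noncomputable def D (t s : ℝ) : ℝ := Real.exp t ^ 2 + 2 * Real.exp t * Real.sin s + 1

theorem om_add_sq (t s : ℝ) : ‖om t s + Complex.I‖ ^ 2 = D t s := by
  rw [← Complex.normSq_eq_norm_sq, Complex.normSq_apply]
  simp only [Complex.add_re, Complex.add_im, Complex.I_re, Complex.I_im, om_re, om_im, D]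
  have := Real.sin_sq_add_cos_sq s
  linear_combination (Real.exp t ^ 2) * this

theorem om_sub_sq (t s : ℝ) : ‖om t s - Complex.I‖ ^ 2 = D t (-s) := by
  rw [← Complex.normSq_eq_norm_sq, Complex.normSq_apply]
  simp only [Complex.sub_re, Complex.sub_im, Complex.I_re, Complex.I_im, om_re, om_im, D,
    Real.sin_neg]
  have := Real.sin_sq_add_cos_sq s
  linear_combination (Real.exp t ^ 2) * this

theorem D_ge {t s : ℝ} (h0 : 0 ≤ s) (h1 : s ≤ Real.pi) : Real.exp t ^ 2 + 1 ≤ D t s := by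
  have := Real.sin_nonneg_of_nonneg_of_le_pi h0 h1
  have h2 := Real.exp_pos t
  unfold D
  nlinarith [mul_nonneg h2.le this]

theorem D_pos {t s : ℝ} (h0 : 0 ≤ s) (h1 : s ≤ Real.pi) : 0 < D t s :=
  lt_of_lt_of_le (by positivity) (D_ge h0 h1)

theorem D_le (t s : ℝ) : D t s ≤ (Real.exp t + 1) ^ 2 := by
  have := Real.sin_le_one s
  have h2 := Real.exp_pos t
  unfold D
  nlinarith

theorem om_add_ne {t s : ℝ} (h0 : 0 ≤ s) (h1 : s ≤ Real.pi) : om t s + Complex.I ≠ 0 := by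
  intro h
  have h2 := om_add_sq t s
  rw [h, norm_zero] at h2
  have := D_pos (t := t) h0 h1
  norm_num at h2
  linarith

theorem J_eq (t s : ℝ) : J t s = 4 * Real.exp t ^ 2 / D t s ^ 2 := rfl

theorem J_pos {t s : ℝ} (h0 : 0 ≤ s) (h1 : s ≤ Real.pi) : 0 < J t s := by
  rw [J_eq]
  have := D_pos (t := t) h0 h1
  positivity

theorem J_nonneg (t s : ℝ) : 0 ≤ J t s := by
  rw [J_eq]; positivity

theorem J_cont {t s : ℝ} (h0 : 0 ≤ s) (h1 : s ≤ Real.pi) :
    ContinuousAt (fun p : ℝ × ℝ => J p.1 p.2) (t, s) := by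
  unfold J
  have : (Real.exp t ^ 2 + 2 * Real.exp t * Real.sin s + 1) ^ 2 ≠ 0 :=
    pow_ne_zero _ (D_pos (t := t) h0 h1).ne'
  refine ContinuousAt.div (by fun_prop) (by fun_prop) this

theorem J_le {t s : ℝ} (h0 : 0 ≤ s) (h1 : s ≤ Real.pi) : J t s ≤ 1 := by
  rw [J_eq]
  have h := D_ge (t := t) h0 h1
  have h2 := D_pos (t := t) h0 h1
  rw [div_le_one (by positivity)]
  have h3 : 2 * Real.exp t ≤ Real.exp t ^ 2 + 1 := by nlinarith [sq_nonneg (Real.exp t - 1)]
  have h4 := Real.exp_pos t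
  nlinarith

theorem J_ge (t s : ℝ) (h0 : 0 ≤ s) (h1 : s ≤ Real.pi) :
    4 * Real.exp t ^ 2 / (Real.exp t + 1) ^ 4 ≤ J t s := by
  rw [J_eq]
  have h := D_le t s
  have h2 := D_pos (t := t) h0 h1
  apply div_le_div_of_nonneg_left (by positivity) (by positivity)
  have : (Real.exp t + 1) ^ 4 = ((Real.exp t + 1) ^ 2) ^ 2 := by ring
  rw [this]
  exact pow_le_pow_left₀ h2.le h 2

theorem J_ge_right {t s : ℝ} (ht : 0 ≤ t) (h0 : 0 ≤ s) (h1 : s ≤ Real.pi) :
    Real.exp (-(2 * t)) / 4 ≤ J t s := by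
  refine le_trans ?_ (J_ge t s h0 h1)
  have h2 : 1 ≤ Real.exp t := Real.one_le_exp ht
  have h3 : Real.exp (-(2 * t)) * Real.exp t ^ 2 = 1 := by
    rw [← Real.exp_nat_mul, ← Real.exp_add]; simp
  rw [div_le_div_iff₀ (by norm_num) (by positivity)]
  have h4 : (Real.exp t + 1) ^ 4 ≤ 16 * Real.exp t ^ 4 := by
    have : Real.exp t + 1 ≤ 2 * Real.exp t := by linarith
    calc (Real.exp t + 1) ^ 4 ≤ (2 * Real.exp t) ^ 4 := pow_le_pow_left₀ (by positivity) this 4
      _ = _ := by ring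
  calc Real.exp (-(2 * t)) * (Real.exp t + 1) ^ 4 ≤ Real.exp (-(2 * t)) * (16 * Real.exp t ^ 4) :=
        mul_le_mul_of_nonneg_left h4 (Real.exp_pos _).le
    _ = 4 * Real.exp t ^ 2 * 4 * (Real.exp (-(2 * t)) * Real.exp t ^ 2) := by ring
    _ = 4 * Real.exp t ^ 2 * 4 := by rw [h3, mul_one]

theorem J_ge_box {T t s : ℝ} (ht : |t| ≤ T) (h0 : 0 ≤ s) (h1 : s ≤ Real.pi) :
    4 * Real.exp (-T) ^ 2 / (Real.exp T + 1) ^ 4 ≤ J t s := by
  refine le_trans ?_ (J_ge t s h0 h1)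
  have h2 := abs_le.mp ht
  have h3 : Real.exp (-T) ≤ Real.exp t := Real.exp_le_exp.mpr h2.1
  have h4 : Real.exp t ≤ Real.exp T := Real.exp_le_exp.mpr h2.2
  apply div_le_div₀ (by positivity)
  · have := pow_le_pow_left₀ (Real.exp_pos _).le h3 2
    linarith
  · positivity
  · exact pow_le_pow_left₀ (by positivity) (by linarith) 4

theorem one_add_Z {t s : ℝ} (h0 : 0 ≤ s) (h1 : s ≤ Real.pi) :
    1 + Z t s = 2 * om t s / (om t s + Complex.I) := by
  have := om_add_ne (t := t) h0 h1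
  unfold Z
  change 1 + (om t s - Complex.I) / (om t s + Complex.I) = _
  field_simp
  ring

theorem one_sub_Z {t s : ℝ} (h0 : 0 ≤ s) (h1 : s ≤ Real.pi) :
    1 - Z t s = 2 * Complex.I / (om t s + Complex.I) := by
  have := om_add_ne (t := t) h0 h1
  unfold Z
  change 1 - (om t s - Complex.I) / (om t s + Complex.I) = _
  field_simp
  ring

theorem sq_one_add_Z {t s : ℝ} (h0 : 0 ≤ s) (h1 : s ≤ Real.pi) :
    ‖1 + Z t s‖ ^ 2 = 4 * Real.exp t ^ 2 / D t s := by
  rw [one_add_Z h0 h1, norm_div, div_pow, om_add_sq, norm_mul, om_norm, mul_pow]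
  norm_num

theorem sq_one_sub_Z {t s : ℝ} (h0 : 0 ≤ s) (h1 : s ≤ Real.pi) :
    ‖1 - Z t s‖ ^ 2 = 4 / D t s := by
  rw [one_sub_Z h0 h1, norm_div, div_pow, om_add_sq, norm_mul, Complex.norm_I, mul_pow]
  norm_num

theorem pot_weight {t s : ℝ} (h0 : 0 ≤ s) (h1 : s ≤ Real.pi) :
    J t s * (4 / ‖1 - Z t s ^ 2‖ ^ 2) = 1 := by
  have h2 : ‖1 - Z t s ^ 2‖ ^ 2 = ‖1 - Z t s‖ ^ 2 * ‖1 + Z t s‖ ^ 2 := by
    rw [← mul_pow, ← norm_mul]; ring_nf
  rw [h2, sq_one_add_Z h0 h1, sq_one_sub_Z h0 h1, J_eq]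
  have h3 := (D_pos (t := t) h0 h1).ne'
  have h4 := (Real.exp_pos t).ne'
  field_simp

theorem le_iff_sq {x y : ℝ} (hx : 0 ≤ x) (hy : 0 ≤ y) : x ≤ y ↔ x ^ 2 ≤ y ^ 2 :=
  (pow_le_pow_iff_left₀ hx hy two_ne_zero).symm

theorem exp_two (b : ℝ) : Real.exp b ^ 2 = Real.exp (2 * b) := by
  rw [← Real.exp_nat_mul]; norm_num

theorem tanh_rel (b : ℝ) : 1 + Real.tanh b = Real.exp (2 * b) * (1 - Real.tanh b) := by
  have h := Real.tanh_eq_sinh_div_cosh b
  have hc := (Real.cosh_pos b).ne'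
  rw [h]
  field_simp
  rw [Real.cosh_add_sinh, Real.cosh_sub_sinh, ← Real.exp_add]
  ring_nf

theorem pot_one {b t s : ℝ} (h0 : 0 ≤ s) (h1 : s ≤ Real.pi) :
    J t s * pot (Real.tanh b) (Z t s) = Q b t := by
  have hD := D_pos (t := t) h0 h1
  have hc : 0 < 1 - Real.tanh b := by linarith [Real.tanh_lt_one b]
  have e1 : ‖1 - Z t s‖ ≤ ‖1 + Z t s‖ ↔ 0 ≤ t := by
    rw [le_iff_sq (norm_nonneg _) (norm_nonneg _), sq_one_add_Z h0 h1, sq_one_sub_Z h0 h1,
      div_le_div_iff_of_pos_right hD, exp_two]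
    constructor
    · intro h
      have : 1 ≤ Real.exp (2 * t) := by linarith
      have := Real.one_le_exp_iff.mp this
      linarith
    · intro h
      have : 1 ≤ Real.exp (2 * t) := Real.one_le_exp (by linarith)
      linarith
  have e2 : (1 - Real.tanh b) * ‖1 + Z t s‖ ^ 2 ≤ (1 + Real.tanh b) * ‖1 - Z t s‖ ^ 2 ↔ t ≤ b := by
    rw [sq_one_add_Z h0 h1, sq_one_sub_Z h0 h1, tanh_rel, exp_two]
    have e3 : (1 - Real.tanh b) * (4 * Real.exp (2 * t) / D t s) =
      (4 * (1 - Real.tanh b) / D t s) * Real.exp (2 * t) := by ring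
    have e4 : Real.exp (2 * b) * (1 - Real.tanh b) * (4 / D t s) =
      (4 * (1 - Real.tanh b) / D t s) * Real.exp (2 * b) := by ring
    rw [e3, e4, mul_le_mul_iff_right₀ (by positivity), Real.exp_le_exp]
    constructor <;> intro h <;> linarith
  unfold pot Q
  simp only [e1, e2]
  by_cases h : 0 ≤ t ∧ t ≤ b
  · rw [if_pos h, if_pos h]
    exact pot_weight h0 h1
  · rw [if_neg h, if_neg h, mul_zero]

theorem pot_two {b t s : ℝ} (h0 : 0 ≤ s) (h1 : s ≤ Real.pi) :
    J t s * pot (Real.tanh b) (-Z t s) = Q2 b t := by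
  have hD := D_pos (t := t) h0 h1
  have hc : 0 < 1 - Real.tanh b := by linarith [Real.tanh_lt_one b]
  have r1 : 1 - -Z t s = 1 + Z t s := by ring
  have r2 : 1 + -Z t s = 1 - Z t s := by ring
  have r3 : 1 - (-Z t s) ^ 2 = 1 - Z t s ^ 2 := by ring
  have e1 : ‖1 + Z t s‖ ≤ ‖1 - Z t s‖ ↔ t ≤ 0 := by
    rw [le_iff_sq (norm_nonneg _) (norm_nonneg _), sq_one_add_Z h0 h1, sq_one_sub_Z h0 h1,
      div_le_div_iff_of_pos_right hD, exp_two]
    constructor
    · intro h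
      have : Real.exp (2 * t) ≤ 1 := by linarith
      have := Real.exp_le_one_iff.mp this
      linarith
    · intro h
      have : Real.exp (2 * t) ≤ 1 := Real.exp_le_one_iff.mpr (by linarith)
      linarith
  have e2 : (1 - Real.tanh b) * ‖1 - Z t s‖ ^ 2 ≤ (1 + Real.tanh b) * ‖1 + Z t s‖ ^ 2 ↔ -b ≤ t := by
    rw [sq_one_add_Z h0 h1, sq_one_sub_Z h0 h1, tanh_rel, exp_two]
    have e3 : (1 - Real.tanh b) * (4 / D t s) =
      (4 * (1 - Real.tanh b) / D t s) * Real.exp 0 := by rw [Real.exp_zero]; ring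
    have e4 : Real.exp (2 * b) * (1 - Real.tanh b) * (4 * Real.exp (2 * t) / D t s) =
      (4 * (1 - Real.tanh b) / D t s) * Real.exp (2 * b + 2 * t) := by rw [Real.exp_add]; ring
    rw [e3, e4, mul_le_mul_iff_right₀ (by positivity), Real.exp_le_exp]
    constructor <;> intro h <;> linarith
  unfold pot Q2 Q
  simp only [r1, r2, r3, e1, e2]
  by_cases h : t ≤ 0 ∧ -b ≤ t
  · rw [if_pos h, if_pos ⟨by linarith [h.2], by linarith [h.1]⟩]
    exact pot_weight h0 h1
  · rw [if_neg h, if_neg, mul_zero]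
    intro h'
    exact h ⟨by linarith [h'.2], by linarith [h'.1]⟩

/-- the horizontal boundary lines are mapped to the unit circle -/
theorem Z_bd {t s : ℝ} (hs : Real.sin s = 0) (h0 : 0 ≤ s) (h1 : s ≤ Real.pi) :
    ‖Z t s‖ = 1 ∧ (Z t s).re = Real.tanh t := by
  have hne := om_add_ne (t := t) h0 h1
  have h2 : ‖om t s + Complex.I‖ ^ 2 = Real.exp t ^ 2 + 1 := by rw [om_add_sq, D, hs]; ring
  have h3 : ‖om t s - Complex.I‖ ^ 2 = Real.exp t ^ 2 + 1 := by
    rw [om_sub_sq, D, Real.sin_neg, hs]; ring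
  have h4 : ‖om t s - Complex.I‖ = ‖om t s + Complex.I‖ := by
    have := h3.trans h2.symm
    exact (pow_left_inj₀ (norm_nonneg _) (norm_nonneg _) two_ne_zero).mp this
  constructor
  · change ‖(om t s - Complex.I) / (om t s + Complex.I)‖ = 1
    rw [norm_div, h4]
    exact div_self (norm_ne_zero_iff.mpr hne)
  · -- ‖1+Z‖² = 2 + 2 re Z
    have h5 : ‖Z t s‖ = 1 := by
      change ‖(om t s - Complex.I) / (om t s + Complex.I)‖ = 1
      rw [norm_div, h4]
      exact div_self (norm_ne_zero_iff.mpr hne)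
    have h6 := sq_one_add_Z (t := t) h0 h1
    have h7 : ‖1 + Z t s‖ ^ 2 = 2 + 2 * (Z t s).re := by
      have h8 : ‖Z t s‖ ^ 2 = 1 := by rw [h5]; norm_num
      rw [← Complex.normSq_eq_norm_sq, Complex.normSq_apply] at h8 ⊢
      simp only [Complex.add_re, Complex.add_im, Complex.one_re, Complex.one_im]
      linarith
    rw [h7] at h6
    have h9 : D t s = Real.exp t ^ 2 + 1 := by rw [D, hs]; ring
    rw [h9, exp_two] at h6
    have h10 := tanh_rel t
    have h11 : (Z t s).re * (Real.exp (2 * t) + 1) = Real.exp (2 * t) - 1 := by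
      have : Real.exp (2 * t) + 1 ≠ 0 := by positivity
      field_simp at h6
      linarith
    have h12 : Real.tanh t * (Real.exp (2 * t) + 1) = Real.exp (2 * t) - 1 := by linarith
    have : Real.exp (2 * t) + 1 ≠ 0 := by positivity
    exact mul_right_cancel₀ this (h11.trans h12.symm)

/-- inverse coordinates -/
noncomputable def zt (z : ℂ) : ℝ := (Complex.log (Complex.I * (1 + z) / (1 - z))).re
noncomputable def zs (z : ℂ) : ℝ := (Complex.log (Complex.I * (1 + z) / (1 - z))).im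

theorem zt_meas : Measurable zt := by
  unfold zt
  exact Complex.measurable_re.comp (Complex.measurable_log.comp (by fun_prop))

theorem zs_meas : Measurable zs := by
  unfold zs
  exact Complex.measurable_im.comp (Complex.measurable_log.comp (by fun_prop))

theorem inv_coord {t s : ℝ} (h0 : 0 < s) (h1 : s < Real.pi) :
    zt (Z t s) = t ∧ zs (Z t s) = s := by
  have h2 : Complex.I * (1 + Z t s) / (1 - Z t s) = om t s := by
    rw [one_add_Z h0.le h1.le, one_sub_Z h0.le h1.le]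
    have := om_add_ne (t := t) h0.le h1.le
    field_simp
  have h3 : Complex.log (om t s) = t + s * Complex.I := by
    unfold om
    apply Complex.log_exp
    · simp; linarith
    · simp; linarith
  unfold zt zs
  rw [h2, h3]
  simp

theorem Z_meas : Measurable (fun p : ℝ × ℝ => Z p.1 p.2) := by
  unfold Z
  fun_prop

theorem J_meas : Measurable (fun p : ℝ × ℝ => J p.1 p.2) := by
  unfold J
  fun_prop

end Pool.Agent.W738.CP
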