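import Mathlib
import Pool.Agent.W738.CP.Geo

open MeasureTheory Set Filter Topology InnerProductSpace Laplacian
open scoped ContDiff

namespace Pool.Agent.W738.CP

/-- outer normal derivative on the unit circle -/
noncomputable def normalDeriv (φ : ℂ → ℝ) (z : ℂ) : ℝ := fderiv ℝ φ z z

/-- the Green pairing `∫_Ω u (Δφ - qφ)` over the unit disc -/
noncomputable def green (q : ℂ → ℝ) (u : ℂ → ℂ) (φ : ℂ → ℝ) : ℂ :=
  ∫ z in Metric.ball (0 : ℂ) 1, (((Δ φ) z - q z * φ z : ℝ) : ℂ) * u z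

/-- the strip -/
def St : Set (ℝ × ℝ) := univ ×ˢ Ioo 0 Real.pi

theorem prod_restr (A B : Set ℝ) : (volume.restrict (A ×ˢ B) : Measure (ℝ × ℝ)) =
    (volume.restrict A).prod (volume.restrict B) := by
  rw [Measure.volume_eq_prod, Measure.prod_restrict]

section
variable {u : ℂ → ℂ} (hu : MemLp u 2 (volume.restrict (Metric.ball (0 : ℂ) 1)))

include hu

theorem U_meas (hAE : S_CVae) :
    AEStronglyMeasurable (fun p : ℝ × ℝ => u (Z p.1 p.2)) (volume.restrict St) := by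
  obtain ⟨g, hg, hug⟩ := hu.aestronglyMeasurable
  refine ⟨fun p => g (Z p.1 p.2), hg.comp_measurable Z_meas, ?_⟩
  exact hAE (fun z => u z = g z) hug

theorem U_int (hCV : S_CV) :
    IntegrableOn (fun p : ℝ × ℝ => J p.1 p.2 * ‖u (Z p.1 p.2)‖ ^ 2) St := by
  have h1 : Integrable (fun z => ‖u z‖ ^ 2) (volume.restrict (Metric.ball (0 : ℂ) 1)) :=
    (memLp_two_iff_integrable_sq_norm hu.aestronglyMeasurable).mp hu
  have h2 : IntegrableOn (fun z => ((‖u z‖ ^ 2 : ℝ) : ℂ)) (Metric.ball (0 : ℂ) 1) := h1.ofReal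
  have h3 := (hCV _).2.mp h2
  have h4 : Integrable (fun p : ℝ × ℝ => ((J p.1 p.2 * ‖u (Z p.1 p.2)‖ ^ 2 : ℝ) : ℂ))
      (volume.restrict St) := by
    refine Integrable.congr h3 (Eventually.of_forall fun p => ?_)
    push_cast; ring
  have h5 := h4.re
  exact h5.congr (Eventually.of_forall fun p => by simp only [RCLike.re_to_complex, Complex.ofReal_re])

theorem U_box (hCV : S_CV) (hAE : S_CVae) (T : ℝ) :
    IntegrableOn (fun p : ℝ × ℝ => ‖u (Z p.1 p.2)‖ ^ 2) (Icc (-T) T ×ˢ Ioo 0 Real.pi) := by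
  have hsub : (Icc (-T) T ×ˢ Ioo 0 Real.pi : Set (ℝ × ℝ)) ⊆ St :=
    prod_mono (subset_univ _) le_rfl
  set j0 := 4 * Real.exp (-T) ^ 2 / (Real.exp T + 1) ^ 4 with hj0
  have hj : 0 < j0 := by positivity
  have h1 := (U_int hu hCV).mono_set hsub
  have h2 := h1.const_mul (1 / j0)
  refine Integrable.mono' h2 (((U_meas hu hAE).mono_set hsub).norm.pow 2) ?_
  filter_upwards [ae_restrict_mem (measurableSet_Icc.prod measurableSet_Ioo)] with p hp
  rw [Real.norm_eq_abs, abs_of_nonneg (by positivity)]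
  have h3 : j0 ≤ J p.1 p.2 := J_ge_box (abs_le.mpr hp.1) hp.2.1.le hp.2.2.le
  have h4 : 0 ≤ ‖u (Z p.1 p.2)‖ ^ 2 := by positivity
  rw [div_mul_eq_mul_div, one_mul, le_div_iff₀ hj]
  nlinarith

theorem U_box1 (hCV : S_CV) (hAE : S_CVae) (T : ℝ) :
    IntegrableOn (fun p : ℝ × ℝ => u (Z p.1 p.2)) (Icc (-T) T ×ˢ Ioo 0 Real.pi) := by
  have hsub : (Icc (-T) T ×ˢ Ioo 0 Real.pi : Set (ℝ × ℝ)) ⊆ St :=
    prod_mono (subset_univ _) le_rfl
  have h1 := U_box hu hCV hAE T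
  have h2 : IntegrableOn (fun _ : ℝ × ℝ => (1 : ℝ)) (Icc (-T) T ×ˢ Ioo 0 Real.pi) := by
    rw [IntegrableOn, prod_restr]
    have : IsFiniteMeasure (volume.restrict (Icc (-T) T)) := ⟨by
      rw [Measure.restrict_apply_univ, Real.volume_Icc]; exact ENNReal.ofReal_lt_top⟩
    have : IsFiniteMeasure (volume.restrict (Ioo 0 Real.pi)) := ⟨by
      rw [Measure.restrict_apply_univ, Real.volume_Ioo]; exact ENNReal.ofReal_lt_top⟩
    exact integrable_const _
  refine Integrable.mono' (h1.add h2) ((U_meas hu hAE).mono_set hsub) ?_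
  refine Eventually.of_forall fun p => ?_
  simp only [Pi.add_apply]
  nlinarith [sq_nonneg (‖u (Z p.1 p.2)‖ - 1)]

end

/-- sine coefficients -/
noncomputable def ck (u : ℂ → ℂ) (k : ℕ) (t : ℝ) : ℂ :=
  ∫ s in Ioo 0 Real.pi, u (Z t s) * (Real.sin (k * s) : ℂ)

theorem sin_bdd_int {A : Set ℝ} {F : ℝ × ℝ → ℂ} (k : ℕ)
    (hF : IntegrableOn F (A ×ˢ Ioo 0 Real.pi)) :
    IntegrableOn (fun p : ℝ × ℝ => F p * (Real.sin (k * p.2) : ℂ)) (A ×ˢ Ioo 0 Real.pi) := by
  refine Integrable.mul_bdd (c := 1) hF ?_ ?_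
  · exact (by fun_prop : Measurable fun p : ℝ × ℝ => (Real.sin (k * p.2) : ℂ)).aestronglyMeasurable
  · refine Eventually.of_forall fun p => ?_
    rw [Complex.norm_real, Real.norm_eq_abs]
    exact Real.abs_sin_le_one _

section
variable {u : ℂ → ℂ} (hu : MemLp u 2 (volume.restrict (Metric.ball (0 : ℂ) 1)))
include hu

theorem ck_int (hCV : S_CV) (hAE : S_CVae) (T : ℝ) (k : ℕ) :
    IntegrableOn (ck u k) (Icc (-T) T) := by
  have h := sin_bdd_int k (U_box1 hu hCV hAE T)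
  rw [IntegrableOn, prod_restr] at h
  exact h.integral_prod_left

theorem ck_loc (hCV : S_CV) (hAE : S_CVae) (a : ℝ) (k : ℕ) :
    LocallyIntegrableOn (ck u k) (Ioi a) := by
  intro x _
  refine ⟨Icc (-(|x| + 1)) (|x| + 1), ?_, ck_int hu hCV hAE _ k⟩
  apply mem_nhdsWithin_of_mem_nhds
  apply Icc_mem_nhds
  · have := neg_abs_le x; linarith
  · have := le_abs_self x; linarith

end

theorem lap_test (hLap : S_Lap) {k : ℕ} {η : ℝ → ℝ} (hη : ContDiff ℝ ∞ η) {ψ : ℂ → ℝ}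
    (hψ : ContDiff ℝ ∞ ψ)
    (h : ∀ t s : ℝ, 0 ≤ s → s ≤ Real.pi → ψ (Z t s) = η t * Real.sin (k * s))
    {t s : ℝ} (h0 : 0 < s) (h1 : s < Real.pi) :
    J t s * (Δ ψ) (Z t s) = (deriv (deriv η) t - (k : ℝ) ^ 2 * η t) * Real.sin (k * s) := by
  obtain ⟨Pt, Ps, Ptt, Pss, hd, -⟩ := hLap ψ hψ
  have hη1 : ∀ τ, HasDerivAt η (deriv η τ) τ := fun τ =>
    (hη.differentiable (by simp)).differentiableAt.hasDerivAt
  have hη2 : ∀ τ, HasDerivAt (deriv η) (deriv (deriv η) τ) τ := by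
    intro τ
    have : ContDiff ℝ 1 (deriv η) := by
      have h2 : ContDiff ℝ 2 η := by exact_mod_cast contDiff_infty.mp hη 2
      exact ((contDiff_succ_iff_deriv (n := 1)).mp h2).2.2
    exact (this.differentiable one_ne_zero).differentiableAt.hasDerivAt
  have e1 : ∀ τ, Pt τ s = deriv η τ * Real.sin (k * s) := by
    intro τ
    have a1 := (hd τ s h0.le h1.le).1
    have a2 : (fun τ => ψ (Z τ s)) = fun τ => η τ * Real.sin (k * s) := by
      ext τ; exact h τ s h0.le h1.le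
    rw [a2] at a1
    exact a1.unique ((hη1 τ).mul_const _)
  have e2 : Ptt t s = deriv (deriv η) t * Real.sin (k * s) := by
    have a1 := (hd t s h0.le h1.le).2.1
    have a2 : (fun τ => Pt τ s) = fun τ => deriv η τ * Real.sin (k * s) := by
      ext τ; exact e1 τ
    rw [a2] at a1
    exact a1.unique ((hη2 t).mul_const _)
  have hsin : ∀ σ : ℝ, HasDerivAt (fun σ : ℝ => Real.sin (k * σ)) (k * Real.cos (k * σ)) σ := by
    intro σ
    have := ((hasDerivAt_id σ).const_mul (k : ℝ)).sin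
    simp only [id, mul_one] at this
    exact this.congr_deriv (by ring)
  have hcos : ∀ σ : ℝ, HasDerivAt (fun σ : ℝ => Real.cos (k * σ)) (-(k * Real.sin (k * σ))) σ := by
    intro σ
    have := ((hasDerivAt_id σ).const_mul (k : ℝ)).cos
    simp only [id, mul_one] at this
    exact this.congr_deriv (by ring)
  have e3 : ∀ σ, 0 < σ → σ < Real.pi → Ps t σ = η t * (k * Real.cos (k * σ)) := by
    intro σ g0 g1
    have a1 := (hd t σ g0.le g1.le).2.2.1
    have a2 : (fun σ => ψ (Z t σ)) =ᶠ[𝓝 σ] fun σ => η t * Real.sin (k * σ) := by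
      filter_upwards [Ioo_mem_nhds g0 g1] with y hy
      exact h t y hy.1.le hy.2.le
    exact (a1.congr_of_eventuallyEq a2.symm).unique ((hsin σ).const_mul _)
  have e4 : Pss t s = η t * (k * -(k * Real.sin (k * s))) := by
    have a1 := (hd t s h0.le h1.le).2.2.2.1
    have a2 : (fun σ => Ps t σ) =ᶠ[𝓝 s] fun σ => η t * (k * Real.cos (k * σ)) := by
      filter_upwards [Ioo_mem_nhds h0 h1] with y hy
      exact e3 y hy.1 hy.2
    exact (a1.congr_of_eventuallyEq a2.symm).unique (((hcos s).const_mul _).const_mul _)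
  have e5 := (hd t s h0.le h1.le).2.2.2.2
  rw [← e5, e2, e4]
  ring

theorem weak_id (hCV : S_CV) (hAE : S_CVae) (hLap : S_Lap) (hTest : S_Test)
    {q : ℂ → ℝ} {P : ℝ → ℝ} (hq : ∀ t s, 0 ≤ s → s ≤ Real.pi → J t s * q (Z t s) = P t)
    (hPm : Measurable P) (hPb : ∀ t, |P t| ≤ 1)
    {u : ℂ → ℂ} (hu : MemLp u 2 (volume.restrict (Metric.ball (0 : ℂ) 1)))
    {K : Set ℂ} {a0 : ℝ} (hK : ∀ z ∈ K, z ∈ Metric.sphere (0 : ℂ) 1 ∧ z.re ≤ Real.tanh a0)
    (hweak : ∀ φ : ℂ → ℝ, ContDiff ℝ ∞ φ → (∀ z ∈ Metric.sphere (0 : ℂ) 1, φ z = 0) →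
      (∀ z ∈ K, ∀ᶠ y in 𝓝[Metric.sphere (0 : ℂ) 1] z, normalDeriv φ y = 0) → green q u φ = 0)
    (k : ℕ) (η : ℝ → ℝ) (h1 : ContDiff ℝ ∞ η) (h2 : HasCompactSupport η)
    (h3 : tsupport η ⊆ Ioi a0) :
    ∫ t in Ioi a0, ((deriv (deriv η) t - ((k : ℝ) ^ 2 + P t) * η t : ℝ) : ℂ) * ck u k t = 0 := by
  obtain ⟨ψ, hψ, hψ1, hψ2, hψ3⟩ := hTest k η a0 h1 h2 h3
  have hg : green q u ψ = 0 := by
    refine hweak ψ hψ hψ2 ?_
    intro z hz
    apply Filter.Eventually.filter_mono nhdsWithin_le_nhds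
    have := (hψ3 z (hK z hz).1 (hK z hz).2).eventually_nhds
    filter_upwards [this] with y hy
    have h4 : ψ =ᶠ[𝓝 y] fun _ => 0 := hy
    rw [normalDeriv, h4.fderiv_eq]
    simp
  set E : ℝ → ℝ := fun t => deriv (deriv η) t - ((k : ℝ) ^ 2 + P t) * η t with hE
  -- support of E
  have hsupp : ∀ t, t ∉ tsupport η → E t = 0 := by
    intro t ht
    have h5 : η =ᶠ[𝓝 t] fun _ => 0 := notMem_tsupport_iff_eventuallyEq.mp ht
    have h6 : deriv η =ᶠ[𝓝 t] fun _ => 0 := by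
      filter_upwards [h5.eventually_nhds] with y hy
      have : η =ᶠ[𝓝 y] fun _ => 0 := hy
      rw [this.deriv_eq]; simp
    simp only [hE, h6.deriv_eq, h5.self_of_nhds]
    simp
  obtain ⟨T, hT⟩ : ∃ T : ℝ, tsupport η ⊆ Icc (-T) T := by
    obtain ⟨T, hT⟩ := h2.isCompact.isBounded.subset_closedBall 0
    refine ⟨T, fun x hx => ?_⟩
    have := hT hx
    rw [Metric.mem_closedBall, dist_zero_right, Real.norm_eq_abs] at this
    exact abs_le.mp this
  have hc2 : Continuous (deriv (deriv η)) := by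
    have h2' : ContDiff ℝ 2 η := by exact_mod_cast contDiff_infty.mp h1 2
    have h3' : ContDiff ℝ 1 (deriv η) := ((contDiff_succ_iff_deriv (n := 1)).mp h2').2.2
    exact h3'.continuous_deriv le_rfl
  have hEm : Measurable E := by
    simp only [hE]
    exact hc2.measurable.sub ((measurable_const.add hPm).mul h1.continuous.measurable)
  obtain ⟨M, hM⟩ : ∃ M : ℝ, ∀ t, |E t| ≤ M := by
    obtain ⟨M1, hM1⟩ := (isCompact_Icc (a := -T) (b := T)).exists_bound_of_continuousOn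
      hc2.continuousOn
    obtain ⟨M2, hM2⟩ := (isCompact_Icc (a := -T) (b := T)).exists_bound_of_continuousOn
      h1.continuous.continuousOn
    refine ⟨|M1| + ((k : ℝ) ^ 2 + 1) * |M2|, fun t => ?_⟩
    by_cases ht : t ∈ tsupport η
    · have a1 := hM1 t (hT ht)
      have a2 := hM2 t (hT ht)
      rw [Real.norm_eq_abs] at a1 a2
      have a3 : |(k : ℝ) ^ 2 + P t| ≤ (k : ℝ) ^ 2 + 1 := by
        refine (abs_add_le _ _).trans ?_
        rw [abs_of_nonneg (by positivity : (0 : ℝ) ≤ (k : ℝ) ^ 2)]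
        linarith [hPb t]
      calc |E t| ≤ |deriv (deriv η) t| + |((k : ℝ) ^ 2 + P t) * η t| := abs_sub _ _
        _ ≤ |M1| + ((k : ℝ) ^ 2 + 1) * |M2| := by
            rw [abs_mul]
            apply add_le_add (a1.trans (le_abs_self _))
            exact mul_le_mul a3 (a2.trans (le_abs_self _)) (abs_nonneg _) (by positivity)
    · rw [hsupp t ht, abs_zero]; positivity
  -- transport to the strip
  have key : green q u ψ = ∫ p in St, (E p.1 : ℂ) * (u (Z p.1 p.2) * (Real.sin (k * p.2) : ℂ)) := by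
    unfold green
    rw [(hCV _).1]
    apply setIntegral_congr_fun (MeasurableSet.univ.prod measurableSet_Ioo)
    intro p hp
    have b0 := hp.2.1
    have b1 := hp.2.2
    have c1 := lap_test hLap h1 hψ hψ1 (t := p.1) b0 b1
    have c2 := hq p.1 p.2 b0.le b1.le
    have c3 := hψ1 p.1 p.2 b0.le b1.le
    have c4 : J p.1 p.2 * ((Δ ψ) (Z p.1 p.2) - q (Z p.1 p.2) * ψ (Z p.1 p.2)) =
        E p.1 * Real.sin (k * p.2) := by
      rw [mul_sub, c1, ← mul_assoc, c2, c3, hE]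
      ring
    calc (J p.1 p.2 : ℂ) * ((((Δ ψ) (Z p.1 p.2) - q (Z p.1 p.2) * ψ (Z p.1 p.2) : ℝ) : ℂ) *
          u (Z p.1 p.2)) = ((J p.1 p.2 * ((Δ ψ) (Z p.1 p.2) - q (Z p.1 p.2) * ψ (Z p.1 p.2)) : ℝ) : ℂ) *
          u (Z p.1 p.2) := by push_cast; ring
      _ = _ := by rw [c4]; push_cast; ring
  have hint : IntegrableOn (fun p : ℝ × ℝ => (E p.1 : ℂ) * (u (Z p.1 p.2) * (Real.sin (k * p.2) : ℂ)))
      St := by
    have h5 := sin_bdd_int k (U_box1 hu hCV hAE T)
    have h6 : IntegrableOn (fun p : ℝ × ℝ => (E p.1 : ℂ) * (u (Z p.1 p.2) * (Real.sin (k * p.2) : ℂ)))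
        (Icc (-T) T ×ˢ Ioo 0 Real.pi) := by
      refine Integrable.bdd_mul (c := M) h5 ?_ ?_
      · exact (Complex.measurable_ofReal.comp (hEm.comp measurable_fst)).aestronglyMeasurable
      · refine Eventually.of_forall fun p => ?_
        rw [Complex.norm_real, Real.norm_eq_abs]
        exact hM p.1
    refine h6.of_forall_sdiff_eq_zero (MeasurableSet.univ.prod measurableSet_Ioo) ?_
    intro p hp
    have h7 : p.1 ∉ tsupport η := by
      intro h8
      exact hp.2 ⟨hT h8, hp.1.2⟩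
    simp [hsupp p.1 h7]
  rw [key] at hg
  have hfub : ∫ p in St, (E p.1 : ℂ) * (u (Z p.1 p.2) * (Real.sin (k * p.2) : ℂ)) =
      ∫ t in (univ : Set ℝ), (E t : ℂ) * ck u k t := by
    rw [St, Measure.volume_eq_prod, setIntegral_prod _ (by
      rw [← Measure.volume_eq_prod]; exact hint)]
    apply setIntegral_congr_fun MeasurableSet.univ
    intro t _
    simp only [ck]
    rw [← integral_const_mul]
  rw [hfub, Measure.restrict_univ] at hg
  rw [← hg]
  apply setIntegral_eq_integral_of_forall_compl_eq_zero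
  intro t ht
  have : t ∉ tsupport η := fun h => ht (h3 h)
  have := hsupp t this
  simp only [hE] at this
  rw [this]; simp

end Pool.Agent.W738.CP
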