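import Mathlib
import Pool.Agent.W738.CP.Pair

open MeasureTheory Set Filter Topology intervalIntegral

namespace Pool.Agent.W738.CP

/-- a function with zero derivative off a countable set is constant -/
theorem const_off {a0 : ℝ} {f : ℝ → ℂ} {s : Set ℝ} (hs : s.Countable)
    (hc : ∀ t, a0 < t → ContinuousAt f t) (hd : ∀ t, a0 < t → t ∉ s → HasDerivAt f 0 t)
    {p q : ℝ} (hp : a0 < p) (hq : a0 < q) : f q = f p := by
  have h := integral_eq_of_hasDerivAt_off_countable (f := f) (f' := fun _ => (0 : ℂ)) (a := p)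
    (b := q) hs ?_ ?_ ?_
  · simp only [intervalIntegral.integral_zero] at h
    exact (sub_eq_zero.mp h.symm)
  · intro x hx
    apply ContinuousAt.continuousWithinAt
    apply hc
    have := hx.1
    exact lt_of_lt_of_le (lt_min hp hq) this
  · intro x hx
    exact hd x (lt_trans (lt_min hp hq) hx.1.1) hx.2
  · exact intervalIntegrable_const

section
variable {b a0 : ℝ} {k : ℕ} {P S : ℝ → ℝ}

structure WeakSol (a0 : ℝ) (k : ℕ) (P : ℝ → ℝ) (C C' : ℝ → ℂ) : Prop where
  d1 : ∀ t, a0 < t → HasDerivAt C (C' t) t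
  d2 : ∀ s t, a0 < s → a0 < t →
    C' t - C' s = ∫ τ in s..t, (((k : ℝ) ^ 2 + P τ : ℝ) : ℂ) * C τ

variable {C C' : ℝ → ℂ}

theorem ws_cont (w : WeakSol a0 k P C C') (t : ℝ) (ht : a0 < t) : ContinuousAt C t :=
  (w.d1 t ht).continuousAt

theorem ws_int (w : WeakSol a0 k P C C') (hPm : Measurable P) (hPb : ∀ t, |P t| ≤ 1)
    {s t : ℝ} (hs : a0 < s) (ht : a0 < t) :
    IntervalIntegrable (fun τ => (((k : ℝ) ^ 2 + P τ : ℝ) : ℂ) * C τ) volume s t := by
  have hC : ContinuousOn C (uIcc s t) := fun x hx =>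
    (ws_cont w x (lt_of_lt_of_le (lt_min hs ht) hx.1)).continuousWithinAt
  have h1 : IntegrableOn C (uIoc s t) := intervalIntegrable_iff.mp hC.intervalIntegrable
  rw [intervalIntegrable_iff]
  refine Integrable.bdd_mul (c := (k : ℝ) ^ 2 + 1) h1 ?_ ?_
  · exact (Complex.measurable_ofReal.comp (measurable_const.add hPm)).aestronglyMeasurable
  · refine Eventually.of_forall fun x => ?_
    rw [Complex.norm_real, Real.norm_eq_abs]
    refine (abs_add_le _ _).trans ?_
    rw [abs_of_nonneg (by positivity : (0 : ℝ) ≤ (k : ℝ) ^ 2)]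
    linarith [hPb x]

theorem ws_cont' (w : WeakSol a0 k P C C') (hPb : ∀ t, |P t| ≤ 1)
    (t : ℝ) (ht : a0 < t) : ContinuousAt C' t := by
  obtain ⟨s, hs1, hs2⟩ := exists_between ht
  -- a neighbourhood `[s, t+1]`
  have hC : ContinuousOn C (Icc s (t + 1)) := fun x hx =>
    (ws_cont w x (lt_of_lt_of_le hs1 hx.1)).continuousWithinAt
  obtain ⟨M, hM⟩ := isCompact_Icc.exists_bound_of_continuousOn hC
  have hM0 : 0 ≤ M := (norm_nonneg _).trans (hM t ⟨hs2.le, by linarith⟩)
  have key : ∀ᶠ y in 𝓝 t, ‖C' y - C' t‖ ≤ (((k : ℝ) ^ 2 + 1) * M) * |y - t| := by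
    filter_upwards [Ioo_mem_nhds hs2 (show t < t + 1 by linarith)] with y hy
    rw [w.d2 t y ht (hs1.trans hy.1)]
    refine intervalIntegral.norm_integral_le_of_norm_le_const ?_
    intro x hx
    have hx1 : x ∈ Icc s (t + 1) := by
      have h1 := uIoc_subset_uIcc hx
      rw [uIcc] at h1
      constructor
      · exact le_trans (le_min hs2.le hy.1.le) h1.1
      · exact h1.2.trans (max_le (by linarith) hy.2.le)
    rw [norm_mul, Complex.norm_real, Real.norm_eq_abs]
    have h2 : |(k : ℝ) ^ 2 + P x| ≤ (k : ℝ) ^ 2 + 1 := by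
      refine (abs_add_le _ _).trans ?_
      rw [abs_of_nonneg (by positivity : (0 : ℝ) ≤ (k : ℝ) ^ 2)]
      linarith [hPb x]
    exact mul_le_mul h2 (hM x hx1) (norm_nonneg _) (by positivity)
  rw [ContinuousAt, tendsto_iff_norm_sub_tendsto_zero]
  refine squeeze_zero' (Eventually.of_forall fun y => norm_nonneg _) key ?_
  have : Tendsto (fun y : ℝ => (((k : ℝ) ^ 2 + 1) * M) * |y - t|) (𝓝 t)
      (𝓝 ((((k : ℝ) ^ 2 + 1) * M) * |t - t|)) := by
    apply Continuous.tendsto; fun_prop
  simpa using this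

theorem ws_d2 (w : WeakSol a0 k P C C') (hPm : Measurable P) (hPb : ∀ t, |P t| ≤ 1)
    (t : ℝ) (ht : a0 < t) (hP : ContinuousAt P t) :
    HasDerivAt C' ((((k : ℝ) ^ 2 + P t : ℝ) : ℂ) * C t) t := by
  obtain ⟨s, hs1, hs2⟩ := exists_between ht
  have h1 : HasDerivAt (fun u => ∫ τ in s..u, (((k : ℝ) ^ 2 + P τ : ℝ) : ℂ) * C τ)
      ((((k : ℝ) ^ 2 + P t : ℝ) : ℂ) * C t) t := by
    refine intervalIntegral.integral_hasDerivAt_right (ws_int w hPm hPb hs1 ht) ?_ ?_
    · refine ⟨Ioi s, Ioi_mem_nhds hs2, ?_⟩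
      refine AEStronglyMeasurable.mul ?_ ?_
      · exact (Complex.measurable_ofReal.comp (measurable_const.add hPm)).aestronglyMeasurable
      · refine ContinuousOn.aestronglyMeasurable ?_ measurableSet_Ioi
        intro x hx
        exact (ws_cont w x (hs1.trans hx)).continuousWithinAt
    · refine ContinuousAt.mul ?_ (ws_cont w t ht)
      exact Complex.continuous_ofReal.continuousAt.comp (continuousAt_const.add hP)
  have h2 : HasDerivAt (fun u => C' s + ∫ τ in s..u, (((k : ℝ) ^ 2 + P τ : ℝ) : ℂ) * C τ)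
      ((((k : ℝ) ^ 2 + P t : ℝ) : ℂ) * C t) t := h1.const_add _
  refine h2.congr_of_eventuallyEq ?_
  filter_upwards [Ioi_mem_nhds hs2] with y hy
  have := w.d2 s y hs1 (hs1.trans hy)
  rw [← this]; ring

theorem ident (hk : 1 ≤ k) (p : Pair b k P S) (ha : a0 < -b) (hb : 0 < b)
    (hP : ∀ t, t ≠ -b → t ≠ 0 → t ≠ b → ContinuousAt P t) (hPm : Measurable P)
    (hPb : ∀ t, |P t| ≤ 1) (hP0 : ∀ t, b < t → P t = 0)
    (w : WeakSol a0 k P C C')
    (hL2 : IntegrableOn (fun t => ‖C t‖ ^ 2 * Real.exp (-(2 * t))) (Ioi b)) :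
    ∃ α : ℂ, ∀ t, a0 < t → C t = α * (p.x t : ℂ) := by
  have hk0 : (0 : ℝ) < k := by exact_mod_cast hk
  have hkc : (k : ℂ) ≠ 0 := by exact_mod_cast hk0.ne'
  -- the exceptional set
  set E : Set ℝ := {-b, 0, b} with hE
  have hEc : E.Countable := by
    rw [hE]; exact (Set.toFinite _).countable
  have hEn : ∀ t, t ∉ E → t ≠ -b ∧ t ≠ 0 ∧ t ≠ b := by
    intro t ht
    simp only [hE, mem_insert_iff, mem_singleton_iff, not_or] at ht
    exact ht
  -- Wronskian
  have hxc : ∀ t, HasDerivAt (fun t => (p.x t : ℂ)) (p.x' t : ℂ) t := fun t => (p.dx t).ofReal_comp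
  have hx'c : Continuous (fun t => (p.x' t : ℂ)) := Complex.continuous_ofReal.comp p.cx
  have hW : ∀ s t, a0 < s → a0 < t →
      C t * (p.x' t : ℂ) - C' t * (p.x t : ℂ) = C s * (p.x' s : ℂ) - C' s * (p.x s : ℂ) := by
    intro s t hs ht
    refine const_off (f := fun t => C t * (p.x' t : ℂ) - C' t * (p.x t : ℂ)) hEc ?_ ?_ hs ht
    · intro r hr
      exact ((ws_cont w r hr).mul hx'c.continuousAt).sub
        ((ws_cont' w hPb r hr).mul (hxc r).continuousAt)
    · intro r hr hrE
      obtain ⟨h1, h2, h3⟩ := hEn r hrE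
      have e1 := (w.d1 r hr).mul ((p.dx2 r h1 h2 h3).ofReal_comp)
      have e2 := (ws_d2 w hPm hPb r hr (hP r h1 h2 h3)).mul (hxc r)
      refine (e1.sub e2).congr_deriv ?_
      push_cast
      ring
  obtain ⟨W0, hW0⟩ : ∃ W0 : ℂ, ∀ t, a0 < t →
      C t * (p.x' t : ℂ) - C' t * (p.x t : ℂ) = W0 :=
    ⟨_, fun t ht => hW (b) t (by linarith) ht⟩
  -- on the right of b
  have hexp : ∀ t : ℝ, HasDerivAt (fun t : ℝ => Complex.exp (k * t)) (k * Complex.exp (k * t)) t := by
    intro t
    have h := ((hasDerivAt_id (t : ℂ)).const_mul (k : ℂ)).cexp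
    simp only [id] at h
    exact (h.comp_ofReal).congr_deriv (by ring)
  have hexp2 : ∀ t : ℝ, HasDerivAt (fun t : ℝ => Complex.exp (2 * k * t))
      (2 * k * Complex.exp (2 * k * t)) t := by
    intro t
    have h := ((hasDerivAt_id (t : ℂ)).const_mul (2 * k : ℂ)).cexp
    simp only [id] at h
    exact (h.comp_ofReal).congr_deriv (by ring)
  have hR : ∃ γ : ℂ, ∀ t, b < t →
      Complex.exp (k * t) * C t + W0 / (2 * k) * Complex.exp (2 * k * t) = γ := by
    refine ⟨_, fun t ht => const_off (a0 := b) (p := b + 1) (q := t)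
      (f := fun t => Complex.exp (k * t) * C t + W0 / (2 * k) * Complex.exp (2 * k * t))
      (s := ∅) countable_empty ?_ ?_ (by linarith) ht⟩
    · intro r hr
      exact ((hexp r).mul (w.d1 r (by linarith))).continuousAt.add
        (((hexp2 r).const_mul (W0 / (2 * k))).continuousAt)
    · intro r hr _
      have e := ((hexp r).mul (w.d1 r (by linarith))).add ((hexp2 r).const_mul (W0 / (2 * k)))
      refine e.congr_deriv ?_
      have h1 := hW0 r (by linarith)
      rw [p.right r hr.le, p.right' r hr.le] at h1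
      have h2 : Complex.exp (k * r) * Complex.exp (-(k * r)) = 1 := by
        rw [← Complex.exp_add]; simp
      have h3 : Complex.exp (2 * k * r) = Complex.exp (k * r) * Complex.exp (k * r) := by
        rw [← Complex.exp_add]; ring_nf
      push_cast at h1
      have h4 : W0 * Complex.exp (k * r) * Complex.exp (k * r) =
          - (k * C r + C' r) * Complex.exp (k * r) := by
        rw [← h1]
        linear_combination (-(k * C r + C' r) * Complex.exp (k * r)) * h2
      rw [h3]
      field_simp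
      linear_combination h4
  obtain ⟨γ, hγ⟩ := hR
  have hW00 : W0 = 0 := by
    by_contra hne
    have hpos : 0 < ‖W0‖ / (2 * k) := by
      have := norm_pos_iff.mpr hne
      positivity
    -- for t large, ‖C t‖^2 e^{-2t} ≥ const
    have hlow : ∀ᶠ t : ℝ in atTop, (‖W0‖ / (4 * k)) ^ 2 ≤ ‖C t‖ ^ 2 * Real.exp (-(2 * t)) := by
      have ht1 : Tendsto (fun t : ℝ => ‖γ‖ * Real.exp (-t)) atTop (𝓝 (‖γ‖ * 0)) :=
        (Real.tendsto_exp_neg_atTop_nhds_zero).const_mul _
      rw [mul_zero] at ht1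
      have h5 : ∀ᶠ t : ℝ in atTop, ‖γ‖ * Real.exp (-t) < ‖W0‖ / (4 * k) :=
        ht1.eventually (gt_mem_nhds (by have := norm_pos_iff.mpr hne; positivity))
      filter_upwards [h5, eventually_gt_atTop b, eventually_ge_atTop 0] with t h6 h7 h8
      have h9 := hγ t h7
      -- norm of e^{kt} C t ≥ ‖W0‖/(2k) e^{2kt} - ‖γ‖
      have h10 : ‖W0‖ / (2 * k) * Real.exp (2 * k * t) ≤ ‖γ‖ + Real.exp (k * t) * ‖C t‖ := by
        have h11 : W0 / (2 * k) * Complex.exp (2 * k * t) = γ - Complex.exp (k * t) * C t := by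
          rw [← h9]; ring
        have h12 := congrArg norm h11
        rw [norm_mul, norm_div, Complex.norm_exp] at h12
        have h13 : (2 * (k : ℂ) * (t : ℂ)).re = 2 * k * t := by
          have : (2 * (k : ℂ) * (t : ℂ)) = ((2 * k * t : ℝ) : ℂ) := by push_cast; ring
          rw [this, Complex.ofReal_re]
        have h14 : ‖(2 * (k : ℂ))‖ = 2 * k := by
          rw [norm_mul]; simp
        rw [h13, h14] at h12
        rw [h12]
        refine (norm_sub_le _ _).trans ?_
        rw [norm_mul, Complex.norm_exp]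
        have h15 : ((k : ℂ) * (t : ℂ)).re = k * t := by
          have : ((k : ℂ) * (t : ℂ)) = ((k * t : ℝ) : ℂ) := by push_cast; ring
          rw [this, Complex.ofReal_re]
        rw [h15]
      have hk1 : (1 : ℝ) ≤ k := by exact_mod_cast hk
      -- multiply by e^{-kt-t}
      have h16 : ‖W0‖ / (4 * k) ≤ ‖C t‖ * Real.exp (-t) := by
        have h17 : Real.exp (2 * k * t) = Real.exp (k * t) * Real.exp (k * t) := by
          rw [← Real.exp_add]; ring_nf
        have h18 : Real.exp t ≤ Real.exp (k * t) := Real.exp_le_exp.mpr (by nlinarith)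
        have h19 : Real.exp t * Real.exp (-t) = 1 := by rw [← Real.exp_add]; simp
        have h20 : 1 ≤ Real.exp (k * t) := Real.one_le_exp (by positivity)
        set X := Real.exp (k * t) with hX
        set Y := Real.exp (-t) with hY
        have hYp : 0 < Y := Real.exp_pos _
        have h21 : 1 ≤ X * Y := by
          calc (1 : ℝ) = Real.exp t * Y := h19.symm
            _ ≤ X * Y := mul_le_mul_of_nonneg_right h18 hYp.le
        rw [h17] at h10
        -- h10 : ‖W0‖/(2k) * (X*X) ≤ ‖γ‖ + X*‖C‖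
        have h22 : ‖W0‖ / (2 * k) * X ≤ ‖γ‖ + ‖C t‖ := by
          have hXp : 0 < X := Real.exp_pos _
          have e1 : ‖W0‖ / (2 * k) * X * X ≤ (‖γ‖ + ‖C t‖) * X := by
            nlinarith [norm_nonneg γ, norm_nonneg (C t)]
          exact le_of_mul_le_mul_right e1 hXp
        have h23 : ‖W0‖ / (2 * k) ≤ ‖W0‖ / (2 * k) * (X * Y) := le_mul_of_one_le_right hpos.le h21
        have h24 : ‖W0‖ / (2 * k) * (X * Y) ≤ (‖γ‖ + ‖C t‖) * Y := by
          rw [← mul_assoc]; exact mul_le_mul_of_nonneg_right h22 hYp.le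
        have h25 : ‖W0‖ / (2 * k) = ‖W0‖ / (4 * k) + ‖W0‖ / (4 * k) := by
          field_simp; ring
        nlinarith
      have h26 : Real.exp (-(2 * t)) = Real.exp (-t) ^ 2 := by
        rw [← Real.exp_nat_mul]; ring_nf
      rw [h26, ← mul_pow]
      exact pow_le_pow_left₀ (by positivity) h16 2
    -- contradiction with integrability
    obtain ⟨T, hT⟩ := eventually_atTop.mp (hlow.and (eventually_gt_atTop b))
    have hsub : IntegrableOn (fun t => ‖C t‖ ^ 2 * Real.exp (-(2 * t))) (Ioi T) :=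
      hL2.mono_set (Ioi_subset_Ioi (hT T le_rfl).2.le)
    have hconst : IntegrableOn (fun _ : ℝ => (‖W0‖ / (4 * k)) ^ 2) (Ioi T) := by
      refine Integrable.mono' hsub aestronglyMeasurable_const ?_
      filter_upwards [ae_restrict_mem measurableSet_Ioi] with t ht
      rw [Real.norm_eq_abs, abs_of_nonneg (by positivity)]
      exact (hT t (le_of_lt ht)).1
    rw [integrableOn_const_iff] at hconst
    rcases hconst with h | h
    · have := norm_pos_iff.mpr hne
      have h2 : 0 < (‖W0‖ / (4 * k)) ^ 2 := by positivity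
      have h3 : (‖W0‖ / (4 * k)) ^ 2 = 0 := by simpa using h
      exact h2.ne' h3
    · simp at h
  subst hW00
  -- conclude
  refine ⟨C b / (p.x b : ℂ), fun t ht => ?_⟩
  have hxne : ∀ t, (p.x t : ℂ) ≠ 0 := fun t => by exact_mod_cast (p.pos t).ne'
  have h := const_off (a0 := a0) (p := b) (q := t) (f := fun t => C t / (p.x t : ℂ)) (s := ∅)
    countable_empty ?_ ?_ (by linarith) ht
  · have h' : C t / (p.x t : ℂ) = C b / (p.x b : ℂ) := h
    rw [← h']
    field_simp [hxne t]
  · intro r hr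
    exact (ws_cont w r hr).div (hxc r).continuousAt (hxne r)
  · intro r hr _
    have e := (w.d1 r hr).div (hxc r) (hxne r)
    refine e.congr_deriv ?_
    rw [div_eq_zero_iff]
    left
    have := hW0 r hr
    linear_combination -this

end

end Pool.Agent.W738.CP
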