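import Mathlib
import Pool.Agent.W738.CP.Field
import Pool.Agent.W738.CP.Ident

open MeasureTheory Set Filter Topology InnerProductSpace Laplacian
open scoped ContDiff

namespace Pool.Agent.W738.CP

theorem sq_int_le {f : ℝ → ℂ} (hf : MemLp f 2 (volume.restrict (Ioo 0 Real.pi))) (k : ℕ) :
    ‖∫ s in Ioo 0 Real.pi, f s * (Real.sin (k * s) : ℂ)‖ ^ 2 ≤
      Real.pi * ∫ s in Ioo 0 Real.pi, ‖f s‖ ^ 2 := by
  have hfin : IsFiniteMeasure (volume.restrict (Ioo 0 Real.pi)) := ⟨by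
    rw [Measure.restrict_apply_univ, Real.volume_Ioo]; exact ENNReal.ofReal_lt_top⟩
  have h1 : Integrable f (volume.restrict (Ioo 0 Real.pi)) := hf.integrable (by norm_num)
  have h2 : Integrable (fun s => ‖f s‖ ^ 2) (volume.restrict (Ioo 0 Real.pi)) :=
    (memLp_two_iff_integrable_sq_norm hf.aestronglyMeasurable).mp hf
  set m := ∫ s in Ioo 0 Real.pi, ‖f s‖ with hm
  have h3 : ‖∫ s in Ioo 0 Real.pi, f s * (Real.sin (k * s) : ℂ)‖ ≤ m := by
    refine (norm_integral_le_integral_norm _).trans ?_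
    refine integral_mono_of_nonneg (Eventually.of_forall fun s => norm_nonneg _) h1.norm ?_
    refine Eventually.of_forall fun s => ?_
    simp only [norm_mul, Complex.norm_real, Real.norm_eq_abs]
    have := Real.abs_sin_le_one (k * s)
    nlinarith [norm_nonneg (f s)]
  have hm0 : 0 ≤ m := integral_nonneg fun _ => norm_nonneg _
  have h4 : 0 ≤ ∫ s in Ioo 0 Real.pi, (‖f s‖ - m / Real.pi) ^ 2 :=
    integral_nonneg fun _ => sq_nonneg _
  have h5 : ∫ s in Ioo 0 Real.pi, (‖f s‖ - m / Real.pi) ^ 2 =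
      (∫ s in Ioo 0 Real.pi, ‖f s‖ ^ 2) - 2 * (m / Real.pi) * m + (m / Real.pi) ^ 2 * Real.pi := by
    have e1 : ∀ s, (‖f s‖ - m / Real.pi) ^ 2 =
        (‖f s‖ ^ 2 - 2 * (m / Real.pi) * ‖f s‖) + (m / Real.pi) ^ 2 := fun s => by ring
    simp_rw [e1]
    have i1 : Integrable (fun s => 2 * (m / Real.pi) * ‖f s‖) (volume.restrict (Ioo 0 Real.pi)) :=
      h1.norm.const_mul _
    have i2 : Integrable (fun s => ‖f s‖ ^ 2 - 2 * (m / Real.pi) * ‖f s‖)
      (volume.restrict (Ioo 0 Real.pi)) := h2.sub i1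
    rw [integral_add i2 (integrable_const _), integral_sub h2 i1, integral_const_mul,
      setIntegral_const]
    rw [measureReal_def, Real.volume_Ioo, ENNReal.toReal_ofReal (by linarith [Real.pi_pos])]
    simp only [sub_zero, smul_eq_mul]
    ring
  have hp := Real.pi_pos
  have h6 : m ^ 2 ≤ Real.pi * ∫ s in Ioo 0 Real.pi, ‖f s‖ ^ 2 := by
    rw [h5] at h4
    have h7 : 0 ≤ Real.pi * ((∫ s in Ioo 0 Real.pi, ‖f s‖ ^ 2) - 2 * (m / Real.pi) * m +
      (m / Real.pi) ^ 2 * Real.pi) := mul_nonneg hp.le h4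
    have h8 : Real.pi * ((∫ s in Ioo 0 Real.pi, ‖f s‖ ^ 2) - 2 * (m / Real.pi) * m +
      (m / Real.pi) ^ 2 * Real.pi) = Real.pi * (∫ s in Ioo 0 Real.pi, ‖f s‖ ^ 2) - m ^ 2 := by
      field_simp
      ring
    linarith
  refine le_trans ?_ h6
  exact pow_le_pow_left₀ (norm_nonneg _) h3 2

section
variable {u : ℂ → ℂ} (hu : MemLp u 2 (volume.restrict (Metric.ball (0 : ℂ) 1)))
include hu

theorem slices (hCV : S_CV) (hAE : S_CVae) : ∀ᵐ t : ℝ,
    MemLp (fun s => u (Z t s)) 2 (volume.restrict (Ioo 0 Real.pi)) ∧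
    Integrable (fun s => J t s * ‖u (Z t s)‖ ^ 2) (volume.restrict (Ioo 0 Real.pi)) := by
  have h1 := U_int hu hCV
  have h2 := U_meas hu hAE
  rw [IntegrableOn, St, prod_restr, Measure.restrict_univ] at h1
  rw [St, prod_restr, Measure.restrict_univ] at h2
  filter_upwards [h1.prod_right_ae, h2.prodMk_left] with t h3 h4
  refine ⟨?_, h3⟩
  rw [memLp_two_iff_integrable_sq_norm h4]
  -- J is bounded below on the slice
  set j0 := 4 * Real.exp (-|t|) ^ 2 / (Real.exp |t| + 1) ^ 4 with hj0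
  have hj : 0 < j0 := by positivity
  refine Integrable.mono' (h3.const_mul (1 / j0)) (h4.norm.pow 2) ?_
  filter_upwards [ae_restrict_mem measurableSet_Ioo] with s hs
  rw [Real.norm_eq_abs, abs_of_nonneg (by positivity)]
  have h5 : j0 ≤ J t s := J_ge_box le_rfl hs.1.le hs.2.le
  have h6 : 0 ≤ ‖u (Z t s)‖ ^ 2 := by positivity
  rw [div_mul_eq_mul_div, one_mul, le_div_iff₀ hj]
  nlinarith

theorem ck_sq (hCV : S_CV) (hAE : S_CVae) (k : ℕ) : ∀ᵐ t : ℝ,
    ‖ck u k t‖ ^ 2 ≤ Real.pi * ∫ s in Ioo 0 Real.pi, ‖u (Z t s)‖ ^ 2 := by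
  filter_upwards [slices hu hCV hAE] with t ht
  exact sq_int_le ht.1 k

theorem ck_meas (hAE : S_CVae) (k : ℕ) : AEStronglyMeasurable (ck u k) volume := by
  have h2 := U_meas hu hAE
  rw [St, prod_restr, Measure.restrict_univ] at h2
  have h3 : AEStronglyMeasurable (fun p : ℝ × ℝ => u (Z p.1 p.2) * (Real.sin (k * p.2) : ℂ))
      (volume.prod (volume.restrict (Ioo 0 Real.pi))) := by
    refine h2.mul ?_
    exact (by fun_prop : Measurable fun p : ℝ × ℝ => (Real.sin (k * p.2) : ℂ)).aestronglyMeasurable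
  exact h3.integral_prod_right'

theorem ck_weight (hCV : S_CV) (hAE : S_CVae) {b : ℝ} (hb : 0 < b) (k : ℕ) :
    IntegrableOn (fun t => ‖ck u k t‖ ^ 2 * Real.exp (-(2 * t))) (Ioi b) := by
  have h1 := U_int hu hCV
  rw [IntegrableOn, St, prod_restr, Measure.restrict_univ] at h1
  have h2 : Integrable (fun t => ∫ s in Ioo 0 Real.pi, J t s * ‖u (Z t s)‖ ^ 2) volume :=
    h1.integral_prod_left
  have h3 : IntegrableOn (fun t => (4 * Real.pi) *
      ∫ s in Ioo 0 Real.pi, J t s * ‖u (Z t s)‖ ^ 2) (Ioi b) := (h2.const_mul _).integrableOn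
  refine Integrable.mono' h3 ?_ ?_
  · refine AEStronglyMeasurable.mul ?_ ?_
    · exact ((ck_meas hu hAE k).restrict.norm.pow 2)
    · exact (by fun_prop : Measurable fun t : ℝ => Real.exp (-(2 * t))).aestronglyMeasurable
  · filter_upwards [ae_restrict_of_ae (slices hu hCV hAE), ae_restrict_of_ae (ck_sq hu hCV hAE k),
      ae_restrict_mem measurableSet_Ioi] with t h4 h5 h6
    rw [Real.norm_eq_abs, abs_of_nonneg (by positivity)]
    have h7 : Real.exp (-(2 * t)) * ∫ s in Ioo 0 Real.pi, ‖u (Z t s)‖ ^ 2 ≤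
        4 * ∫ s in Ioo 0 Real.pi, J t s * ‖u (Z t s)‖ ^ 2 := by
      rw [← integral_const_mul, ← integral_const_mul]
      refine integral_mono_of_nonneg (Eventually.of_forall fun s => by positivity)
        (h4.2.const_mul 4) ?_
      filter_upwards [ae_restrict_mem measurableSet_Ioo] with s hs
      have h8 := J_ge_right (t := t) (s := s) (hb.le.trans (le_of_lt h6)) hs.1.le hs.2.le
      have h9 : 0 ≤ ‖u (Z t s)‖ ^ 2 := by positivity
      nlinarith
    calc ‖ck u k t‖ ^ 2 * Real.exp (-(2 * t)) ≤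
        (Real.pi * ∫ s in Ioo 0 Real.pi, ‖u (Z t s)‖ ^ 2) * Real.exp (-(2 * t)) :=
          mul_le_mul_of_nonneg_right h5 (Real.exp_pos _).le
      _ = Real.pi * (Real.exp (-(2 * t)) * ∫ s in Ioo 0 Real.pi, ‖u (Z t s)‖ ^ 2) := by ring
      _ ≤ Real.pi * (4 * ∫ s in Ioo 0 Real.pi, J t s * ‖u (Z t s)‖ ^ 2) :=
          mul_le_mul_of_nonneg_left h7 Real.pi_pos.le
      _ = _ := by ring

end

theorem coef (hCV : S_CV) (hAE : S_CVae) (hLap : S_Lap) (hTest : S_Test) (hWeak : S_Weak)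
    {q : ℂ → ℝ} {P S : ℝ → ℝ} (hq : ∀ t s, 0 ≤ s → s ≤ Real.pi → J t s * q (Z t s) = P t)
    {b : ℝ} (hb : 0 < b) (hP : ∀ t, t ≠ -b → t ≠ 0 → t ≠ b → ContinuousAt P t)
    (hPm : Measurable P) (hPb : ∀ t, |P t| ≤ 1) (pr : ∀ k : ℕ, 1 ≤ k → Pair b k P S)
    {u : ℂ → ℂ} (hu : MemLp u 2 (volume.restrict (Metric.ball (0 : ℂ) 1)))
    {K : Set ℂ} {δ : ℝ} (hδ : 0 < δ)
    (hK : ∀ z ∈ K, z ∈ Metric.sphere (0 : ℂ) 1 ∧ z.re ≤ Real.tanh (-b - δ))
    (hweak : ∀ φ : ℂ → ℝ, ContDiff ℝ ∞ φ → (∀ z ∈ Metric.sphere (0 : ℂ) 1, φ z = 0) →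
      (∀ z ∈ K, ∀ᶠ y in 𝓝[Metric.sphere (0 : ℂ) 1] z, normalDeriv φ y = 0) → green q u φ = 0) :
    ∃ (α : ℕ → ℂ) (M : ℝ), 0 ≤ M ∧ ∀ (k : ℕ) (hk : 1 ≤ k),
      (∀ᵐ t ∂(volume.restrict (Ioi (-b - δ))), ck u k t = α k * ((pr k hk).x t : ℂ)) ∧
      ‖α k‖ * (pr k hk).A ≤ M * Real.exp (-(k * (b + δ / 2))) := by
  have hex : ∀ (k : ℕ) (hk : 1 ≤ k), ∃ α : ℂ,
      ∀ᵐ t ∂(volume.restrict (Ioi (-b - δ))), ck u k t = α * ((pr k hk).x t : ℂ) := by
    intro k hk
    obtain ⟨C, C', h1, h2, h3⟩ := hWeak (-b - δ) (fun t => (k : ℝ) ^ 2 + P t) (ck u k)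
      (measurable_const.add hPm) ⟨(k : ℝ) ^ 2 + 1, fun t => by
        refine (abs_add_le _ _).trans ?_
        rw [abs_of_nonneg (by positivity : (0 : ℝ) ≤ (k : ℝ) ^ 2)]
        linarith [hPb t]⟩ (ck_loc hu hCV hAE _ k)
      (fun η e1 e2 e3 => weak_id hCV hAE hLap hTest hq hPm hPb hu hK hweak k η e1 e2 e3)
    have hw : WeakSol (-b - δ) k P C C' := ⟨h2, h3⟩
    have hL2 : IntegrableOn (fun t => ‖C t‖ ^ 2 * Real.exp (-(2 * t))) (Ioi b) := by
      refine Integrable.congr (ck_weight hu hCV hAE hb k) ?_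
      have h4 := ae_restrict_of_ae_restrict_of_subset
        (Ioi_subset_Ioi (show -b - δ ≤ b by linarith)) h1
      filter_upwards [h4] with t ht
      rw [ht]
    obtain ⟨α, hα⟩ := ident hk (pr k hk) (by linarith) hb hP hPm hPb
      (fun t ht => by
        -- `P` vanishes on the right of `b`: forced by the Jost solution
        have e1 := (pr k hk).dx2 t (by linarith) (by linarith) (by linarith)
        have e2 : HasDerivAt (pr k hk).x' ((k : ℝ) ^ 2 * Real.exp (-(k * t))) t := by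
          have e3 : (pr k hk).x' =ᶠ[𝓝 t] fun t => -k * Real.exp (-(k * t)) := by
            filter_upwards [Ioi_mem_nhds ht] with y hy
            exact (pr k hk).right' y (le_of_lt hy)
          have e4 := (hexpn k t).const_mul (-(k : ℝ))
          exact (e4.congr_of_eventuallyEq e3).congr_deriv (by ring)
        have e5 := e1.unique e2
        rw [(pr k hk).right t ht.le] at e5
        have e6 := Real.exp_pos (-(k * t))
        have e7 : P t * Real.exp (-(k * t)) = 0 := by linarith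
        exact (mul_eq_zero.mp e7).resolve_right e6.ne') hw hL2
    refine ⟨α, ?_⟩
    filter_upwards [h1, ae_restrict_mem measurableSet_Ioi] with t ht ht2
    rw [ht, hα t ht2]
  choose! α hα using hex
  -- the interval used for the bound
  set I0 : Set ℝ := Ioo (-b - δ) (-b - δ / 2) with hI0
  set T : ℝ := b + δ with hT
  have hI0T : I0 ⊆ Icc (-T) T := by
    intro x hx
    constructor
    · rw [hT]; linarith [hx.1]
    · rw [hT]; linarith [hx.2]
  have hbox := (U_box hu hCV hAE T).mono_set (prod_mono hI0T (le_refl (Ioo 0 Real.pi)))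
  set N : ℝ := ∫ t in I0, ∫ s in Ioo 0 Real.pi, ‖u (Z t s)‖ ^ 2 with hN
  have hN0 : 0 ≤ N := integral_nonneg fun _ => integral_nonneg fun _ => by positivity
  have hbox' : Integrable (fun t => ∫ s in Ioo 0 Real.pi, ‖u (Z t s)‖ ^ 2)
      (volume.restrict I0) := by
    rw [IntegrableOn, prod_restr] at hbox
    exact hbox.integral_prod_left
  have hδ1 : 0 < 1 - Real.exp (-δ) := by
    have : Real.exp (-δ) < 1 := by
      rw [← Real.exp_zero]; exact Real.exp_lt_exp.mpr (by linarith)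
    linarith
  refine ⟨α, Real.sqrt (2 * Real.pi * N / δ) / (1 - Real.exp (-δ)), by positivity, ?_⟩
  intro k hk
  refine ⟨hα k hk, ?_⟩
  set p := pr k hk with hp
  have hk1 : (1 : ℝ) ≤ k := by exact_mod_cast hk
  set X : ℝ := ‖α k‖ * p.A * Real.exp (k * (b + δ / 2)) * (1 - Real.exp (-δ)) with hX
  have hA : 0 ≤ p.A := by linarith [p.hA]
  have hX0 : 0 ≤ X := by positivity
  -- pointwise lower bound
  have hpt : ∀ᵐ t ∂(volume.restrict I0), X ^ 2 ≤
      Real.pi * ∫ s in Ioo 0 Real.pi, ‖u (Z t s)‖ ^ 2 := by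
    have h1 := ae_restrict_of_ae_restrict_of_subset
        (show I0 ⊆ Ioi (-b - δ) from fun x hx => hx.1) (hα k hk)
    filter_upwards [h1, ae_restrict_of_ae (ck_sq hu hCV hAE k),
      ae_restrict_mem measurableSet_Ioo] with t h2 h3 h4
    refine le_trans ?_ h3
    rw [h2, norm_mul, Complex.norm_real, Real.norm_eq_abs, abs_of_pos (p.pos t)]
    apply pow_le_pow_left₀ hX0
    have h5 := p.lower t (by linarith [h4.2])
    have h6 : Real.exp (k * (b + δ / 2)) ≤ Real.exp (-(k * t)) := by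
      apply Real.exp_le_exp.mpr
      nlinarith [h4.2]
    have h7 : 1 - Real.exp (-δ) ≤ 1 - Real.exp (2 * k * (t + b)) := by
      have : Real.exp (2 * k * (t + b)) ≤ Real.exp (-δ) := by
        apply Real.exp_le_exp.mpr
        nlinarith [h4.2]
      linarith
    calc X = ‖α k‖ * (p.A * Real.exp (k * (b + δ / 2)) * (1 - Real.exp (-δ))) := by rw [hX]; ring
      _ ≤ ‖α k‖ * (p.A * Real.exp (-(k * t)) * (1 - Real.exp (2 * k * (t + b)))) := by
          apply mul_le_mul_of_nonneg_left _ (norm_nonneg _)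
          apply mul_le_mul _ h7 hδ1.le (by positivity)
          exact mul_le_mul_of_nonneg_left h6 hA
      _ ≤ ‖α k‖ * p.x t := mul_le_mul_of_nonneg_left h5 (norm_nonneg _)
  have hfinI : IsFiniteMeasure (volume.restrict I0) := ⟨by
    rw [Measure.restrict_apply_univ, Real.volume_Ioo]; exact ENNReal.ofReal_lt_top⟩
  have hint : X ^ 2 * (δ / 2) ≤ Real.pi * N := by
    have h1 : ∫ _t in I0, X ^ 2 ≤ ∫ t in I0, Real.pi * ∫ s in Ioo 0 Real.pi, ‖u (Z t s)‖ ^ 2 :=
      integral_mono_ae (integrable_const _) (hbox'.const_mul _) hpt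
    rw [integral_const_mul, setIntegral_const, measureReal_def, Real.volume_Ioo,
      ENNReal.toReal_ofReal (by linarith), smul_eq_mul] at h1
    have h2 : (-b - δ / 2 - (-b - δ)) = δ / 2 := by ring
    rw [h2] at h1
    linarith
  have hX2 : X ≤ Real.sqrt (2 * Real.pi * N / δ) := by
    apply Real.le_sqrt_of_sq_le
    rw [le_div_iff₀ hδ]
    linarith
  have e1 : Real.exp (k * (b + δ / 2)) * Real.exp (-(k * (b + δ / 2))) = 1 := by
    rw [← Real.exp_add]; simp
  calc ‖α k‖ * p.A = X / (1 - Real.exp (-δ)) * Real.exp (-(k * (b + δ / 2))) := by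
        rw [hX, mul_div_assoc, div_self hδ1.ne', mul_one, mul_assoc, e1, mul_one]
    _ ≤ _ := by
        apply mul_le_mul_of_nonneg_right _ (Real.exp_pos _).le
        exact div_le_div_of_nonneg_right hX2 hδ1.le

end Pool.Agent.W738.CP
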