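import Mathlib
import Pool.Agent.W738.CP.Field

open MeasureTheory Set Filter Topology InnerProductSpace Laplacian
open scoped ContDiff

namespace Pool.Agent.W738.CP

/-- integrable envelope -/
noncomputable def env (b t : ℝ) : ℝ := if t < -b then Real.exp (b + t) else if t ≤ b then 1 else 0

theorem env_nonneg (b t : ℝ) : 0 ≤ env b t := by
  unfold env; split_ifs <;> positivity

theorem env_meas (b : ℝ) : Measurable (env b) := by
  unfold env
  refine Measurable.ite measurableSet_Iio (by fun_prop) ?_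
  exact Measurable.ite measurableSet_Iic measurable_const measurable_const

theorem env_int {b : ℝ} (hb : 0 < b) : Integrable (env b) := by
  have h1 : IntegrableOn (env b) (Iio (-b)) := by
    have h2 : IntegrableOn (fun t => Real.exp (b + t)) (Iio (-b)) := by
      have h3 : IntegrableOn (fun t => Real.exp b * Real.exp t) (Iic (-b)) :=
        (integrableOn_exp_Iic (-b)).const_mul _
      refine (h3.mono_set Iio_subset_Iic_self).congr (Eventually.of_forall fun t => ?_)
      simp only; rw [Real.exp_add]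
    refine h2.congr ?_
    filter_upwards [ae_restrict_mem measurableSet_Iio] with t ht
    have : t < -b := ht
    simp [env, this]
  have h2 : IntegrableOn (env b) (Icc (-b) b) := by
    have : IntegrableOn (fun _ : ℝ => (1 : ℝ)) (Icc (-b) b) := by
      exact continuousOn_const.integrableOn_Icc
    refine this.congr ?_
    filter_upwards [ae_restrict_mem measurableSet_Icc] with t ht
    simp [env, not_lt.mpr ht.1, ht.2]
  have h3 : IntegrableOn (env b) (Ioi b) := by
    refine (integrableOn_zero).congr ?_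
    filter_upwards [ae_restrict_mem measurableSet_Ioi] with t ht
    have h4 : ¬ t < -b := by have : b < t := ht; linarith
    have h5 : ¬ t ≤ b := not_le.mpr ht
    simp [env, h4, h5]
  have h4 : (univ : Set ℝ) = Iio (-b) ∪ Icc (-b) b ∪ Ioi b := by
    ext t
    simp only [mem_univ, mem_union, mem_Iio, mem_Icc, mem_Ioi, true_iff]
    by_cases c1 : t < -b
    · exact Or.inl (Or.inl c1)
    · by_cases c2 : t ≤ b
      · exact Or.inl (Or.inr ⟨not_lt.mp c1, c2⟩)
      · exact Or.inr (not_le.mp c2)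
  rw [← integrableOn_univ, h4]
  exact (h1.union h2).union h3

section
variable {b : ℝ} {k : ℕ} {P S : ℝ → ℝ}

theorem V_env (hk : 1 ≤ k) (hb : 0 < b) (p : Pair b k P S) (t : ℝ) :
    |p.y t - p.x t| ≤ p.A * Real.exp (k * b) * env b t := by
  have hA : 0 ≤ p.A := by linarith [p.hA]
  have hk1 : (1 : ℝ) ≤ k := by exact_mod_cast hk
  unfold env
  split_ifs with h1 h2
  · rw [p.left t h1.le, abs_mul, abs_of_pos (Real.exp_pos _)]
    calc |p.W| * Real.exp (k * t) ≤ p.A * Real.exp (2 * k * b) * Real.exp (k * t) :=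
          mul_le_mul_of_nonneg_right p.hW (Real.exp_pos _).le
      _ = p.A * Real.exp (k * b) * Real.exp (k * (b + t)) := by
          have e : Real.exp (2 * k * b) * Real.exp (k * t) =
              Real.exp (k * b) * Real.exp (k * (b + t)) := by
            rw [← Real.exp_add, ← Real.exp_add]; ring_nf
          rw [mul_assoc p.A, mul_assoc p.A, e]
      _ ≤ p.A * Real.exp (k * b) * Real.exp (b + t) := by
          apply mul_le_mul_of_nonneg_left _ (by positivity)
          apply Real.exp_le_exp.mpr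
          nlinarith
  · refine (p.bd t).trans ?_
    rw [mul_one]
    apply mul_le_mul_of_nonneg_left _ hA
    apply Real.exp_le_exp.mpr
    nlinarith [not_lt.mp h1]
  · rw [p.eqr t (le_of_lt (not_le.mp h2))]
    simp

theorem x_env (hk : 1 ≤ k) (p : Pair b k P S)
    (hPS : ∀ t, t < -b ∨ b < t → P t = S t) (hP : ∀ t, |P t| ≤ 1) (hS : ∀ t, |S t| ≤ 1) (t : ℝ) :
    |(P t - S t) * p.x t| ≤ 2 * (p.A * Real.exp (k * b) * env b t) := by
  have hA : 0 ≤ p.A := by linarith [p.hA]
  have hk1 : (1 : ℝ) ≤ k := by exact_mod_cast hk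
  by_cases h : t < -b ∨ b < t
  · rw [hPS t h, sub_self, zero_mul, abs_zero]
    have := env_nonneg b t
    positivity
  · obtain ⟨h1, h2⟩ := not_or.mp h
    have e : env b t = 1 := by simp [env, h1, not_lt.mp h2]
    rw [e, mul_one, abs_mul, abs_of_pos (p.pos t)]
    have h3 : |P t - S t| ≤ 2 := (abs_sub _ _).trans (by linarith [hP t, hS t])
    have h4 : p.x t ≤ p.A * Real.exp (k * b) := by
      refine (p.upper t).trans ?_
      apply mul_le_mul_of_nonneg_left _ hA
      apply Real.exp_le_exp.mpr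
      nlinarith [not_lt.mp h1]
    exact mul_le_mul h3 h4 (p.pos t).le (by norm_num)

/-- second derivative of `y - x` off the exceptional points -/
noncomputable def V2 (p : Pair b k P S) (t : ℝ) : ℝ :=
  ((k : ℝ) ^ 2 + S t) * p.y t - ((k : ℝ) ^ 2 + P t) * p.x t

theorem V2_eq (p : Pair b k P S) (t : ℝ) :
    V2 p t = ((k : ℝ) ^ 2 + S t) * (p.y t - p.x t) - (P t - S t) * p.x t := by
  unfold V2; ring

theorem V2_env (hk : 1 ≤ k) (hb : 0 < b) (p : Pair b k P S)
    (hPS : ∀ t, t < -b ∨ b < t → P t = S t) (hP : ∀ t, |P t| ≤ 1) (hS : ∀ t, |S t| ≤ 1) (t : ℝ) :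
    |V2 p t| ≤ ((k : ℝ) ^ 2 + 3) * (p.A * Real.exp (k * b) * env b t) := by
  rw [V2_eq]
  refine (abs_sub _ _).trans ?_
  have h1 := x_env hk p hPS hP hS t
  have h2 := V_env hk hb p t
  have h3 : |((k : ℝ) ^ 2 + S t) * (p.y t - p.x t)| ≤ ((k : ℝ) ^ 2 + 1) *
      (p.A * Real.exp (k * b) * env b t) := by
    rw [abs_mul]
    apply mul_le_mul _ h2 (abs_nonneg _) (by positivity)
    refine (abs_add_le _ _).trans ?_
    rw [abs_of_nonneg (by positivity : (0 : ℝ) ≤ (k : ℝ) ^ 2)]
    linarith [hS t]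
  linarith

theorem x_cont (p : Pair b k P S) : Continuous p.x :=
  continuous_iff_continuousAt.mpr fun t => (p.dx t).continuousAt
theorem y_cont (p : Pair b k P S) : Continuous p.y :=
  continuous_iff_continuousAt.mpr fun t => (p.dy t).continuousAt

theorem V2_meas (p : Pair b k P S) (hPm : Measurable P) (hSm : Measurable S) :
    Measurable (V2 p) := by
  unfold V2
  exact ((measurable_const.add hSm).mul (y_cont p).measurable).sub
    ((measurable_const.add hPm).mul (x_cont p).measurable)

/-- integration by parts in `t` -/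
theorem tint (hk : 1 ≤ k) (hb : 0 < b) (p : Pair b k P S)
    (hPS : ∀ t, t < -b ∨ b < t → P t = S t) (hP : ∀ t, |P t| ≤ 1) (hS : ∀ t, |S t| ≤ 1)
    (hPm : Measurable P) (hSm : Measurable S) {h0 h1 h2 : ℝ → ℝ} {M : ℝ}
    (d0 : ∀ t, HasDerivAt h0 (h1 t) t) (d1 : ∀ t, HasDerivAt h1 (h2 t) t) (c2 : Continuous h2)
    (b0 : ∀ t, |h0 t| ≤ M) (b1 : ∀ t, |h1 t| ≤ M) (b2 : ∀ t, |h2 t| ≤ M) :
    ∫ t, ((p.y t - p.x t) * h2 t - V2 p t * h0 t) = 0 := by
  have hM : 0 ≤ M := (abs_nonneg _).trans (b0 0)
  have c0 : Continuous h0 := continuous_iff_continuousAt.mpr fun t => (d0 t).continuousAt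
  have c1 : Continuous h1 := continuous_iff_continuousAt.mpr fun t => (d1 t).continuousAt
  set f : ℝ → ℝ := fun t => (p.y t - p.x t) * h2 t - V2 p t * h0 t with hf
  set F : ℝ → ℝ := fun t => (p.y t - p.x t) * h1 t - (p.y' t - p.x' t) * h0 t with hF
  have hFc : Continuous F :=
    (((y_cont p).sub (x_cont p)).mul c1).sub ((p.cy.sub p.cx).mul c0)
  have hFd : ∀ t, t ∉ ({-b, 0, b} : Set ℝ) → HasDerivAt F (f t) t := by
    intro t ht
    simp only [mem_insert_iff, mem_singleton_iff, not_or] at ht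
    obtain ⟨e1, e2, e3⟩ := ht
    have a1 := ((p.dy t).sub (p.dx t)).mul (d1 t)
    have a2 := ((p.dy2 t e1 e2 e3).sub (p.dx2 t e1 e2 e3)).mul (d0 t)
    refine (a1.sub a2).congr_deriv ?_
    simp only [hf, V2, Pi.sub_apply]
    ring
  have hfi : Integrable f := by
    have hmeas : AEStronglyMeasurable f volume := by
      refine Measurable.aestronglyMeasurable ?_
      exact (((y_cont p).sub (x_cont p)).measurable.mul c2.measurable).sub
        ((V2_meas p hPm hSm).mul c0.measurable)
    refine Integrable.mono' ((env_int hb).const_mul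
      (((k : ℝ) ^ 2 + 4) * (p.A * Real.exp (k * b)) * M)) hmeas ?_
    refine Eventually.of_forall fun t => ?_
    rw [Real.norm_eq_abs]
    refine (abs_sub _ _).trans ?_
    rw [abs_mul, abs_mul]
    have g1 := V_env hk hb p t
    have g2 := V2_env hk hb p hPS hP hS t
    have g3 := env_nonneg b t
    have hA : 0 ≤ p.A := by linarith [p.hA]
    have g4 : |p.y t - p.x t| * |h2 t| ≤ (p.A * Real.exp (k * b) * env b t) * M :=
      mul_le_mul g1 (b2 t) (abs_nonneg _) (by positivity)
    have g5 : |V2 p t| * |h0 t| ≤ ((k : ℝ) ^ 2 + 3) * (p.A * Real.exp (k * b) * env b t) * M :=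
      mul_le_mul g2 (b0 t) (abs_nonneg _) (by positivity)
    nlinarith
  have hfr : ∀ t, t ∉ Iic b → f t = 0 := by
    intro t ht
    have ht' : b < t := not_le.mp ht
    simp only [hf, V2]
    rw [p.eqr t ht'.le, hPS t (Or.inr ht')]
    ring
  rw [← setIntegral_eq_integral_of_forall_compl_eq_zero hfr]
  have hlim := intervalIntegral_tendsto_integral_Iic b hfi.integrableOn tendsto_id
  have hlim2 : Tendsto (fun i : ℝ => ∫ x in i..b, f x) atBot (𝓝 0) := by
    have e1 : ∀ i : ℝ, ∫ x in i..b, f x = - F i := by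
      intro i
      have e2 := integral_eq_of_hasDerivAt_off_countable (f := F) (f' := f) (a := i) (b := b)
        (s := {-b, 0, b}) (Set.toFinite _).countable hFc.continuousOn
        (fun x hx => hFd x hx.2) hfi.intervalIntegrable
      rw [e2]
      have e3 : F b = 0 := by
        simp only [hF]
        rw [p.eqr b le_rfl, p.eqr' b le_rfl]; ring
      rw [e3]; ring
    simp_rw [e1]
    rw [← neg_zero]
    apply Tendsto.neg
    -- F → 0 at -∞
    have e4 : ∀ᶠ t in atBot, ‖F t‖ ≤ (|p.W| * (1 + k) * M) * Real.exp (k * t) := by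
      filter_upwards [eventually_le_atBot (-b)] with t ht
      simp only [hF]
      rw [p.left t ht, p.left' t ht, Real.norm_eq_abs]
      refine (abs_sub _ _).trans ?_
      rw [abs_mul, abs_mul, abs_mul, abs_mul, abs_mul, abs_of_pos (Real.exp_pos _),
        abs_of_nonneg (Nat.cast_nonneg k : (0 : ℝ) ≤ k)]
      have g1 := b1 t
      have g0 := b0 t
      have g2 := Real.exp_pos (k * t)
      have g3 := abs_nonneg p.W
      have g4 : |p.W| * Real.exp (k * t) * |h1 t| ≤ |p.W| * Real.exp (k * t) * M :=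
        mul_le_mul_of_nonneg_left g1 (by positivity)
      have g5 : (k : ℝ) * (|p.W| * Real.exp (k * t)) * |h0 t| ≤
          (k : ℝ) * (|p.W| * Real.exp (k * t)) * M :=
        mul_le_mul_of_nonneg_left g0 (by positivity)
      nlinarith
    have hk0 : (0 : ℝ) < k := by exact_mod_cast hk
    refine squeeze_zero_norm' e4 ?_
    have e5 : Tendsto (fun t : ℝ => Real.exp (k * t)) atBot (𝓝 0) :=
      Real.tendsto_exp_atBot.comp (tendsto_id.const_mul_atBot hk0)
    simpa using e5.const_mul (|p.W| * (1 + k) * M)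
  exact tendsto_nhds_unique hlim hlim2

/-- integration by parts in `s` -/
theorem sint (k : ℕ) {g0 g1 g2 : ℝ → ℝ}
    (d0 : ∀ s, 0 ≤ s → s ≤ Real.pi → HasDerivAt g0 (g1 s) s)
    (d1 : ∀ s, 0 ≤ s → s ≤ Real.pi → HasDerivAt g1 (g2 s) s)
    (c2 : ContinuousOn g2 (Icc 0 Real.pi)) (z0 : g0 0 = 0) (z1 : g0 Real.pi = 0) :
    ∫ s in Ioo 0 Real.pi, Real.sin (k * s) * (g2 s + (k : ℝ) ^ 2 * g0 s) = 0 := by
  rw [← integral_Ioc_eq_integral_Ioo, ← intervalIntegral.integral_of_le Real.pi_pos.le]
  have hsin : ∀ σ : ℝ, HasDerivAt (fun σ : ℝ => Real.sin (k * σ)) (k * Real.cos (k * σ)) σ := by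
    intro σ
    have := ((hasDerivAt_id σ).const_mul (k : ℝ)).sin
    simp only [id, mul_one] at this
    exact this.congr_deriv (by ring)
  have hcos : ∀ σ : ℝ, HasDerivAt (fun σ : ℝ => Real.cos (k * σ)) (-(k * Real.sin (k * σ))) σ := by
    intro σ
    have := ((hasDerivAt_id σ).const_mul (k : ℝ)).cos
    simp only [id, mul_one] at this
    exact this.congr_deriv (by ring)
  have c0 : ContinuousOn g0 (Icc 0 Real.pi) := fun s hs =>
    (d0 s hs.1 hs.2).continuousAt.continuousWithinAt
  have h := intervalIntegral.integral_eq_sub_of_hasDerivAt (a := 0) (b := Real.pi)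
    (f := fun s => Real.sin (k * s) * g1 s - k * (Real.cos (k * s) * g0 s))
    (f' := fun s => Real.sin (k * s) * (g2 s + (k : ℝ) ^ 2 * g0 s)) ?_ ?_
  · rw [h]
    simp only [z0, z1, mul_zero, sub_zero, Real.sin_zero, zero_mul]
    rw [Real.sin_nat_mul_pi]; ring
  · intro s hs
    rw [uIcc_of_le Real.pi_pos.le] at hs
    have e1 := (hsin s).mul (d1 s hs.1 hs.2)
    have e2 := ((hcos s).mul (d0 s hs.1 hs.2)).const_mul (k : ℝ)
    refine (e1.sub e2).congr_deriv ?_
    ring
  · apply ContinuousOn.intervalIntegrable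
    rw [uIcc_of_le Real.pi_pos.le]
    exact (by fun_prop : Continuous fun s : ℝ => Real.sin (k * s)).continuousOn.mul
      (c2.add (continuousOn_const.mul c0))

end

end Pool.Agent.W738.CP
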