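import Mathlib
import Pool.Agent.W738.CP.Stms

open MeasureTheory Set Filter Topology

namespace Pool.Agent.W738.CP

theorem int_cos (j : ℤ) (hj : j ≠ 0) : ∫ s in (0 : ℝ)..Real.pi, Real.cos (j * s) = 0 := by
  have hj' : (j : ℝ) ≠ 0 := by exact_mod_cast hj
  rw [intervalIntegral.integral_comp_mul_left (fun x => Real.cos x) hj', integral_cos]
  simp only [mul_zero, Real.sin_zero, sub_zero, smul_eq_mul]
  rw [Real.sin_int_mul_pi]; simp

theorem orth (m n : ℕ) :
    ∫ s in (0 : ℝ)..Real.pi, Real.sin ((m + 1 : ℕ) * s) * Real.sin ((n + 1 : ℕ) * s) =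
      if m = n then Real.pi / 2 else 0 := by
  have e : ∀ s : ℝ, Real.sin ((m + 1 : ℕ) * s) * Real.sin ((n + 1 : ℕ) * s) =
      (1 / 2) * (Real.cos (((m : ℤ) - n : ℤ) * s) - Real.cos (((m : ℤ) + n + 2 : ℤ) * s)) := by
    intro s
    have h1 : ((((m : ℤ) - n : ℤ) : ℝ) * s) = (m + 1 : ℕ) * s - (n + 1 : ℕ) * s := by
      push_cast; ring
    have h2 : ((((m : ℤ) + n + 2 : ℤ) : ℝ) * s) = (m + 1 : ℕ) * s + (n + 1 : ℕ) * s := by
      push_cast; ring
    rw [h1, h2, Real.cos_sub, Real.cos_add]; ring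
  simp_rw [e]
  have i1 : IntervalIntegrable (fun s : ℝ => Real.cos ((((m : ℤ) - n : ℤ) : ℝ) * s)) volume 0 Real.pi :=
    (by fun_prop : Continuous fun s : ℝ => Real.cos ((((m : ℤ) - n : ℤ) : ℝ) * s)).intervalIntegrable _ _
  have i2 : IntervalIntegrable (fun s : ℝ => Real.cos ((((m : ℤ) + n + 2 : ℤ) : ℝ) * s)) volume 0 Real.pi :=
    (by fun_prop : Continuous fun s : ℝ => Real.cos ((((m : ℤ) + n + 2 : ℤ) : ℝ) * s)).intervalIntegrable _ _
  rw [intervalIntegral.integral_const_mul, intervalIntegral.integral_sub i1 i2,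
    int_cos ((m : ℤ) + n + 2) (by positivity)]
  split_ifs with h
  · subst h
    simp
    ring
  · rw [int_cos ((m : ℤ) - n) (by intro h'; apply h; omega)]
    simp

/-- the sum of a sine series -/
noncomputable def sser (a : ℕ → ℂ) (s : ℝ) : ℂ :=
  ∑' n, (2 / Real.pi : ℂ) * a n * (Real.sin ((n + 1 : ℕ) * s) : ℂ)

section
variable {a : ℕ → ℂ} {B : ℕ → ℝ} (hB : Summable B) (ha : ∀ n, ‖a n‖ ≤ B n)
include hB ha

theorem sser_term (n : ℕ) (s : ℝ) :
    ‖(2 / Real.pi : ℂ) * a n * (Real.sin ((n + 1 : ℕ) * s) : ℂ)‖ ≤ B n := by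
  rw [norm_mul, norm_mul, Complex.norm_real, Real.norm_eq_abs, norm_div, Complex.norm_real,
    Real.norm_eq_abs, abs_of_pos Real.pi_pos]
  have h1 := Real.abs_sin_le_one ((n + 1 : ℕ) * s)
  have h2 : ‖(2 : ℂ)‖ / Real.pi ≤ 1 := by
    rw [Complex.norm_ofNat, div_le_one Real.pi_pos]; linarith [Real.pi_gt_three]
  have h3 : 0 ≤ ‖(2 : ℂ)‖ / Real.pi := by positivity
  have h4 := norm_nonneg (a n)
  calc ‖(2 : ℂ)‖ / Real.pi * ‖a n‖ * |Real.sin ((n + 1 : ℕ) * s)|
      ≤ 1 * ‖a n‖ * 1 := by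
        apply mul_le_mul _ h1 (abs_nonneg _) (by positivity)
        exact mul_le_mul_of_nonneg_right h2 h4
    _ ≤ B n := by rw [one_mul, mul_one]; exact ha n

theorem sser_norm (s : ℝ) : ‖sser a s‖ ≤ ∑' n, B n := by
  unfold sser
  refine (norm_tsum_le_tsum_norm ?_).trans ?_
  · exact Summable.of_nonneg_of_le (fun _ => norm_nonneg _) (fun n => sser_term hB ha n s) hB
  · exact Summable.tsum_le_tsum (fun n => sser_term hB ha n s)
      (Summable.of_nonneg_of_le (fun _ => norm_nonneg _) (fun n => sser_term hB ha n s) hB) hB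

theorem sser_cont : Continuous (sser a) := by
  unfold sser
  refine continuous_tsum (fun n => by fun_prop) hB (fun n s => sser_term hB ha n s)

theorem sser_coef (k : ℕ) : ∫ s in Ioo 0 Real.pi, sser a s * (Real.sin ((k + 1 : ℕ) * s) : ℂ) = a k := by
  have hfin : IsFiniteMeasure (volume.restrict (Ioo 0 Real.pi)) := ⟨by
    rw [Measure.restrict_apply_univ, Real.volume_Ioo]; exact ENNReal.ofReal_lt_top⟩
  have h1 : ∀ s, sser a s * (Real.sin ((k + 1 : ℕ) * s) : ℂ) =
      ∑' n, ((2 / Real.pi : ℂ) * a n * (Real.sin ((n + 1 : ℕ) * s) : ℂ)) *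
        (Real.sin ((k + 1 : ℕ) * s) : ℂ) := fun s => tsum_mul_right.symm
  simp_rw [h1]
  have hbd : ∀ n s, ‖((2 / Real.pi : ℂ) * a n * (Real.sin ((n + 1 : ℕ) * s) : ℂ)) *
        (Real.sin ((k + 1 : ℕ) * s) : ℂ)‖ ≤ B n := by
    intro n s
    rw [norm_mul]
    have h2 := sser_term hB ha n s
    have h3 : ‖(Real.sin ((k + 1 : ℕ) * s) : ℂ)‖ ≤ 1 := by
      rw [Complex.norm_real]; exact Real.abs_sin_le_one _
    calc _ ≤ B n * 1 := mul_le_mul h2 h3 (norm_nonneg _) ((norm_nonneg _).trans h2)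
      _ = B n := mul_one _
  have hc : ∀ n, Continuous fun s : ℝ => ((2 / Real.pi : ℂ) * a n * (Real.sin ((n + 1 : ℕ) * s) : ℂ)) *
        (Real.sin ((k + 1 : ℕ) * s) : ℂ) := fun n => by fun_prop
  have hi : ∀ n, Integrable (fun s : ℝ => ((2 / Real.pi : ℂ) * a n *
      (Real.sin ((n + 1 : ℕ) * s) : ℂ)) * (Real.sin ((k + 1 : ℕ) * s) : ℂ))
      (volume.restrict (Ioo 0 Real.pi)) := by
    intro n
    refine Integrable.mono' (integrable_const (B n)) (hc n).aestronglyMeasurable ?_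
    exact Eventually.of_forall fun s => hbd n s
  have hs : Summable fun n => ∫ s in Ioo 0 Real.pi, ‖((2 / Real.pi : ℂ) * a n *
      (Real.sin ((n + 1 : ℕ) * s) : ℂ)) * (Real.sin ((k + 1 : ℕ) * s) : ℂ)‖ := by
    refine Summable.of_nonneg_of_le (fun n => integral_nonneg fun _ => norm_nonneg _)
      (fun n => ?_) (hB.mul_left Real.pi)
    calc ∫ s in Ioo 0 Real.pi, ‖((2 / Real.pi : ℂ) * a n *
      (Real.sin ((n + 1 : ℕ) * s) : ℂ)) * (Real.sin ((k + 1 : ℕ) * s) : ℂ)‖
        ≤ ∫ _s in Ioo 0 Real.pi, B n :=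
          integral_mono (hi n).norm (integrable_const _) (fun s => hbd n s)
      _ = Real.pi * B n := by
          rw [setIntegral_const, measureReal_def, Real.volume_Ioo,
            ENNReal.toReal_ofReal (by linarith [Real.pi_pos])]
          simp
  rw [← (hasSum_integral_of_summable_integral_norm hi hs).tsum_eq]
  have e1 : ∀ n, ∫ s in Ioo 0 Real.pi, ((2 / Real.pi : ℂ) * a n *
      (Real.sin ((n + 1 : ℕ) * s) : ℂ)) * (Real.sin ((k + 1 : ℕ) * s) : ℂ) =
      if n = k then a k else 0 := by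
    intro n
    have e2 : ∀ s : ℝ, ((2 / Real.pi : ℂ) * a n *
      (Real.sin ((n + 1 : ℕ) * s) : ℂ)) * (Real.sin ((k + 1 : ℕ) * s) : ℂ) =
      ((2 / Real.pi : ℂ) * a n) * ((Real.sin ((n + 1 : ℕ) * s) * Real.sin ((k + 1 : ℕ) * s) : ℝ) : ℂ) := by
      intro s; push_cast; ring
    simp_rw [e2]
    rw [integral_const_mul, integral_complex_ofReal, ← integral_Ioc_eq_integral_Ioo,
      ← intervalIntegral.integral_of_le Real.pi_pos.le, orth]
    split_ifs with h
    · subst h
      have := Real.pi_ne_zero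
      push_cast
      have h5 : (Real.pi : ℂ) ≠ 0 := by exact_mod_cast this
      field_simp
    · simp
  simp_rw [e1]
  rw [tsum_ite_eq]

/-- a square integrable function with the same sine coefficients is the sum of the series -/
theorem eq_sser (hSine : S_Sine) {f : ℝ → ℂ} (hf : MemLp f 2 (volume.restrict (Ioo 0 Real.pi)))
    (hc : ∀ n : ℕ, ∫ s in Ioo 0 Real.pi, f s * (Real.sin ((n + 1 : ℕ) * s) : ℂ) = a n) :
    ∀ᵐ s ∂(volume.restrict (Ioo 0 Real.pi)), f s = sser a s := by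
  have hfin : IsFiniteMeasure (volume.restrict (Ioo 0 Real.pi)) := ⟨by
    rw [Measure.restrict_apply_univ, Real.volume_Ioo]; exact ENNReal.ofReal_lt_top⟩
  have hg : MemLp (sser a) 2 (volume.restrict (Ioo 0 Real.pi)) :=
    MemLp.of_bound (sser_cont hB ha).aestronglyMeasurable (∑' n, B n)
      (Eventually.of_forall fun s => sser_norm hB ha s)
  have h := hSine (fun s => f s - sser a s) (hf.sub hg) ?_
  · filter_upwards [h] with s hs
    exact sub_eq_zero.mp hs
  · intro k hk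
    obtain ⟨n, rfl⟩ : ∃ n, k = n + 1 := ⟨k - 1, by omega⟩
    have i1 : Integrable (fun s => f s * (Real.sin ((n + 1 : ℕ) * s) : ℂ))
        (volume.restrict (Ioo 0 Real.pi)) := by
      refine Integrable.mul_bdd (c := 1) (hf.integrable (by norm_num)) ?_ ?_
      · exact (by fun_prop : Measurable fun s : ℝ => (Real.sin ((n + 1 : ℕ) * s) : ℂ)).aestronglyMeasurable
      · refine Eventually.of_forall fun p => ?_
        rw [Complex.norm_real, Real.norm_eq_abs]
        exact Real.abs_sin_le_one _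
    have i2 : Integrable (fun s => sser a s * (Real.sin ((n + 1 : ℕ) * s) : ℂ))
        (volume.restrict (Ioo 0 Real.pi)) := by
      refine Integrable.mul_bdd (c := 1) (hg.integrable (by norm_num)) ?_ ?_
      · exact (by fun_prop : Measurable fun s : ℝ => (Real.sin ((n + 1 : ℕ) * s) : ℂ)).aestronglyMeasurable
      · refine Eventually.of_forall fun p => ?_
        rw [Complex.norm_real, Real.norm_eq_abs]
        exact Real.abs_sin_le_one _
    simp_rw [sub_mul]
    rw [integral_sub i1 i2, hc n, sser_coef hB ha n, sub_self]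

end

end Pool.Agent.W738.CP
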