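import Mathlib
import Pool.Agent.W738.CP.Mode
import Pool.Agent.W738.CP.Series

open MeasureTheory Set Filter Topology InnerProductSpace Laplacian
open scoped ContDiff

namespace Pool.Agent.W738.CP

/-- data of a test function in strip coordinates -/
structure TF (b : ℝ) (Ψ : ℝ → ℝ → ℝ) where
  Pt : ℝ → ℝ → ℝ
  Ps : ℝ → ℝ → ℝ
  Ptt : ℝ → ℝ → ℝ
  Pss : ℝ → ℝ → ℝ
  M : ℝ
  dt : ∀ t s, 0 ≤ s → s ≤ Real.pi → HasDerivAt (fun τ => Ψ τ s) (Pt t s) t
  dtt : ∀ t s, 0 ≤ s → s ≤ Real.pi → HasDerivAt (fun τ => Pt τ s) (Ptt t s) t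
  ds : ∀ t s, 0 ≤ s → s ≤ Real.pi → HasDerivAt (fun σ => Ψ t σ) (Ps t s) s
  dss : ∀ t s, 0 ≤ s → s ≤ Real.pi → HasDerivAt (fun σ => Ps t σ) (Pss t s) s
  c0 : ContinuousOn (fun p : ℝ × ℝ => Ψ p.1 p.2) (univ ×ˢ Icc 0 Real.pi)
  ctt : ContinuousOn (fun p : ℝ × ℝ => Ptt p.1 p.2) (univ ×ˢ Icc 0 Real.pi)
  css : ContinuousOn (fun p : ℝ × ℝ => Pss p.1 p.2) (univ ×ˢ Icc 0 Real.pi)
  b0 : ∀ t s, 0 ≤ s → s ≤ Real.pi → |Ψ t s| ≤ M
  bt : ∀ t s, 0 ≤ s → s ≤ Real.pi → |Pt t s| ≤ M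
  btt : ∀ t s, 0 ≤ s → s ≤ Real.pi → |Ptt t s| ≤ M
  bss : ∀ t s, 0 ≤ s → s ≤ Real.pi → |Pss t s| ≤ M
  z0 : ∀ t, t ≤ b → Ψ t 0 = 0
  z1 : ∀ t, t ≤ b → Ψ t Real.pi = 0

theorem St_sub : St ⊆ (univ ×ˢ Icc 0 Real.pi : Set (ℝ × ℝ)) :=
  prod_mono le_rfl Ioo_subset_Icc_self

theorem St_meas : MeasurableSet St := MeasurableSet.univ.prod measurableSet_Ioo

theorem cont_meas {F : ℝ × ℝ → ℝ} (h : ContinuousOn F (univ ×ˢ Icc 0 Real.pi)) :
    AEStronglyMeasurable F (volume.restrict St) :=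
  (h.mono St_sub).aestronglyMeasurable St_meas

theorem env_St {b : ℝ} (hb : 0 < b) :
    Integrable (fun p : ℝ × ℝ => env b p.1) (volume.restrict St) := by
  rw [St, prod_restr, Measure.restrict_univ]
  have hfin : IsFiniteMeasure (volume.restrict (Ioo 0 Real.pi)) := ⟨by
    rw [Measure.restrict_apply_univ, Real.volume_Ioo]; exact ENNReal.ofReal_lt_top⟩
  exact (env_int hb).comp_fst _

section
variable {b : ℝ} {k : ℕ} {P S : ℝ → ℝ} {Ψ : ℝ → ℝ → ℝ}

/-- the integrand of mode `k` -/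
noncomputable def fk (p : Pair b k P S) (T : TF b Ψ) (r : ℝ × ℝ) : ℝ :=
  Real.sin (k * r.2) * ((P r.1 - S r.1) * p.x r.1 * Ψ r.1 r.2 +
    (T.Ptt r.1 r.2 + T.Pss r.1 r.2 - S r.1 * Ψ r.1 r.2) * (p.y r.1 - p.x r.1))

theorem fk_meas (p : Pair b k P S) (T : TF b Ψ) (hPm : Measurable P) (hSm : Measurable S) :
    AEStronglyMeasurable (fk p T) (volume.restrict St) := by
  unfold fk
  have m1 : AEStronglyMeasurable (fun r : ℝ × ℝ => Real.sin (k * r.2)) (volume.restrict St) :=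
    (by fun_prop : Measurable fun r : ℝ × ℝ => Real.sin (k * r.2)).aestronglyMeasurable
  have m2 : AEStronglyMeasurable (fun r : ℝ × ℝ => (P r.1 - S r.1) * p.x r.1) (volume.restrict St) :=
    (((hPm.comp measurable_fst).sub (hSm.comp measurable_fst)).mul
      ((x_cont p).measurable.comp measurable_fst)).aestronglyMeasurable
  have m3 : AEStronglyMeasurable (fun r : ℝ × ℝ => S r.1) (volume.restrict St) :=
    (hSm.comp measurable_fst).aestronglyMeasurable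
  have m4 : AEStronglyMeasurable (fun r : ℝ × ℝ => p.y r.1 - p.x r.1) (volume.restrict St) :=
    (((y_cont p).measurable.comp measurable_fst).sub
      ((x_cont p).measurable.comp measurable_fst)).aestronglyMeasurable
  exact m1.mul ((m2.mul (cont_meas T.c0)).add
    ((((cont_meas T.ctt).add (cont_meas T.css)).sub (m3.mul (cont_meas T.c0))).mul m4))

theorem TF.M_nonneg (T : TF b Ψ) : 0 ≤ T.M :=
  (abs_nonneg _).trans (T.b0 0 0 le_rfl Real.pi_pos.le)

theorem fk_bound (hk : 1 ≤ k) (hb : 0 < b) (p : Pair b k P S) (T : TF b Ψ)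
    (hPS : ∀ t, t < -b ∨ b < t → P t = S t) (hP : ∀ t, |P t| ≤ 1) (hS : ∀ t, |S t| ≤ 1)
    {r : ℝ × ℝ} (hr : r ∈ St) :
    |fk p T r| ≤ (5 * T.M) * (p.A * Real.exp (k * b) * env b r.1) := by
  have h0 := hr.2.1.le
  have h1 := hr.2.2.le
  have hM := T.M_nonneg
  unfold fk
  rw [abs_mul]
  have g1 := Real.abs_sin_le_one (k * r.2)
  have g2 := x_env hk p hPS hP hS r.1
  have g3 := V_env hk hb p r.1
  have g0 : 0 ≤ p.A * Real.exp (k * b) * env b r.1 := (abs_nonneg _).trans g3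
  have g4 : |(P r.1 - S r.1) * p.x r.1 * Ψ r.1 r.2| ≤
      2 * (p.A * Real.exp (k * b) * env b r.1) * T.M := by
    rw [abs_mul]
    exact mul_le_mul g2 (T.b0 _ _ h0 h1) (abs_nonneg _) (by positivity)
  have g5 : |T.Ptt r.1 r.2 + T.Pss r.1 r.2 - S r.1 * Ψ r.1 r.2| ≤ 3 * T.M := by
    have e1 := T.btt r.1 r.2 h0 h1
    have e2 := T.bss r.1 r.2 h0 h1
    have e3 := T.b0 r.1 r.2 h0 h1
    have e4 : |S r.1 * Ψ r.1 r.2| ≤ T.M := by
      rw [abs_mul]
      calc |S r.1| * |Ψ r.1 r.2| ≤ 1 * T.M := mul_le_mul (hS _) e3 (abs_nonneg _) zero_le_one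
        _ = T.M := one_mul _
    calc |T.Ptt r.1 r.2 + T.Pss r.1 r.2 - S r.1 * Ψ r.1 r.2|
        ≤ |T.Ptt r.1 r.2 + T.Pss r.1 r.2| + |S r.1 * Ψ r.1 r.2| := abs_sub _ _
      _ ≤ (|T.Ptt r.1 r.2| + |T.Pss r.1 r.2|) + |S r.1 * Ψ r.1 r.2| := by
          gcongr; exact abs_add_le _ _
      _ ≤ 3 * T.M := by linarith
  have g6 : |(T.Ptt r.1 r.2 + T.Pss r.1 r.2 - S r.1 * Ψ r.1 r.2) * (p.y r.1 - p.x r.1)| ≤
      3 * T.M * (p.A * Real.exp (k * b) * env b r.1) := by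
    rw [abs_mul]
    exact mul_le_mul g5 g3 (abs_nonneg _) (by positivity)
  have g7 := (abs_add_le ((P r.1 - S r.1) * p.x r.1 * Ψ r.1 r.2)
    ((T.Ptt r.1 r.2 + T.Pss r.1 r.2 - S r.1 * Ψ r.1 r.2) * (p.y r.1 - p.x r.1)))
  calc |Real.sin (k * r.2)| * |(P r.1 - S r.1) * p.x r.1 * Ψ r.1 r.2 +
    (T.Ptt r.1 r.2 + T.Pss r.1 r.2 - S r.1 * Ψ r.1 r.2) * (p.y r.1 - p.x r.1)|
      ≤ 1 * (2 * (p.A * Real.exp (k * b) * env b r.1) * T.M +
        3 * T.M * (p.A * Real.exp (k * b) * env b r.1)) := by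
        apply mul_le_mul g1 _ (abs_nonneg _) zero_le_one
        linarith
    _ = _ := by ring

theorem fk_int (hk : 1 ≤ k) (hb : 0 < b) (p : Pair b k P S) (T : TF b Ψ)
    (hPS : ∀ t, t < -b ∨ b < t → P t = S t) (hP : ∀ t, |P t| ≤ 1) (hS : ∀ t, |S t| ≤ 1)
    (hPm : Measurable P) (hSm : Measurable S) :
    Integrable (fk p T) (volume.restrict St) := by
  refine Integrable.mono' ((env_St hb).const_mul ((5 * T.M) * (p.A * Real.exp (k * b))))
    (fk_meas p T hPm hSm) ?_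
  filter_upwards [ae_restrict_mem St_meas] with r hr
  rw [Real.norm_eq_abs]
  refine (fk_bound hk hb p T hPS hP hS hr).trans (le_of_eq ?_)
  ring

/-- the orthogonality identity, mode by mode -/
theorem mode_id (hk : 1 ≤ k) (hb : 0 < b) (p : Pair b k P S) (T : TF b Ψ)
    (hPS : ∀ t, t < -b ∨ b < t → P t = S t) (hP : ∀ t, |P t| ≤ 1) (hS : ∀ t, |S t| ≤ 1)
    (hPm : Measurable P) (hSm : Measurable S) :
    ∫ r in St, fk p T r = 0 := by
  have hM := T.M_nonneg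
  set F1 : ℝ × ℝ → ℝ := fun r => Real.sin (k * r.2) *
    ((p.y r.1 - p.x r.1) * T.Ptt r.1 r.2 - V2 p r.1 * Ψ r.1 r.2) with hF1
  set F2 : ℝ × ℝ → ℝ := fun r => (p.y r.1 - p.x r.1) *
    (Real.sin (k * r.2) * (T.Pss r.1 r.2 + (k : ℝ) ^ 2 * Ψ r.1 r.2)) with hF2
  have hsum : ∀ r, fk p T r = F1 r + F2 r := by
    intro r
    simp only [fk, hF1, hF2, V2_eq]
    ring
  have m1 : AEStronglyMeasurable (fun r : ℝ × ℝ => Real.sin (k * r.2)) (volume.restrict St) :=
    (by fun_prop : Measurable fun r : ℝ × ℝ => Real.sin (k * r.2)).aestronglyMeasurable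
  have m4 : AEStronglyMeasurable (fun r : ℝ × ℝ => p.y r.1 - p.x r.1) (volume.restrict St) :=
    (((y_cont p).measurable.comp measurable_fst).sub
      ((x_cont p).measurable.comp measurable_fst)).aestronglyMeasurable
  have hi2 : Integrable F2 (volume.restrict St) := by
    refine Integrable.mono' ((env_St hb).const_mul
      ((p.A * Real.exp (k * b)) * ((1 + (k : ℝ) ^ 2) * T.M))) ?_ ?_
    · exact m4.mul (m1.mul ((cont_meas T.css).add ((cont_meas T.c0).const_mul _)))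
    · filter_upwards [ae_restrict_mem St_meas] with r hr
      have h0 := hr.2.1.le
      have h1 := hr.2.2.le
      rw [Real.norm_eq_abs, hF2]
      simp only
      rw [abs_mul, abs_mul]
      have g1 := V_env hk hb p r.1
      have g0 : 0 ≤ p.A * Real.exp (k * b) * env b r.1 := (abs_nonneg _).trans g1
      have g2 := Real.abs_sin_le_one (k * r.2)
      have g3 : |T.Pss r.1 r.2 + (k : ℝ) ^ 2 * Ψ r.1 r.2| ≤ (1 + (k : ℝ) ^ 2) * T.M := by
        refine (abs_add_le _ _).trans ?_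
        rw [abs_mul, abs_of_nonneg (by positivity : (0 : ℝ) ≤ (k : ℝ) ^ 2)]
        have e1 := T.bss r.1 r.2 h0 h1
        have e2 := T.b0 r.1 r.2 h0 h1
        nlinarith [sq_nonneg (k : ℝ)]
      calc |p.y r.1 - p.x r.1| * (|Real.sin (k * r.2)| * |T.Pss r.1 r.2 + (k : ℝ) ^ 2 * Ψ r.1 r.2|)
          ≤ (p.A * Real.exp (k * b) * env b r.1) * (1 * ((1 + (k : ℝ) ^ 2) * T.M)) := by
            apply mul_le_mul g1 _ (by positivity) g0
            exact mul_le_mul g2 g3 (abs_nonneg _) zero_le_one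
        _ = _ := by ring
  have hi1 : Integrable F1 (volume.restrict St) := by
    have : F1 = fun r => fk p T r - F2 r := by ext r; rw [hsum]; ring
    rw [this]
    exact (fk_int hk hb p T hPS hP hS hPm hSm).sub hi2
  have e0 : ∫ r in St, fk p T r = (∫ r in St, F1 r) + ∫ r in St, F2 r := by
    simp_rw [hsum]
    exact integral_add hi1 hi2
  rw [e0]
  have e1 : ∫ r in St, F1 r = 0 := by
    rw [St, prod_restr, Measure.restrict_univ] at hi1 ⊢
    rw [integral_prod_symm _ hi1]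
    apply integral_eq_zero_of_ae
    filter_upwards [ae_restrict_mem measurableSet_Ioo] with s hs
    simp only [hF1, Pi.zero_apply]
    rw [integral_const_mul]
    have c2 : Continuous fun t => T.Ptt t s := by
      have : ContinuousOn (fun t : ℝ => T.Ptt t s) univ := by
        refine T.ctt.comp (f := fun t : ℝ => (t, s)) (by fun_prop) ?_
        intro t _
        exact ⟨mem_univ _, hs.1.le, hs.2.le⟩
      exact continuousOn_univ.mp this
    rw [tint hk hb p hPS hP hS hPm hSm (fun t => T.dt t s hs.1.le hs.2.le)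
      (fun t => T.dtt t s hs.1.le hs.2.le) c2 (fun t => T.b0 t s hs.1.le hs.2.le)
      (fun t => T.bt t s hs.1.le hs.2.le) (fun t => T.btt t s hs.1.le hs.2.le), mul_zero]
  have e2 : ∫ r in St, F2 r = 0 := by
    rw [St, prod_restr, Measure.restrict_univ] at hi2 ⊢
    rw [integral_prod _ hi2]
    apply integral_eq_zero_of_ae
    refine Eventually.of_forall fun t => ?_
    simp only [hF2, Pi.zero_apply]
    rw [integral_const_mul]
    rcases le_or_gt t b with h | h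
    · have c2 : ContinuousOn (fun s => T.Pss t s) (Icc 0 Real.pi) := by
        refine T.css.comp (f := fun s : ℝ => (t, s)) (by fun_prop) ?_
        intro s hs
        exact ⟨mem_univ _, hs⟩
      rw [sint k (fun s h0 h1 => T.ds t s h0 h1) (fun s h0 h1 => T.dss t s h0 h1) c2
        (T.z0 t h) (T.z1 t h), mul_zero]
    · rw [p.eqr t h.le]; ring
  rw [e1, e2, add_zero]

end

end Pool.Agent.W738.CP
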