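import Mathlib
import Pool.Agent.W738.CP.Strip
import Pool.Agent.W738.CP.Coef

open MeasureTheory Set Filter Topology InnerProductSpace Laplacian
open scoped ContDiff

namespace Pool.Agent.W738.CP

theorem sser_meas {X : Type*} [MeasurableSpace X] {c : ℕ → X → ℂ} {σ : X → ℝ} {B : ℕ → ℝ}
    (hc : ∀ n, Measurable (c n)) (hσ : Measurable σ) (hB : Summable B)
    (hb : ∀ n x, ‖c n x‖ ≤ B n) : Measurable (fun x => sser (fun n => c n x) (σ x)) := by
  have h1 : ∀ n, Measurable (fun x => (2 / Real.pi : ℂ) * c n x *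
      (Real.sin ((n + 1 : ℕ) * σ x) : ℂ)) := by
    intro n
    refine (measurable_const.mul (hc n)).mul ?_
    exact Complex.measurable_ofReal.comp (Real.measurable_sin.comp (measurable_const.mul hσ))
  refine measurable_of_tendsto_metrizable (f := fun N x => ∑ n ∈ Finset.range N,
    (2 / Real.pi : ℂ) * c n x * (Real.sin ((n + 1 : ℕ) * σ x) : ℂ))
    (fun N => Finset.measurable_sum _ fun n _ => h1 n) ?_
  rw [tendsto_pi_nhds]
  intro x
  have h2 : Summable fun n => (2 / Real.pi : ℂ) * c n x * (Real.sin ((n + 1 : ℕ) * σ x) : ℂ) :=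
    Summable.of_norm_bounded hB (fun n => sser_term hB (fun n => hb n x) n (σ x))
  exact h2.hasSum.tendsto_sum_nat

theorem tanh_mono {s t : ℝ} (h : s ≤ t) : Real.tanh s ≤ Real.tanh t := by
  have h1 := tanh_rel s
  have h2 := tanh_rel t
  have h3 : Real.exp (2 * s) ≤ Real.exp (2 * t) := Real.exp_le_exp.mpr (by linarith)
  by_contra hc
  push Not at hc
  have h4 : 0 < 1 - Real.tanh s := by linarith [Real.tanh_lt_one s]
  have h5 : 1 - Real.tanh s < 1 - Real.tanh t := by linarith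
  have h6 : 0 < Real.exp (2 * s) := Real.exp_pos _
  nlinarith

theorem Z_cont : ContinuousOn (fun p : ℝ × ℝ => Z p.1 p.2) (univ ×ˢ Icc 0 Real.pi) := by
  intro p hp
  apply ContinuousAt.continuousWithinAt
  have h := om_add_ne (t := p.1) (s := p.2) hp.2.1 hp.2.2
  unfold Z
  exact ContinuousAt.div (by fun_prop) (by fun_prop) h

/-- a test function in strip coordinates -/
theorem exists_TF (hLap : S_Lap) {b : ℝ} {φ : ℂ → ℝ} (hφ : ContDiff ℝ ∞ φ)
    (hz : ∀ z ∈ Metric.sphere (0 : ℂ) 1, z.re ≤ Real.tanh b → φ z = 0) :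
    ∃ T : TF b (fun t s => φ (Z t s)), ∀ t s, 0 ≤ s → s ≤ Real.pi →
      T.Ptt t s + T.Pss t s = J t s * (Δ φ) (Z t s) := by
  obtain ⟨Pt, Ps, Ptt, Pss, hd, _, _, c3, c4, M, hM⟩ := hLap φ hφ
  refine ⟨⟨Pt, Ps, Ptt, Pss, M, ?_, ?_, ?_, ?_, ?_, c3, c4, ?_, ?_, ?_, ?_, ?_, ?_⟩,
    fun t s h0 h1 => (hd t s h0 h1).2.2.2.2⟩
  · exact fun t s h0 h1 => (hd t s h0 h1).1
  · exact fun t s h0 h1 => (hd t s h0 h1).2.1
  · exact fun t s h0 h1 => (hd t s h0 h1).2.2.1
  · exact fun t s h0 h1 => (hd t s h0 h1).2.2.2.1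
  · exact hφ.continuous.comp_continuousOn Z_cont
  · exact fun t s h0 h1 => (hM t s h0 h1).1
  · exact fun t s h0 h1 => (hM t s h0 h1).2.1
  · exact fun t s h0 h1 => (hM t s h0 h1).2.2.2.1
  · exact fun t s h0 h1 => (hM t s h0 h1).2.2.2.2
  · intro t ht
    have := Z_bd (t := t) Real.sin_zero le_rfl Real.pi_pos.le
    exact hz _ (by simpa using this.1) (by rw [this.2]; exact tanh_mono ht)
  · intro t ht
    have := Z_bd (t := t) Real.sin_pi Real.pi_pos.le le_rfl
    exact hz _ (by simpa using this.1) (by rw [this.2]; exact tanh_mono ht)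

theorem lap_cont {φ : ℂ → ℝ} (hφ : ContDiff ℝ ∞ φ) : Continuous (Δ φ) := by
  rw [laplacian_eq_iteratedFDeriv_complexPlane]
  have h2 : ContDiff ℝ 2 φ := by exact_mod_cast contDiff_infty.mp hφ 2
  have h := h2.continuous_iteratedFDeriv (m := 2) le_rfl
  exact (h.eval_const _).add (h.eval_const _)

theorem ball_fin : IsFiniteMeasure (volume.restrict (Metric.ball (0 : ℂ) 1)) := ⟨by
  rw [Measure.restrict_apply_univ]; exact measure_ball_lt_top⟩

theorem int_mul {F : ℂ → ℝ} {w : ℂ → ℂ} (hF : Measurable F) {B : ℝ}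
    (hB : ∀ z ∈ Metric.ball (0 : ℂ) 1, |F z| ≤ B)
    (hw : MemLp w 2 (volume.restrict (Metric.ball (0 : ℂ) 1))) :
    IntegrableOn (fun z => (F z : ℂ) * w z) (Metric.ball (0 : ℂ) 1) := by
  have := ball_fin
  refine Integrable.bdd_mul (c := B) (hw.integrable (by norm_num)) ?_ ?_
  · exact (Complex.measurable_ofReal.comp hF).aestronglyMeasurable
  · filter_upwards [ae_restrict_mem measurableSet_ball] with z hz
    rw [Complex.norm_real, Real.norm_eq_abs]
    exact hB z hz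

theorem transfer (hCV : S_CV) (hAE : S_CVae) (hLap : S_Lap) (hTest : S_Test) (hWeak : S_Weak)
    (hSine : S_Sine) {b : ℝ} (hb : 0 < b) {q q' : ℂ → ℝ} {P S : ℝ → ℝ}
    (hq : ∀ t s, 0 ≤ s → s ≤ Real.pi → J t s * q (Z t s) = P t)
    (hq' : ∀ t s, 0 ≤ s → s ≤ Real.pi → J t s * q' (Z t s) = S t)
    (hqm : Measurable q) (hqm' : Measurable q') {Bq : ℝ} (hqb : ∀ z, |q z| ≤ Bq)
    (hqb' : ∀ z, |q' z| ≤ Bq)
    (hP : ∀ t, t ≠ -b → t ≠ 0 → t ≠ b → ContinuousAt P t)
    (hPm : Measurable P) (hSm : Measurable S) (hPb : ∀ t, |P t| ≤ 1) (hSb : ∀ t, |S t| ≤ 1)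
    (hPS : ∀ t, t < -b ∨ b < t → P t = S t) (pr : ∀ k : ℕ, 1 ≤ k → Pair b k P S)
    {u : ℂ → ℂ} (hu : MemLp u 2 (volume.restrict (Metric.ball (0 : ℂ) 1)))
    {K : Set ℂ} {δ : ℝ} (hδ : 0 < δ)
    (hK : ∀ z ∈ K, z ∈ Metric.sphere (0 : ℂ) 1 ∧ z.re ≤ Real.tanh (-b - δ))
    (hweak : ∀ φ : ℂ → ℝ, ContDiff ℝ ∞ φ → (∀ z ∈ Metric.sphere (0 : ℂ) 1, φ z = 0) →
      (∀ z ∈ K, ∀ᶠ y in 𝓝[Metric.sphere (0 : ℂ) 1] z, normalDeriv φ y = 0) → green q u φ = 0) :
    ∃ v : ℂ → ℂ, MemLp v 2 (volume.restrict (Metric.ball (0 : ℂ) 1)) ∧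
      ∀ φ : ℂ → ℝ, ContDiff ℝ ∞ φ →
        (∀ z ∈ Metric.sphere (0 : ℂ) 1, z.re ≤ Real.tanh b → φ z = 0) →
        green q' (fun z => u z + v z) φ = green q u φ := by
  obtain ⟨α, M, hM, hα⟩ := coef hCV hAE hLap hTest hWeak hq hb hP hPm hPb pr hu hδ hK hweak
  set p : ∀ n : ℕ, Pair b (n + 1) P S := fun n => pr (n + 1) (by omega) with hp
  set a : ℕ → ℂ := fun n => α (n + 1) with ha
  set B : ℕ → ℝ := fun n => M * Real.exp (-(δ / 2)) ^ (n + 1) with hB
  have hBs : Summable B := by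
    have h1 : Real.exp (-(δ / 2)) < 1 := by
      rw [← Real.exp_zero]; exact Real.exp_lt_exp.mpr (by linarith)
    have h2 := summable_geometric_of_lt_one (Real.exp_pos (-(δ / 2))).le h1
    exact ((summable_nat_add_iff 1).mpr h2).mul_left M
  have hB0 : ∀ n, 0 ≤ B n := fun n => by positivity
  have hcoef : ∀ n, ‖a n‖ * ((p n).A * Real.exp ((n + 1 : ℕ) * b)) ≤ B n := by
    intro n
    have h1 := (hα (n + 1) (by omega)).2
    have h2 : Real.exp (-(((n + 1 : ℕ) : ℝ) * (b + δ / 2))) * Real.exp ((n + 1 : ℕ) * b) =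
        Real.exp (-(δ / 2)) ^ (n + 1) := by
      rw [← Real.exp_add, ← Real.exp_nat_mul]; congr 1; push_cast; ring
    calc ‖a n‖ * ((p n).A * Real.exp ((n + 1 : ℕ) * b)) =
        (‖a n‖ * (p n).A) * Real.exp ((n + 1 : ℕ) * b) := by ring
      _ ≤ (M * Real.exp (-(((n + 1 : ℕ) : ℝ) * (b + δ / 2)))) * Real.exp ((n + 1 : ℕ) * b) :=
          mul_le_mul_of_nonneg_right h1 (Real.exp_pos _).le
      _ = B n := by rw [mul_assoc, h2]
  -- coefficient functions
  set cV : ℕ → ℝ → ℂ := fun n t => a n * (((p n).y t - (p n).x t : ℝ) : ℂ) with hcV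
  set cX : ℕ → ℝ → ℂ := fun n t => a n * (((P t - S t) * (p n).x t : ℝ) : ℂ) with hcX
  have env_le : ∀ t, env b t ≤ 1 := by
    intro t
    unfold env
    split_ifs with h1 h2
    · rw [← Real.exp_zero]; exact Real.exp_le_exp.mpr (by linarith)
    · exact le_rfl
    · norm_num
  have bV : ∀ n t, ‖cV n t‖ ≤ B n := by
    intro n t
    simp only [hcV, norm_mul, Complex.norm_real, Real.norm_eq_abs]
    have h1 := V_env (by omega) hb (p n) t
    calc ‖a n‖ * |(p n).y t - (p n).x t| ≤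
        ‖a n‖ * ((p n).A * Real.exp ((n + 1 : ℕ) * b) * env b t) :=
          mul_le_mul_of_nonneg_left h1 (norm_nonneg _)
      _ = (‖a n‖ * ((p n).A * Real.exp ((n + 1 : ℕ) * b))) * env b t := by ring
      _ ≤ B n * 1 := mul_le_mul (hcoef n) (env_le t) (env_nonneg b t) (hB0 n)
      _ = B n := mul_one _
  have bX : ∀ n t, ‖cX n t‖ ≤ 2 * B n := by
    intro n t
    simp only [hcX]
    rw [norm_mul, Complex.norm_real, Real.norm_eq_abs]
    have h1 := x_env (by omega) (p n) hPS hPb hSb t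
    calc ‖a n‖ * |(P t - S t) * (p n).x t| ≤
        ‖a n‖ * (2 * ((p n).A * Real.exp ((n + 1 : ℕ) * b) * env b t)) :=
          mul_le_mul_of_nonneg_left h1 (norm_nonneg _)
      _ = 2 * ((‖a n‖ * ((p n).A * Real.exp ((n + 1 : ℕ) * b))) * env b t) := by ring
      _ ≤ 2 * (B n * 1) := by
          apply mul_le_mul_of_nonneg_left _ zero_le_two
          exact mul_le_mul (hcoef n) (env_le t) (env_nonneg b t) (hB0 n)
      _ = 2 * B n := by rw [mul_one]
  have hBs2 : Summable fun n => 2 * B n := hBs.mul_left 2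
  have mV : ∀ n, Measurable (cV n) := fun n =>
    measurable_const.mul (Complex.measurable_ofReal.comp
      ((y_cont (p n)).measurable.sub (x_cont (p n)).measurable))
  have mX : ∀ n, Measurable (cX n) := fun n =>
    measurable_const.mul (Complex.measurable_ofReal.comp
      ((hPm.sub hSm).mul (x_cont (p n)).measurable))
  set v : ℂ → ℂ := fun z => sser (fun n => cV n (zt z)) (zs z) with hv
  have hvm : Measurable v :=
    sser_meas (c := fun n z => cV n (zt z)) (fun n => (mV n).comp zt_meas) zs_meas hBs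
      (fun n z => bV n _)
  have := ball_fin
  have hvL : MemLp v 2 (volume.restrict (Metric.ball (0 : ℂ) 1)) :=
    MemLp.of_bound hvm.aestronglyMeasurable (∑' n, B n)
      (Eventually.of_forall fun z => sser_norm hBs (fun n => bV n _) _)
  refine ⟨v, hvL, ?_⟩
  intro φ hφ hz
  obtain ⟨T, hT⟩ := exists_TF hLap hφ hz
  -- bounds in the disc
  obtain ⟨BL, hBL⟩ := (isCompact_closedBall (0 : ℂ) 1).exists_bound_of_continuousOn
    (lap_cont hφ).continuousOn
  obtain ⟨Bφ, hBφ⟩ := (isCompact_closedBall (0 : ℂ) 1).exists_bound_of_continuousOn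
    hφ.continuous.continuousOn
  have hBL' : ∀ z ∈ Metric.ball (0 : ℂ) 1, |(Δ φ) z| ≤ BL := fun z hz' => by
    have := hBL z (Metric.ball_subset_closedBall hz'); rwa [Real.norm_eq_abs] at this
  have hBφ' : ∀ z ∈ Metric.ball (0 : ℂ) 1, |φ z| ≤ Bφ := fun z hz' => by
    have := hBφ z (Metric.ball_subset_closedBall hz'); rwa [Real.norm_eq_abs] at this
  have hBq0 : 0 ≤ Bq := (abs_nonneg _).trans (hqb 0)
  have hmφ := hφ.continuous.measurable
  have bd1 : ∀ {r : ℂ → ℝ}, (∀ z, |r z| ≤ Bq) → ∀ z ∈ Metric.ball (0 : ℂ) 1,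
      |(Δ φ) z - r z * φ z| ≤ BL + Bq * Bφ := by
    intro r hr z hz'
    refine (abs_sub _ _).trans ?_
    rw [abs_mul]
    exact add_le_add (hBL' z hz') (mul_le_mul (hr z) (hBφ' z hz') (abs_nonneg _) hBq0)
  have iu : IntegrableOn (fun z => (((Δ φ) z - q z * φ z : ℝ) : ℂ) * u z) (Metric.ball (0 : ℂ) 1) :=
    int_mul ((lap_cont hφ).measurable.sub (hqm.mul hmφ)) (bd1 hqb) hu
  have iu' : IntegrableOn (fun z => (((Δ φ) z - q' z * φ z : ℝ) : ℂ) * u z)
      (Metric.ball (0 : ℂ) 1) :=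
    int_mul ((lap_cont hφ).measurable.sub (hqm'.mul hmφ)) (bd1 hqb') hu
  have iv' : IntegrableOn (fun z => (((Δ φ) z - q' z * φ z : ℝ) : ℂ) * v z)
      (Metric.ball (0 : ℂ) 1) :=
    int_mul ((lap_cont hφ).measurable.sub (hqm'.mul hmφ)) (bd1 hqb') hvL
  have idiff : IntegrableOn (fun z => (((q z - q' z) * φ z : ℝ) : ℂ) * u z)
      (Metric.ball (0 : ℂ) 1) := by
    refine (iu'.sub iu).congr (Eventually.of_forall fun z => ?_)
    simp only [Pi.sub_apply]
    push_cast; ring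
  have split : green q' (fun z => u z + v z) φ = green q u φ +
      ((∫ z in Metric.ball (0 : ℂ) 1, (((q z - q' z) * φ z : ℝ) : ℂ) * u z) + green q' v φ) := by
    unfold green
    calc ∫ z in Metric.ball (0 : ℂ) 1, (((Δ φ) z - q' z * φ z : ℝ) : ℂ) * (u z + v z)
        = ∫ z in Metric.ball (0 : ℂ) 1, ((((Δ φ) z - q z * φ z : ℝ) : ℂ) * u z +
          ((((q z - q' z) * φ z : ℝ) : ℂ) * u z + (((Δ φ) z - q' z * φ z : ℝ) : ℂ) * v z)) := by
          congr 1
          ext z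
          push_cast; ring
      _ = (∫ z in Metric.ball (0 : ℂ) 1, (((Δ φ) z - q z * φ z : ℝ) : ℂ) * u z) +
          ∫ z in Metric.ball (0 : ℂ) 1, ((((q z - q' z) * φ z : ℝ) : ℂ) * u z +
          (((Δ φ) z - q' z * φ z : ℝ) : ℂ) * v z) := integral_add iu (idiff.add iv')
      _ = _ := by rw [integral_add idiff iv']
  rw [split]
  -- transport to the strip
  have tA : (∫ z in Metric.ball (0 : ℂ) 1, (((q z - q' z) * φ z : ℝ) : ℂ) * u z) =
      ∫ r in St, (((P r.1 - S r.1) * φ (Z r.1 r.2) : ℝ) : ℂ) * u (Z r.1 r.2) := by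
    rw [(hCV _).1]
    apply setIntegral_congr_fun St_meas
    intro r hr
    have e1 := hq r.1 r.2 hr.2.1.le hr.2.2.le
    have e2 := hq' r.1 r.2 hr.2.1.le hr.2.2.le
    simp only
    rw [← e1, ← e2]
    push_cast; ring
  have itA : IntegrableOn (fun r : ℝ × ℝ =>
      (((P r.1 - S r.1) * φ (Z r.1 r.2) : ℝ) : ℂ) * u (Z r.1 r.2)) St := by
    refine ((hCV _).2.mp idiff).congr_fun ?_ St_meas
    intro r hr
    have e1 := hq r.1 r.2 hr.2.1.le hr.2.2.le
    have e2 := hq' r.1 r.2 hr.2.1.le hr.2.2.le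
    simp only
    rw [← e1, ← e2]
    push_cast; ring
  have tB : green q' v φ = ∫ r in St,
      ((T.Ptt r.1 r.2 + T.Pss r.1 r.2 - S r.1 * φ (Z r.1 r.2) : ℝ) : ℂ) *
        sser (fun n => cV n r.1) r.2 := by
    unfold green
    rw [(hCV _).1]
    apply setIntegral_congr_fun St_meas
    intro r hr
    have e1 := hT r.1 r.2 hr.2.1.le hr.2.2.le
    have e2 := hq' r.1 r.2 hr.2.1.le hr.2.2.le
    obtain ⟨e3, e4⟩ := inv_coord (t := r.1) hr.2.1 hr.2.2
    simp only [hv]
    rw [e1, ← e2, e3, e4]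
    push_cast; ring
  set X : ℝ × ℝ → ℂ := fun r => sser (fun n => cX n r.1) r.2 with hX
  set V : ℝ × ℝ → ℂ := fun r => sser (fun n => cV n r.1) r.2 with hV
  have mXX : Measurable X := sser_meas (c := fun n (r : ℝ × ℝ) => cX n r.1)
    (fun n => (mX n).comp measurable_fst) measurable_snd hBs2 (fun n r => bX n _)
  have mVV : Measurable V := sser_meas (c := fun n (r : ℝ × ℝ) => cV n r.1)
    (fun n => (mV n).comp measurable_fst) measurable_snd hBs (fun n r => bV n _)
  -- bounds with the envelope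
  have bX' : ∀ n t, ‖cX n t‖ ≤ (2 * B n) * env b t := by
    intro n t
    simp only [hcX]
    rw [norm_mul, Complex.norm_real, Real.norm_eq_abs]
    have h1 := x_env (by omega) (p n) hPS hPb hSb t
    calc ‖a n‖ * |(P t - S t) * (p n).x t| ≤
        ‖a n‖ * (2 * ((p n).A * Real.exp ((n + 1 : ℕ) * b) * env b t)) :=
          mul_le_mul_of_nonneg_left h1 (norm_nonneg _)
      _ = (2 * (‖a n‖ * ((p n).A * Real.exp ((n + 1 : ℕ) * b)))) * env b t := by ring
      _ ≤ (2 * B n) * env b t := by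
          apply mul_le_mul_of_nonneg_right _ (env_nonneg b t)
          linarith [hcoef n]
  have nX : ∀ r : ℝ × ℝ, ‖X r‖ ≤ (∑' n, 2 * B n) * env b r.1 := by
    intro r
    have := sser_norm (a := fun n => cX n r.1) (B := fun n => (2 * B n) * env b r.1)
      (hBs2.mul_right _) (fun n => bX' n r.1) r.2
    rwa [tsum_mul_right] at this
  have iX : Integrable (fun r : ℝ × ℝ => ((φ (Z r.1 r.2) : ℝ) : ℂ) * X r) (volume.restrict St) := by
    refine Integrable.mono' ((env_St hb).const_mul (T.M * ∑' n, 2 * B n)) ?_ ?_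
    · refine AEStronglyMeasurable.mul ?_ mXX.aestronglyMeasurable
      exact Complex.continuous_ofReal.comp_aestronglyMeasurable (cont_meas T.c0)
    · filter_upwards [ae_restrict_mem St_meas] with r hr
      rw [norm_mul, Complex.norm_real, Real.norm_eq_abs]
      have h1 := T.b0 r.1 r.2 hr.2.1.le hr.2.2.le
      calc |φ (Z r.1 r.2)| * ‖X r‖ ≤ T.M * ((∑' n, 2 * B n) * env b r.1) :=
            mul_le_mul h1 (nX r) (norm_nonneg _) T.M_nonneg
        _ = _ := by ring
  -- replace `(P-S) u` by the series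
  have sA : ∫ r in St, (((P r.1 - S r.1) * φ (Z r.1 r.2) : ℝ) : ℂ) * u (Z r.1 r.2) =
      ∫ r in St, ((φ (Z r.1 r.2) : ℝ) : ℂ) * X r := by
    rw [← sub_eq_zero, ← integral_sub itA iX]
    have hi := itA.sub iX
    rw [IntegrableOn, St, prod_restr, Measure.restrict_univ] at hi
    rw [St, prod_restr, Measure.restrict_univ]
    have e0 : (∫ r : ℝ × ℝ, ((((P r.1 - S r.1) * φ (Z r.1 r.2) : ℝ) : ℂ) * u (Z r.1 r.2) -
        ((φ (Z r.1 r.2) : ℝ) : ℂ) * X r) ∂(volume.prod (volume.restrict (Ioo 0 Real.pi)))) =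
        ∫ t : ℝ, ∫ s in Ioo 0 Real.pi, ((((P t - S t) * φ (Z t s) : ℝ) : ℂ) * u (Z t s) -
        ((φ (Z t s) : ℝ) : ℂ) * X (t, s)) := integral_prod _ hi
    rw [e0]
    apply integral_eq_zero_of_ae
    have hck : ∀ᵐ t : ℝ, t ∈ Ioi (-b - δ) → ∀ n : ℕ, ck u (n + 1) t = a n * ((p n).x t : ℂ) := by
      rw [← ae_restrict_iff' measurableSet_Ioi]
      rw [ae_all_iff]
      intro n
      exact (hα (n + 1) (by omega)).1
    filter_upwards [hck, slices hu hCV hAE] with t h1 h2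
    simp only [Pi.zero_apply]
    have h3 : ∀ᵐ s ∂(volume.restrict (Ioo 0 Real.pi)),
        ((P t - S t : ℝ) : ℂ) * u (Z t s) = sser (fun n => cX n t) s := by
      refine eq_sser (a := fun n => cX n t) hBs2 (fun n => bX n t) hSine
        (f := fun s => ((P t - S t : ℝ) : ℂ) * u (Z t s)) (h2.1.const_mul _) ?_
      intro n
      have e1 : ∀ s : ℝ, ((P t - S t : ℝ) : ℂ) * u (Z t s) * (Real.sin ((n + 1 : ℕ) * s) : ℂ) =
          ((P t - S t : ℝ) : ℂ) * (u (Z t s) * (Real.sin ((n + 1 : ℕ) * s) : ℂ)) := by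
        intro s; ring
      simp_rw [e1]
      rw [integral_const_mul]
      by_cases h4 : t ∈ Ioi (-b - δ)
      · have h5 := h1 h4 n
        rw [ck] at h5
        rw [h5]
        simp only [hcX]
        push_cast; ring
      · have h6 : t ≤ -b - δ := not_lt.mp h4
        have h7 : P t - S t = 0 := by rw [hPS t (Or.inl (by linarith)), sub_self]
        simp only [hcX]
        rw [h7]; simp
    apply integral_eq_zero_of_ae
    filter_upwards [h3] with s hs
    simp only [Pi.zero_apply, hX]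
    rw [← hs]
    push_cast; ring
  -- the sum of all modes
  set F : ℕ → ℝ × ℝ → ℂ := fun n r => (2 / Real.pi : ℂ) * a n * ((fk (p n) T r : ℝ) : ℂ) with hF
  have hFb : ∀ n, ∀ r ∈ St, ‖F n r‖ ≤ (5 * T.M * B n) * env b r.1 := by
    intro n r hr
    simp only [hF]
    rw [norm_mul, norm_mul, norm_div, Complex.norm_real, Complex.norm_real, Real.norm_eq_abs,
      Real.norm_eq_abs, abs_of_pos Real.pi_pos]
    have h1 := fk_bound (by omega) hb (p n) T hPS hPb hSb hr
    have h2 : ‖(2 : ℂ)‖ / Real.pi ≤ 1 := by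
      rw [Complex.norm_ofNat, div_le_one Real.pi_pos]; linarith [Real.pi_gt_three]
    have h3 := norm_nonneg (a n)
    have h4 := T.M_nonneg
    have h5 := env_nonneg b r.1
    calc ‖(2 : ℂ)‖ / Real.pi * ‖a n‖ * |fk (p n) T r| ≤
        1 * ‖a n‖ * ((5 * T.M) * ((p n).A * Real.exp ((n + 1 : ℕ) * b) * env b r.1)) := by
          apply mul_le_mul _ h1 (abs_nonneg _) (by positivity)
          exact mul_le_mul_of_nonneg_right h2 h3
      _ = (5 * T.M) * (‖a n‖ * ((p n).A * Real.exp ((n + 1 : ℕ) * b))) * env b r.1 := by ring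
      _ ≤ (5 * T.M) * B n * env b r.1 := by
          apply mul_le_mul_of_nonneg_right _ h5
          exact mul_le_mul_of_nonneg_left (hcoef n) (by positivity)
  have hFi : ∀ n, Integrable (F n) (volume.restrict St) := fun n =>
    ((fk_int (by omega) hb (p n) T hPS hPb hSb hPm hSm).ofReal).const_mul _
  have hFs : Summable fun n => ∫ r in St, ‖F n r‖ := by
    refine Summable.of_nonneg_of_le (fun n => integral_nonneg fun _ => norm_nonneg _)
      (fun n => ?_) (hBs.mul_left (5 * T.M * ∫ r in St, env b r.1))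
    calc ∫ r in St, ‖F n r‖ ≤ ∫ r in St, (5 * T.M * B n) * env b r.1 := by
          refine integral_mono_ae (hFi n).norm ((env_St hb).const_mul _) ?_
          filter_upwards [ae_restrict_mem St_meas] with r hr
          exact hFb n r hr
      _ = _ := by rw [integral_const_mul]; ring
  have hF0 : ∀ n, ∫ r in St, F n r = 0 := by
    intro n
    simp only [hF]
    rw [integral_const_mul, integral_complex_ofReal,
      mode_id (by omega) hb (p n) T hPS hPb hSb hPm hSm]
    simp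
  have hFsum : ∫ r in St, ∑' n, F n r = 0 := by
    rw [← (hasSum_integral_of_summable_integral_norm hFi hFs).tsum_eq]
    simp_rw [hF0]
    exact tsum_zero
  -- integrability of the second part
  have iV : Integrable (fun r : ℝ × ℝ =>
      ((T.Ptt r.1 r.2 + T.Pss r.1 r.2 - S r.1 * φ (Z r.1 r.2) : ℝ) : ℂ) * V r)
      (volume.restrict St) := by
    have h1 := (hCV _).2.mp iv'
    refine IntegrableOn.congr_fun h1 ?_ St_meas
    intro r hr
    have e1 := hT r.1 r.2 hr.2.1.le hr.2.2.le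
    have e2 := hq' r.1 r.2 hr.2.1.le hr.2.2.le
    obtain ⟨e3, e4⟩ := inv_coord (t := r.1) hr.2.1 hr.2.2
    simp only [hv, hV]
    rw [e1, ← e2, e3, e4]
    push_cast; ring
  have hfin : (∫ r in St, ((φ (Z r.1 r.2) : ℝ) : ℂ) * X r) +
      ∫ r in St, ((T.Ptt r.1 r.2 + T.Pss r.1 r.2 - S r.1 * φ (Z r.1 r.2) : ℝ) : ℂ) * V r = 0 := by
    rw [← integral_add iX iV, ← hFsum]
    apply setIntegral_congr_fun St_meas
    intro r hr
    simp only [hX, hV, sser, hF]
    have s1 : Summable fun n => (2 / Real.pi : ℂ) * cX n r.1 * (Real.sin ((n + 1 : ℕ) * r.2) : ℂ) :=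
      Summable.of_norm_bounded hBs2 (fun n => sser_term hBs2 (fun n => bX n r.1) n r.2)
    have s2 : Summable fun n => (2 / Real.pi : ℂ) * cV n r.1 * (Real.sin ((n + 1 : ℕ) * r.2) : ℂ) :=
      Summable.of_norm_bounded hBs (fun n => sser_term hBs (fun n => bV n r.1) n r.2)
    rw [← tsum_mul_left, ← tsum_mul_left, ← (s1.mul_left _).tsum_add (s2.mul_left _)]
    congr 1
    ext n
    simp only [hcX, hcV, fk]
    push_cast; ring
  rw [tA, sA, tB, hfin, add_zero]

end Pool.Agent.W738.CP
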