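import Mathlib
import Pool.Agent.W738.CP.Transfer

open MeasureTheory Set Filter Topology InnerProductSpace Laplacian
open scoped ContDiff

namespace Pool.Agent.W738.CP

/-- Test functions for the Dirichlet trace on `Γ`: smooth `φ` with `φ = 0` on the unit circle and
with the support of `∂_ν φ` (restricted to the circle) contained in `Γ`. -/
def TestD (Γ : Set ℂ) : Set (ℂ → ℝ) :=
  {φ | ContDiff ℝ ∞ φ ∧ (∀ z ∈ Metric.sphere (0 : ℂ) 1, φ z = 0) ∧
    closure {z ∈ Metric.sphere (0 : ℂ) 1 | normalDeriv φ z ≠ 0} ⊆ Γ}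

/-- Test functions for the Neumann trace on `Γ`: smooth `φ` with `∂_ν φ = 0` on the unit circle and
with the support of `φ` (restricted to the circle) contained in `Γ`. -/
def TestN (Γ : Set ℂ) : Set (ℂ → ℝ) :=
  {φ | ContDiff ℝ ∞ φ ∧ (∀ z ∈ Metric.sphere (0 : ℂ) 1, normalDeriv φ z = 0) ∧
    closure {z ∈ Metric.sphere (0 : ℂ) 1 | φ z ≠ 0} ⊆ Γ}

/-- `u ∈ L²` of the unit disc `Ω` solves `(-Δ + q) u = 0` in the sense of distributions and the
support of the trace of `u` on `∂Ω` is contained in `ΓD`: the trace is the distribution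
`∂_ν φ ↦ ∫_Ω u (Δφ - qφ)` (`φ` smooth, `φ = 0` on `∂Ω`), and it vanishes off a compact subset
of `ΓD`. -/
structure IsSol (q : ℂ → ℝ) (ΓD : Set ℂ) (u : ℂ → ℂ) : Prop where
  memLp : MemLp u 2 (volume.restrict (Metric.ball (0 : ℂ) 1))
  weak : ∀ φ : ℂ → ℝ, ContDiff ℝ ∞ φ → HasCompactSupport φ → tsupport φ ⊆ Metric.ball 0 1 →
    green q u φ = 0
  supp : ∃ K ⊆ ΓD, IsCompact K ∧ ∀ φ : ℂ → ℝ, ContDiff ℝ ∞ φ →
    (∀ z ∈ Metric.sphere (0 : ℂ) 1, φ z = 0) →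
    (∀ z ∈ K, ∀ᶠ y in 𝓝[Metric.sphere (0 : ℂ) 1] z, normalDeriv φ y = 0) → green q u φ = 0

/-- The Cauchy data set: pairs (Dirichlet trace of `u` on `ΓD`, Neumann trace of `u` on `ΓN`), both
given by Green's formula `∫_Ω u (Δφ - qφ) = ⟨u, ∂_ν φ⟩ - ⟨∂_ν u, φ⟩`. -/
def CauchyData (q : ℂ → ℝ) (ΓD ΓN : Set ℂ) : Set ((TestD ΓD → ℂ) × (TestN ΓN → ℂ)) :=
  {d | ∃ u, IsSol q ΓD u ∧ (∀ φ, d.1 φ = green q u φ) ∧ ∀ φ, d.2 φ = -green q u φ}

theorem pot_meas (c : ℝ) : Measurable (pot c) := by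
  unfold pot
  refine Measurable.ite ?_ (by fun_prop) measurable_const
  have m1 : MeasurableSet {z : ℂ | ‖1 - z‖ ≤ ‖1 + z‖} :=
    measurableSet_le (by fun_prop) (by fun_prop)
  have m2 : MeasurableSet {z : ℂ | (1 - c) * ‖1 + z‖ ^ 2 ≤ (1 + c) * ‖1 - z‖ ^ 2} :=
    measurableSet_le (by fun_prop) (by fun_prop)
  exact m1.inter m2

theorem pot_bdd {c : ℝ} (h0 : 0 < c) (h1 : c < 1) (z : ℂ) : |pot c z| ≤ 4 * (1 + c) / (1 - c) := by
  have hc : 0 < 1 - c := by linarith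
  unfold pot
  split_ifs with h
  · have h2 : ‖1 - z ^ 2‖ ^ 2 = ‖1 - z‖ ^ 2 * ‖1 + z‖ ^ 2 := by
      rw [← mul_pow, ← norm_mul]; ring_nf
    rw [abs_of_nonneg (by positivity), h2]
    have h3 : 1 ≤ ‖1 + z‖ := by
      have : ‖(1 - z) + (1 + z)‖ ≤ ‖1 - z‖ + ‖1 + z‖ := norm_add_le _ _
      have e : (1 - z) + (1 + z) = 2 := by ring
      rw [e, Complex.norm_ofNat] at this
      linarith [h.1]
    have h4 : 1 ≤ ‖1 + z‖ ^ 2 := one_le_pow₀ h3
    have h5 : (1 - c) / (1 + c) ≤ ‖1 - z‖ ^ 2 := by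
      rw [div_le_iff₀ (by linarith)]
      nlinarith [h.2]
    have h6 : 0 < (1 - c) / (1 + c) := by positivity
    have h7 : (1 - c) / (1 + c) ≤ ‖1 - z‖ ^ 2 * ‖1 + z‖ ^ 2 := by nlinarith
    calc 4 / (‖1 - z‖ ^ 2 * ‖1 + z‖ ^ 2) ≤ 4 / ((1 - c) / (1 + c)) :=
          div_le_div_of_nonneg_left (by norm_num) h6 h7
      _ = 4 * (1 + c) / (1 - c) := by rw [div_div_eq_mul_div]
  · rw [abs_zero]; positivity

theorem pot_ne {c : ℝ} (h0 : 0 < c) (h1 : c < 1) :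
    ¬ (pot c =ᵐ[volume.restrict (Metric.ball (0 : ℂ) 1)] fun z => pot c (-z)) := by
  intro h
  set U : Set ℂ := Metric.ball (0 : ℂ) 1 ∩ ({z | ‖1 - z‖ < ‖1 + z‖} ∩
    {z | (1 - c) * ‖1 + z‖ ^ 2 < (1 + c) * ‖1 - z‖ ^ 2}) with hU
  have hUo : IsOpen U := by
    refine Metric.isOpen_ball.inter (IsOpen.inter ?_ ?_)
    · exact isOpen_lt (by fun_prop) (by fun_prop)
    · exact isOpen_lt (by fun_prop) (by fun_prop)
  have hUn : U.Nonempty := by
    refine ⟨((c / 4 : ℝ) : ℂ), ?_, ?_, ?_⟩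
    · rw [Metric.mem_ball, dist_zero_right, Complex.norm_real, Real.norm_eq_abs,
        abs_of_pos (by positivity)]
      linarith
    · have e1 : (1 : ℂ) - ((c / 4 : ℝ) : ℂ) = ((1 - c / 4 : ℝ) : ℂ) := by push_cast; ring
      have e2 : (1 : ℂ) + ((c / 4 : ℝ) : ℂ) = ((1 + c / 4 : ℝ) : ℂ) := by push_cast; ring
      rw [Set.mem_ofPred_eq, e1, e2, Complex.norm_real, Complex.norm_real, Real.norm_eq_abs,
        Real.norm_eq_abs, abs_of_pos (by linarith), abs_of_pos (by linarith)]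
      linarith
    · have e1 : (1 : ℂ) - ((c / 4 : ℝ) : ℂ) = ((1 - c / 4 : ℝ) : ℂ) := by push_cast; ring
      have e2 : (1 : ℂ) + ((c / 4 : ℝ) : ℂ) = ((1 + c / 4 : ℝ) : ℂ) := by push_cast; ring
      rw [Set.mem_ofPred_eq, e1, e2, Complex.norm_real, Complex.norm_real, Real.norm_eq_abs,
        Real.norm_eq_abs, abs_of_pos (by linarith), abs_of_pos (by linarith)]
      nlinarith [pow_pos h0 3]
  have hpos : 0 < volume U := hUo.measure_pos volume hUn
  have hz : volume U = 0 := by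
    rw [Filter.EventuallyEq, ae_restrict_iff' measurableSet_ball] at h
    refine measure_mono_null ?_ h
    intro z hz
    simp only [mem_compl_iff, Set.mem_ofPred_eq, Classical.not_imp]
    refine ⟨hz.1, ?_⟩
    have a1 : ‖1 - z‖ < ‖1 + z‖ := hz.2.1
    have a2 : (1 - c) * ‖1 + z‖ ^ 2 < (1 + c) * ‖1 - z‖ ^ 2 := hz.2.2
    have r1 : 1 - -z = 1 + z := by ring
    have r2 : 1 + -z = 1 - z := by ring
    unfold pot
    rw [r1, r2, if_pos ⟨a1.le, a2.le⟩, if_neg (fun hh => absurd hh.1 (not_le.mpr a1))]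
    have h2 : ‖1 - z ^ 2‖ ^ 2 = ‖1 - z‖ ^ 2 * ‖1 + z‖ ^ 2 := by
      rw [← mul_pow, ← norm_mul]; ring_nf
    rw [h2]
    have b1 : 0 < ‖1 + z‖ := lt_of_le_of_lt (norm_nonneg _) a1
    have b2 : 0 < ‖1 - z‖ ^ 2 := by
      have : 0 < (1 - c) * ‖1 + z‖ ^ 2 := mul_pos (by linarith) (by positivity)
      have hc : 0 < 1 + c := by linarith
      by_contra hn
      push Not at hn
      nlinarith
    positivity
  exact hpos.ne' hz

theorem tanh_neg_gt {b ρ : ℝ} (h : ρ < Real.tanh (-b)) :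
    ∃ δ : ℝ, 0 < δ ∧ ρ ≤ Real.tanh (-b - δ) := by
  have hc : ContinuousAt (fun δ : ℝ => Real.tanh (-b - δ)) 0 := by
    have : Continuous Real.tanh := by
      have e : Real.tanh = fun x => Real.sinh x / Real.cosh x := by
        ext x; exact Real.tanh_eq_sinh_div_cosh x
      rw [e]
      exact Real.continuous_sinh.div Real.continuous_cosh fun x => (Real.cosh_pos x).ne'
    exact (this.comp (by fun_prop : Continuous fun δ : ℝ => -b - δ)).continuousAt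
  have h2 : ∀ᶠ δ in 𝓝 (0 : ℝ), ρ < Real.tanh (-b - δ) := by
    apply hc.eventually_const_lt
    simpa using h
  obtain ⟨ε, hε, hb⟩ := Metric.eventually_nhds_iff.mp h2
  refine ⟨ε / 2, by positivity, (hb ?_).le⟩
  rw [dist_zero_right, Real.norm_eq_abs, abs_of_pos (by positivity)]
  linarith

theorem exists_delta {K : Set ℂ} (hK : IsCompact K) {b : ℝ}
    (h : ∀ z ∈ K, z.re < Real.tanh (-b)) :
    ∃ δ : ℝ, 0 < δ ∧ ∀ z ∈ K, z.re ≤ Real.tanh (-b - δ) := by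
  rcases K.eq_empty_or_nonempty with rfl | hne
  · exact ⟨1, one_pos, fun z hz => absurd hz (notMem_empty z)⟩
  · obtain ⟨z0, hz0, hmax⟩ := hK.exists_isMaxOn hne Complex.continuous_re.continuousOn
    obtain ⟨δ, hδ, h1⟩ := tanh_neg_gt (h z0 hz0)
    exact ⟨δ, hδ, fun z hz => (hmax hz).trans h1⟩

theorem exists_tanh {c : ℝ} (h0 : 0 < c) (h1 : c < 1) : ∃ b : ℝ, 0 < b ∧ Real.tanh b = c := by
  have hc : 0 < 1 - c := by linarith
  set b := Real.log ((1 + c) / (1 - c)) / 2 with hb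
  have hb0 : 0 < b := by
    have : 1 < (1 + c) / (1 - c) := by rw [one_lt_div hc]; linarith
    have := Real.log_pos this
    positivity
  refine ⟨b, hb0, ?_⟩
  have h2 := tanh_rel b
  have h3 : Real.exp (2 * b) = (1 + c) / (1 - c) := by
    rw [hb, mul_div_cancel₀ _ two_ne_zero, Real.exp_log (by positivity)]
  rw [h3] at h2
  field_simp at h2
  linarith

theorem Q_zero {b t : ℝ} (hb : 0 < b) (h : t < -b ∨ b < t) : Q b t = 0 ∧ Q2 b t = 0 := by
  unfold Q2 Q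
  constructor
  · rw [if_neg]
    rintro ⟨a1, a2⟩
    rcases h with h | h <;> linarith
  · rw [if_neg]
    rintro ⟨a1, a2⟩
    rcases h with h | h <;> linarith

end Pool.Agent.W738.CP
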