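import Mathlib
import Pool.Agent.W738.CP.Defs
import Pool.Agent.W991.CP.CV
import Pool.Agent.W991.CP.Lap
import Pool.Agent.W991.CP.Test
import Pool.Agent.W991.CP.Weak
import Pool.Agent.W991.CP.Sine

open MeasureTheory Set Filter Topology InnerProductSpace Laplacian
open scoped ContDiff

namespace Pool.Agent.W738.CP

/-- one inclusion between the Cauchy data sets -/
theorem incl {b : ℝ} (hb : 0 < b) {q q' : ℂ → ℝ} {P S : ℝ → ℝ}
    (hq : ∀ t s, 0 ≤ s → s ≤ Real.pi → J t s * q (Z t s) = P t)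
    (hq' : ∀ t s, 0 ≤ s → s ≤ Real.pi → J t s * q' (Z t s) = S t)
    (hqm : Measurable q) (hqm' : Measurable q') {Bq : ℝ} (hqb : ∀ z, |q z| ≤ Bq)
    (hqb' : ∀ z, |q' z| ≤ Bq)
    (hP : ∀ t, t ≠ -b → t ≠ 0 → t ≠ b → ContinuousAt P t)
    (hPm : Measurable P) (hSm : Measurable S) (hPb : ∀ t, |P t| ≤ 1) (hSb : ∀ t, |S t| ≤ 1)
    (hPS : ∀ t, t < -b ∨ b < t → P t = S t) (pr : ∀ k : ℕ, 1 ≤ k → Pair b k P S)
    {ΓD ΓN : Set ℂ} (hD : ∀ z ∈ ΓD, z ∈ Metric.sphere (0 : ℂ) 1 ∧ z.re < Real.tanh (-b))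
    (hN : ∀ z ∈ ΓN, Real.tanh b < z.re) :
    CauchyData q ΓD ΓN ⊆ CauchyData q' ΓD ΓN := by
  rintro d ⟨u, hu, hd1, hd2⟩
  obtain ⟨K, hKD, hKc, hK⟩ := hu.supp
  obtain ⟨δ, hδ, hKδ⟩ := exists_delta hKc (b := b) (fun z hz => (hD z (hKD hz)).2)
  obtain ⟨v, hv, hT⟩ := transfer W991.CP.CV.cv W991.CP.CV.cv_ae W991.CP.Lap.lap W991.CP.Test.test
    W991.CP.Weak.weak W991.CP.Sine.sine hb hq hq' hqm hqm' hqb hqb' hP hPm hSm hPb hSb hPS pr
    hu.memLp hδ (fun z hz => ⟨(hD z (hKD hz)).1, hKδ z hz⟩) hK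
  refine ⟨fun z => u z + v z, ⟨hu.memLp.add hv, ?_, K, hKD, hKc, ?_⟩, ?_, ?_⟩
  · intro φ h1 h2 h3
    have h4 : ∀ z ∈ Metric.sphere (0 : ℂ) 1, φ z = 0 := by
      intro z hz
      apply image_eq_zero_of_notMem_tsupport
      intro h5
      have h6 := h3 h5
      rw [Metric.mem_ball, dist_zero_right] at h6
      rw [Metric.mem_sphere, dist_zero_right] at hz
      linarith
    rw [hT φ h1 fun z hz _ => h4 z hz]
    exact hu.weak φ h1 h2 h3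
  · intro φ h1 h2 h3
    rw [hT φ h1 fun z hz _ => h2 z hz]
    exact hK φ h1 h2 h3
  · intro φ
    rw [hT φ φ.2.1 fun z hz _ => φ.2.2.1 z hz]
    exact hd1 φ
  · intro φ
    rw [hT φ φ.2.1 ?_]
    · exact hd2 φ
    · intro z hz hre
      by_contra hne
      have h1 : z ∈ ΓN := φ.2.2.2 (subset_closure ⟨hz, hne⟩)
      have := hN z h1
      linarith

theorem main {c : ℝ} (h0 : 0 < c) (h1 : c < 1) {ΓD ΓN : Set ℂ}
    (hD : ΓD ⊆ {z | ‖z‖ = 1 ∧ z.re < -c}) (hN : ΓN ⊆ {z | ‖z‖ = 1 ∧ c < z.re}) :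
    CauchyData (pot c) ΓD ΓN = CauchyData (fun z => pot c (-z)) ΓD ΓN := by
  obtain ⟨b, hb, rfl⟩ := exists_tanh h0 h1
  have hD' : ∀ z ∈ ΓD, z ∈ Metric.sphere (0 : ℂ) 1 ∧ z.re < Real.tanh (-b) := by
    intro z hz
    obtain ⟨a1, a2⟩ := hD hz
    exact ⟨by simpa using a1, by rw [Real.tanh_neg]; exact a2⟩
  have hN' : ∀ z ∈ ΓN, Real.tanh b < z.re := fun z hz => (hN hz).2
  have m1 : Measurable (pot (Real.tanh b)) := pot_meas _
  have m2 : Measurable (fun z => pot (Real.tanh b) (-z)) := (pot_meas _).comp measurable_neg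
  have b1 : ∀ z, |pot (Real.tanh b) z| ≤ 4 * (1 + Real.tanh b) / (1 - Real.tanh b) :=
    fun z => pot_bdd h0 h1 z
  have b2 : ∀ z, |pot (Real.tanh b) (-z)| ≤ 4 * (1 + Real.tanh b) / (1 - Real.tanh b) :=
    fun z => pot_bdd h0 h1 (-z)
  have c1 : ∀ t, t ≠ -b → t ≠ 0 → t ≠ b → ContinuousAt (Q b) t := fun t _ h2 h3 => Q_cont h2 h3
  have c2 : ∀ t, t ≠ -b → t ≠ 0 → t ≠ b → ContinuousAt (Q2 b) t := by
    intro t g1 g2 g3
    unfold Q2
    refine ContinuousAt.comp (f := fun t => t + b) (g := Q b) (Q_cont ?_ ?_) (by fun_prop)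
    · intro h; apply g1; linarith
    · intro h; apply g2; linarith
  have d1 : ∀ t, |Q b t| ≤ 1 := fun t => by
    rw [abs_of_nonneg (Q_nonneg b t)]; exact Q_le b t
  have d2 : ∀ t, |Q2 b t| ≤ 1 := fun t => d1 (t + b)
  have e1 : Measurable (Q b) := Q_meas b
  have e2 : Measurable (Q2 b) := (Q_meas b).comp (measurable_id.add_const b)
  apply Subset.antisymm
  · exact incl hb (fun t s g0 g1 => pot_one g0 g1) (fun t s g0 g1 => pot_two g0 g1) m1 m2 b1 b2 c1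
      e1 e2 d1 d2 (fun t ht => by rw [(Q_zero hb ht).1, (Q_zero hb ht).2])
      (fun k hk => pair12 hb hk) hD' hN'
  · exact incl hb (fun t s g0 g1 => pot_two g0 g1) (fun t s g0 g1 => pot_one g0 g1) m2 m1 b2 b1 c2
      e2 e1 d2 d1 (fun t ht => by rw [(Q_zero hb ht).1, (Q_zero hb ht).2])
      (fun k hk => pair21 hb hk) hD' hN'

end Pool.Agent.W738.CP
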